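import Pool.Agent.LGC.Basic

set_option autoImplicit false

/-!
# LGC_BAD: the probability of a small independence number
-/

namespace Pool.Agent.LGC

open Finset

theorem bad_incr {V : Type} (S : Finset V) (k : ℕ) (A B : Finset (Sym2 V)) (hAB : A ⊆ B)
    (h : ¬ ∃ I ⊆ S, I.card = k ∧ Ind (gr A) ∅ I) :
    ¬ ∃ I ⊆ S, I.card = k ∧ Ind (gr B) ∅ I := by
  rintro ⟨I, hIS, hIk, hI⟩
  refine h ⟨I, hIS, hIk, ?_⟩
  intro x hx y hy hxy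
  refine ⟨?_, by simp⟩
  intro hadj
  rw [gr_adj] at hadj
  exact (hI x hx y hy hxy).1 ((gr_adj B x y).2 ⟨hAB hadj.1, hxy⟩)

theorem bad_ind_of_sdiff {V : Type} [DecidableEq (Sym2 V)] (A B : Finset (Sym2 V)) (I : Finset V)
    (hI : Ind (gr A) (B \ A) I) : Ind (gr B) ∅ I := by
  intro x hx y hy hxy
  refine ⟨?_, by simp⟩
  intro hadj
  rw [gr_adj] at hadj
  by_cases hA : s(x, y) ∈ A
  · exact (hI x hx y hy hxy).1 ((gr_adj A x y).2 ⟨hA, hxy⟩)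
  · exact (hI x hx y hy hxy).2 (Finset.mem_sdiff.2 ⟨hadj.1, hA⟩)

theorem bad (h1 : S_ISO) (h2 : S_DET) (h3 : S_U1) (h4 : S_U2) (h5 : S_U3) (h6 : S_NUM) :
    S_BAD := by
  classical
  intro θ T hθ hT
  obtain ⟨k1, hk1⟩ := h3 θ T hθ hT
  obtain ⟨k2, hk2⟩ := h4 θ T hθ hT
  obtain ⟨k3, hk3⟩ := h5 θ T hθ hT
  obtain ⟨k4, hk4⟩ := h6 θ T hθ hT
  refine ⟨k1 + k2 + k3 + k4, ?_⟩
  intro k V _ S K hk hK hS1 hS2
  set h : ℕ := S.card ^ 2 / (256 * k) with hh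
  have hh2 : 256 * (k : ℝ) * h ≤ (S.card : ℝ) ^ 2 := by
    have := Nat.div_mul_le_self (S.card ^ 2) (256 * k)
    have h' : 256 * k * h ≤ S.card ^ 2 := by
      rw [mul_comm]
      exact this
    exact_mod_cast h'
  obtain ⟨c1, c2, c3, c4, c5, c6, c7, c8, c9, c10, c11, c12, c13⟩ :=
    hk4 k S.card h (by omega) hS1 hS2 hh2
  have hKpos : (0 : ℝ) < K := lt_of_lt_of_le one_pos hK
  have hp0 : 0 < pk k / K := div_pos c2 hKpos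
  have hple : pk k / K ≤ pk k := div_le_self c2.le hK
  have hp1 : pk k < 1 := by linarith
  have hp1' : pk k / K ≤ 1 := by linarith
  have hiso := h1 (Sym2 V) (pk k / K) (pk k) hp0 hple hp1
    (fun A => ¬ ∃ I ⊆ S, I.card = k ∧ Ind (gr A) ∅ I) (bad_incr S k) h
  have hratio : pk k / (pk k / K) = K := by
    field_simp
  rw [hratio] at hiso
  -- the uniform graphs are good
  have hU : ∀ A : Finset (Sym2 V),
      Unif (gr A) S (pk k) (ek k) ((k : ℝ) ^ (17 / 10 : ℝ)) ((k : ℝ) ^ (11 / 10 : ℝ))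
        ((k : ℝ) ^ (1 / 2 : ℝ)) →
      ∀ B, A ⊆ B → B.card ≤ A.card + h → ¬ ¬ ∃ I ⊆ S, I.card = k ∧ Ind (gr B) ∅ I := by
    intro A hA B hAB hBA
    rw [not_not]
    have hE : (B \ A).card ≤ h := by
      rw [Finset.card_sdiff_of_subset hAB]
      exact Nat.sub_le_iff_le_add'.2 hBA
    obtain ⟨I, hI1, hI2, hI3⟩ := h2 V (gr A) S (B \ A) k h (pk k) (ek k) ((k : ℝ) ^ (17 / 10 : ℝ))
      ((k : ℝ) ^ (11 / 10 : ℝ)) ((k : ℝ) ^ (1 / 2 : ℝ)) ((k : ℝ) ^ (3 / 2 : ℝ)) hE c2 c3 c4.le c5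
      c6 c7 c8 c9 hh2 c10 c11 c12 c13 hA
    exact ⟨I, hI1, hI2, bad_ind_of_sdiff A B I hI3⟩
  have hPU : 3 / 4 ≤ Pr (pk k) (fun A : Finset (Sym2 V) =>
      Unif (gr A) S (pk k) (ek k) ((k : ℝ) ^ (17 / 10 : ℝ)) ((k : ℝ) ^ (11 / 10 : ℝ))
        ((k : ℝ) ^ (1 / 2 : ℝ))) := by
    have e1 := hk1 k V S (by omega) hS1 hS2
    have e2 := hk2 k V S (by omega) hS1 hS2
    have e3 := hk3 k V S (by omega) hS1 hS2
    have hnot := Pr_not (pk k) (fun A : Finset (Sym2 V) =>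
      Unif (gr A) S (pk k) (ek k) ((k : ℝ) ^ (17 / 10 : ℝ)) ((k : ℝ) ^ (11 / 10 : ℝ))
        ((k : ℝ) ^ (1 / 2 : ℝ)))
    have hle : Pr (pk k) (fun A : Finset (Sym2 V) =>
        ¬ Unif (gr A) S (pk k) (ek k) ((k : ℝ) ^ (17 / 10 : ℝ)) ((k : ℝ) ^ (11 / 10 : ℝ))
          ((k : ℝ) ^ (1 / 2 : ℝ))) ≤ 1 / 12 + (1 / 12 + 1 / 12) := by
      refine (Pr_mono c2.le hp1.le (Q' := fun A : Finset (Sym2 V) =>
        ¬ U1 (gr A) S (pk k) (ek k) ((k : ℝ) ^ (17 / 10 : ℝ)) ∨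
          (¬ U2 (gr A) S (pk k) (ek k) ((k : ℝ) ^ (17 / 10 : ℝ)) ((k : ℝ) ^ (11 / 10 : ℝ)) ∨
            ¬ U3 (gr A) S ((k : ℝ) ^ (1 / 2 : ℝ)))) ?_).trans ?_
      · intro A hA
        by_contra hcon
        push Not at hcon
        exact hA ⟨hcon.1, hcon.2.1, hcon.2.2⟩
      · refine (Pr_or_le c2.le hp1.le _ _).trans (add_le_add e1 ?_)
        exact (Pr_or_le c2.le hp1.le _ _).trans (add_le_add e2 e3)
    rw [hnot] at hle
    linarith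
  have hgood := hPU.trans (Pr_mono c2.le hp1.le hU)
  have hQ0 := Pr_nonneg hp0.le hp1' (fun A : Finset (Sym2 V) =>
    ¬ ∃ I ⊆ S, I.card = k ∧ Ind (gr A) ∅ I)
  have hKh : 0 ≤ K ^ h := pow_nonneg hKpos.le h
  have hprod : Pr (pk k / K) (fun A : Finset (Sym2 V) =>
      ¬ ∃ I ⊆ S, I.card = k ∧ Ind (gr A) ∅ I) * (K ^ h * (3 / 4)) ≤ 1 := by
    refine le_trans ?_ hiso
    exact mul_le_mul_of_nonneg_left (mul_le_mul_of_nonneg_left hgood hKh) hQ0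
  rw [← mul_assoc] at hprod
  linarith

end Pool.Agent.LGC
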