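import Pool.Agent.LGC.Basic

set_option autoImplicit false

/-!
# Product measure and Chernoff bounds
-/

namespace Pool.Agent.LGC

open Finset

variable {ι : Type} [Fintype ι]

/-- generating function of the product measure -/
theorem ch_gen [DecidableEq ι] (p : ℝ) (u v : ι → ℝ) :
    ∑ A : Finset ι, wt p A * ((∏ i ∈ A, u i) * ∏ i ∈ univ \ A, v i) =
      ∏ i : ι, (p * u i + (1 - p) * v i) := by
  have h := Finset.prod_add (fun i : ι => p * u i) (fun i : ι => (1 - p) * v i)
    (Finset.univ : Finset ι)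
  rw [h, Finset.powerset_univ]
  refine Finset.sum_congr rfl fun A _ => ?_
  rw [Finset.prod_mul_distrib, Finset.prod_mul_distrib, Finset.prod_const, Finset.prod_const]
  have hc : (univ \ A).card = Fintype.card ι - A.card := by
    rw [Finset.card_sdiff_of_subset (Finset.subset_univ A), Finset.card_univ]
  rw [hc]
  unfold wt
  ring

theorem ch_prod_ite [DecidableEq ι] (T : Finset ι) (x y : ℝ) :
    ∏ i : ι, (if i ∈ T then x else y) = x ^ T.card * y ^ (univ \ T).card := by
  rw [Finset.prod_ite, Finset.prod_const, Finset.prod_const]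
  congr 2
  · congr 1
    ext i; simp
  · congr 1
    ext i; simp

theorem ch_sub [DecidableEq ι] (p : ℝ) (T : Finset ι) :
    Pr p (fun A => T ⊆ A) = p ^ T.card := by
  have h := ch_gen p (fun _ : ι => (1 : ℝ)) (fun i : ι => if i ∈ T then (0 : ℝ) else 1)
  have h1 : ∏ i : ι, (p * 1 + (1 - p) * (if i ∈ T then (0 : ℝ) else 1)) = p ^ T.card := by
    have : ∀ i : ι, p * 1 + (1 - p) * (if i ∈ T then (0 : ℝ) else 1) =
        if i ∈ T then p else 1 := by
      intro i; split_ifs <;> ring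
    simp only [this]
    rw [ch_prod_ite]; simp
  rw [h1] at h
  rw [← h, Pr_eq]
  refine Finset.sum_congr rfl fun A _ => ?_
  by_cases hT : T ⊆ A
  · rw [if_pos hT]
    have : ∏ i ∈ univ \ A, (if i ∈ T then (0 : ℝ) else 1) = 1 := by
      refine Finset.prod_eq_one fun i hi => ?_
      have : i ∉ T := fun h' => (Finset.mem_sdiff.1 hi).2 (hT h')
      rw [if_neg this]
    rw [this]; simp
  · rw [if_neg hT]
    obtain ⟨i, hi, hi'⟩ := Finset.not_subset.1 hT
    have : ∏ i ∈ univ \ A, (if i ∈ T then (0 : ℝ) else 1) = 0 := by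
      refine Finset.prod_eq_zero (i := i) (by simp [hi']) ?_
      rw [if_pos hi]
    rw [this]; simp

theorem ch_disj [DecidableEq ι] (p : ℝ) (T : Finset ι) :
    Pr p (fun A => Disjoint A T) = (1 - p) ^ T.card := by
  have h := ch_gen p (fun i : ι => if i ∈ T then (0 : ℝ) else 1) (fun _ : ι => (1 : ℝ))
  have h1 : ∏ i : ι, (p * (if i ∈ T then (0 : ℝ) else 1) + (1 - p) * 1) =
      (1 - p) ^ T.card := by
    have : ∀ i : ι, p * (if i ∈ T then (0 : ℝ) else 1) + (1 - p) * 1 =
        if i ∈ T then 1 - p else 1 := by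
      intro i; split_ifs <;> ring
    simp only [this]
    rw [ch_prod_ite]; simp
  rw [h1] at h
  rw [← h, Pr_eq]
  refine Finset.sum_congr rfl fun A _ => ?_
  by_cases hT : Disjoint A T
  · rw [if_pos hT]
    have : ∏ i ∈ A, (if i ∈ T then (0 : ℝ) else 1) = 1 := by
      refine Finset.prod_eq_one fun i hi => ?_
      have : i ∉ T := Finset.disjoint_left.1 hT hi
      rw [if_neg this]
    rw [this]; simp
  · rw [if_neg hT]
    obtain ⟨i, hi, hi'⟩ := Finset.not_disjoint_iff.1 hT
    have : ∏ i ∈ A, (if i ∈ T then (0 : ℝ) else 1) = 0 := by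
      refine Finset.prod_eq_zero (i := i) hi ?_
      rw [if_pos hi']
    rw [this]; simp

/-- moment generating function -/
theorem ch_mgf [DecidableEq ι] (p x : ℝ) (T : Finset ι) :
    ∑ A : Finset ι, wt p A * x ^ (A ∩ T).card = (1 + p * (x - 1)) ^ T.card := by
  have h := ch_gen p (fun i : ι => if i ∈ T then x else 1) (fun _ : ι => (1 : ℝ))
  have h1 : ∏ i : ι, (p * (if i ∈ T then x else 1) + (1 - p) * 1) =
      (1 + p * (x - 1)) ^ T.card := by
    have : ∀ i : ι, p * (if i ∈ T then x else 1) + (1 - p) * 1 =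
        if i ∈ T then 1 + p * (x - 1) else 1 := by
      intro i; split_ifs <;> ring
    simp only [this]
    rw [ch_prod_ite]; simp
  rw [h1] at h
  rw [← h]
  refine Finset.sum_congr rfl fun A _ => ?_
  congr 1
  rw [Finset.prod_const_one, mul_one, Finset.prod_ite, Finset.prod_const, Finset.prod_const_one,
    mul_one]
  congr 2

/-- Markov: an event on which `1 ≤ f` has probability at most the mean of `f ≥ 0`. -/
theorem ch_markov {p : ℝ} (h0 : 0 ≤ p) (h1 : p ≤ 1) (Q : Finset ι → Prop) (f : Finset ι → ℝ)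
    (hf : ∀ A, 0 ≤ f A) (hQ : ∀ A, Q A → 1 ≤ f A) :
    Pr p Q ≤ ∑ A : Finset ι, wt p A * f A := by
  classical
  rw [Pr_eq]
  refine Finset.sum_le_sum fun A _ => ?_
  have hw := wt_nonneg h0 h1 A
  by_cases h : Q A
  · rw [if_pos h]
    nlinarith [hQ A h]
  · rw [if_neg h]
    exact mul_nonneg hw (hf A)

theorem ch_upper [DecidableEq ι] {p : ℝ} (h0 : 0 ≤ p) (h1 : p ≤ 1) (T : Finset ι) (m η : ℝ)
    (hη0 : 0 ≤ η) (hη1 : η ≤ 1) (hm : p * T.card ≤ m) :
    Pr p (fun A => (1 + η) * m ≤ ((A ∩ T).card : ℝ)) ≤ Real.exp (-(η ^ 2 * m / 4)) := by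
  have hm0 : 0 ≤ m := le_trans (by positivity) hm
  set t : ℝ := η / 2 with ht
  have ht0 : 0 ≤ t := by positivity
  have ht1 : t ≤ 1 := by linarith
  have hM := ch_markov h0 h1 (fun A : Finset ι => (1 + η) * m ≤ ((A ∩ T).card : ℝ))
    (fun A => Real.exp (-(t * ((1 + η) * m))) * Real.exp t ^ (A ∩ T).card)
    (fun A => by positivity) (fun A hA => by
      have hA' : (1 + η) * m ≤ ((A ∩ T).card : ℝ) := hA
      show 1 ≤ Real.exp (-(t * ((1 + η) * m))) * Real.exp t ^ (A ∩ T).card
      rw [← Real.exp_nat_mul, ← Real.exp_add]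
      apply Real.one_le_exp
      nlinarith [mul_le_mul_of_nonneg_left hA' ht0])
  refine hM.trans ?_
  have e1 : ∑ A : Finset ι, wt p A * (Real.exp (-(t * ((1 + η) * m))) *
      Real.exp t ^ (A ∩ T).card) =
      Real.exp (-(t * ((1 + η) * m))) * (1 + p * (Real.exp t - 1)) ^ T.card := by
    rw [← ch_mgf, Finset.mul_sum]
    exact Finset.sum_congr rfl fun A _ => by ring
  rw [e1]
  have hexp1 : 1 ≤ Real.exp t := Real.one_le_exp ht0
  have hexp2 : Real.exp t - 1 ≤ t + t ^ 2 := by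
    have := Real.abs_exp_sub_one_sub_id_le (x := t) (by rw [abs_of_nonneg ht0]; exact ht1)
    have := (abs_le.1 this).2
    linarith
  have e2 : (1 + p * (Real.exp t - 1)) ^ T.card ≤ Real.exp (m * (t + t ^ 2)) := by
    have hb : 1 + p * (Real.exp t - 1) ≤ Real.exp (p * (Real.exp t - 1)) := by
      have := Real.add_one_le_exp (p * (Real.exp t - 1))
      linarith
    have hb0 : 0 ≤ 1 + p * (Real.exp t - 1) := by
      have : 0 ≤ p * (Real.exp t - 1) := mul_nonneg h0 (by linarith)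
      linarith
    calc (1 + p * (Real.exp t - 1)) ^ T.card ≤ Real.exp (p * (Real.exp t - 1)) ^ T.card :=
          pow_le_pow_left₀ hb0 hb _
      _ = Real.exp (T.card * (p * (Real.exp t - 1))) := by rw [← Real.exp_nat_mul]
      _ ≤ Real.exp (m * (t + t ^ 2)) := by
        apply Real.exp_le_exp.2
        have h3 : (T.card : ℝ) * (p * (Real.exp t - 1)) = (p * T.card) * (Real.exp t - 1) := by
          ring
        rw [h3]
        exact mul_le_mul hm hexp2 (by linarith) hm0
  calc Real.exp (-(t * ((1 + η) * m))) * (1 + p * (Real.exp t - 1)) ^ T.card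
      ≤ Real.exp (-(t * ((1 + η) * m))) * Real.exp (m * (t + t ^ 2)) :=
        mul_le_mul_of_nonneg_left e2 (Real.exp_pos _).le
    _ = Real.exp (-(η ^ 2 * m / 4)) := by
        rw [← Real.exp_add]
        congr 1
        rw [ht]; ring

theorem ch_exp_neg {t : ℝ} (ht : 0 ≤ t) : Real.exp (-t) ≤ 1 - t + t ^ 2 / 2 := by
  have h1 := Real.quadratic_le_exp_of_nonneg ht
  have h2 : 0 < 1 + t + t ^ 2 / 2 := by positivity
  rw [Real.exp_neg, inv_le_comm₀ (Real.exp_pos _) (by nlinarith [sq_nonneg (t - 1)])]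
  refine le_trans ?_ h1
  rw [inv_le_iff_one_le_mul₀ (by nlinarith [sq_nonneg (t - 1)])]
  nlinarith [sq_nonneg (t ^ 2)]

theorem ch_lower [DecidableEq ι] {p : ℝ} (h0 : 0 ≤ p) (h1 : p ≤ 1) (T : Finset ι) (η : ℝ)
    (hη0 : 0 ≤ η) :
    Pr p (fun A => ((A ∩ T).card : ℝ) ≤ (1 - η) * (p * T.card)) ≤
      Real.exp (-(η ^ 2 * (p * T.card) / 2)) := by
  set m : ℝ := p * T.card with hm
  have hm0 : 0 ≤ m := by positivity
  have hM := ch_markov h0 h1 (fun A : Finset ι => ((A ∩ T).card : ℝ) ≤ (1 - η) * m)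
    (fun A => Real.exp (η * ((1 - η) * m)) * Real.exp (-η) ^ (A ∩ T).card)
    (fun A => by positivity) (fun A hA => by
      have hA' : ((A ∩ T).card : ℝ) ≤ (1 - η) * m := hA
      show 1 ≤ Real.exp (η * ((1 - η) * m)) * Real.exp (-η) ^ (A ∩ T).card
      rw [← Real.exp_nat_mul, ← Real.exp_add]
      apply Real.one_le_exp
      nlinarith [mul_le_mul_of_nonneg_left hA' hη0])
  refine hM.trans ?_
  have e1 : ∑ A : Finset ι, wt p A * (Real.exp (η * ((1 - η) * m)) *
      Real.exp (-η) ^ (A ∩ T).card) =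
      Real.exp (η * ((1 - η) * m)) * (1 + p * (Real.exp (-η) - 1)) ^ T.card := by
    rw [← ch_mgf, Finset.mul_sum]
    exact Finset.sum_congr rfl fun A _ => by ring
  rw [e1]
  have hexp0 : 0 < Real.exp (-η) := Real.exp_pos _
  have hexp2 := ch_exp_neg hη0
  have e2 : (1 + p * (Real.exp (-η) - 1)) ^ T.card ≤ Real.exp (-(m * (η - η ^ 2 / 2))) := by
    have hb : 1 + p * (Real.exp (-η) - 1) ≤ Real.exp (p * (Real.exp (-η) - 1)) := by
      have := Real.add_one_le_exp (p * (Real.exp (-η) - 1))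
      linarith
    have hb0 : 0 ≤ 1 + p * (Real.exp (-η) - 1) := by
      nlinarith
    calc (1 + p * (Real.exp (-η) - 1)) ^ T.card ≤ Real.exp (p * (Real.exp (-η) - 1)) ^ T.card :=
          pow_le_pow_left₀ hb0 hb _
      _ = Real.exp (T.card * (p * (Real.exp (-η) - 1))) := by rw [← Real.exp_nat_mul]
      _ ≤ Real.exp (-(m * (η - η ^ 2 / 2))) := by
        apply Real.exp_le_exp.2
        have h3 : (T.card : ℝ) * (p * (Real.exp (-η) - 1)) = m * (Real.exp (-η) - 1) := by
          rw [hm]; ring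
        rw [h3, ← mul_neg]
        exact mul_le_mul_of_nonneg_left (by linarith) hm0
  calc Real.exp (η * ((1 - η) * m)) * (1 + p * (Real.exp (-η) - 1)) ^ T.card
      ≤ Real.exp (η * ((1 - η) * m)) * Real.exp (-(m * (η - η ^ 2 / 2))) :=
        mul_le_mul_of_nonneg_left e2 (Real.exp_pos _).le
    _ = Real.exp (-(η ^ 2 * m / 2)) := by
        rw [← Real.exp_add]
        congr 1
        ring

theorem ch : S_CH := by
  intro ι _ _ p h0 h1
  exact ⟨ch_sub p, ch_disj p, fun T m η hη0 hη1 hm => ch_upper h0 h1 T m η hη0 hη1 hm,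
    fun T η hη0 _ => ch_lower h0 h1 T η hη0⟩

end Pool.Agent.LGC
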