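import Pool.Agent.LGC.Basic

set_option autoImplicit false

/-!
# LGC_DET: greedy algorithm in a uniform graph with few extra edges
-/

namespace Pool.Agent.LGC

open Finset

theorem DET_fc {V : Type} (W : Finset V) (P : V → Prop) (d1 d2 : DecidablePred P) :
    (@Finset.filter V P d1 W).card = (@Finset.filter V P d2 W).card := by
  have := Subsingleton.elim d1 d2
  subst this
  rfl

open Classical in
/-- number of neighbours of `x` in `W` with respect to the extra pairs -/
noncomputable def DET_d {V : Type} (E : Finset (Sym2 V)) (W : Finset V) (x : V) : ℕ :=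
  (W.filter (fun y => x ≠ y ∧ s(x, y) ∈ E)).card

open Classical in
/-- the ordered extra pairs inside `W` -/
noncomputable def DET_E {V : Type} (E : Finset (Sym2 V)) (W : Finset V) : Finset (V × V) :=
  (W ×ˢ W).filter (fun z => z.1 ≠ z.2 ∧ s(z.1, z.2) ∈ E)

/-- number of ordered extra pairs inside `W` -/
noncomputable def DET_F {V : Type} (E : Finset (Sym2 V)) (W : Finset V) : ℕ := (DET_E E W).card

open Classical in
/-- what remains of `W` after the choice of `v` -/
noncomputable def DET_W {V : Type} (G : SimpleGraph V) (E : Finset (Sym2 V)) (W : Finset V)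
    (v : V) : Finset V :=
  W.filter (fun y => v ≠ y ∧ ¬ G.Adj v y ∧ s(v, y) ∉ E)

variable {V : Type}

theorem DET_sum_fst (E : Finset (Sym2 V)) (W : Finset V) (f : V → ℝ) :
    ∑ z ∈ DET_E E W, f z.1 = ∑ x ∈ W, (DET_d E W x : ℝ) * f x := by
  classical
  unfold DET_E DET_d
  rw [Finset.sum_filter, Finset.sum_product]
  refine Finset.sum_congr rfl fun x _ => ?_
  rw [← Finset.sum_filter]
  simp only [Finset.sum_const, nsmul_eq_mul]

theorem DET_sum_snd (E : Finset (Sym2 V)) (W : Finset V) (f : V → ℝ) :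
    ∑ z ∈ DET_E E W, f z.2 = ∑ x ∈ W, (DET_d E W x : ℝ) * f x := by
  classical
  unfold DET_E DET_d
  rw [Finset.sum_filter, Finset.sum_product, Finset.sum_comm]
  refine Finset.sum_congr rfl fun x _ => ?_
  rw [← Finset.sum_filter]
  simp only [Finset.sum_const, nsmul_eq_mul]
  congr 2
  refine congrArg Finset.card (Finset.filter_congr fun y _ => ?_)
  rw [Sym2.eq_swap, ne_comm]

theorem DET_F_eq (E : Finset (Sym2 V)) (W : Finset V) :
    (DET_F E W : ℝ) = ∑ x ∈ W, (DET_d E W x : ℝ) := by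
  have h := DET_sum_fst E W (fun _ => 1)
  simp only [mul_one, Finset.sum_const, nsmul_eq_mul] at h
  exact h

theorem DET_prs_eq (G : SimpleGraph V) (W : Finset V) :
    (prs G W : ℝ) = ∑ x ∈ W, (dg G W x : ℝ) := by
  classical
  unfold prs dg
  rw [Finset.card_filter, Finset.sum_product]
  push_cast
  refine Finset.sum_congr rfl fun x _ => ?_
  rw [Finset.card_filter]
  push_cast
  rfl

theorem DET_E_mono (E : Finset (Sym2 V)) {W S : Finset V} (h : W ⊆ S) : DET_E E W ⊆ DET_E E S := by
  classical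
  intro z hz
  unfold DET_E at hz ⊢
  rw [Finset.mem_filter, Finset.mem_product] at hz ⊢
  exact ⟨⟨h hz.1.1, h hz.1.2⟩, hz.2⟩

theorem DET_F_mono (E : Finset (Sym2 V)) {W S : Finset V} (h : W ⊆ S) : DET_F E W ≤ DET_F E S :=
  Finset.card_le_card (DET_E_mono E h)

theorem DET_d_mono (E : Finset (Sym2 V)) {W S : Finset V} (h : W ⊆ S) (x : V) :
    DET_d E W x ≤ DET_d E S x := by
  classical
  unfold DET_d
  exact Finset.card_le_card (Finset.filter_subset_filter _ h)

theorem DET_F_le (E : Finset (Sym2 V)) (S : Finset V) : DET_F E S ≤ 2 * E.card := by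
  classical
  unfold DET_F
  have h := Finset.card_le_mul_card_image_of_maps_to (s := DET_E E S) (t := E)
    (f := fun z : V × V => s(z.1, z.2)) (fun z hz => by
      unfold DET_E at hz
      rw [Finset.mem_filter] at hz
      exact hz.2.2) 2 (fun e _ => by
      induction e using Sym2.ind with
      | _ a b =>
        refine (Finset.card_le_card (t := {(a, b), (b, a)}) ?_).trans Finset.card_le_two
        intro z hz
        rw [Finset.mem_filter] at hz
        have h2 : s(z.1, z.2) = s(a, b) := hz.2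
        rw [Sym2.eq_iff] at h2
        rw [Finset.mem_insert, Finset.mem_singleton]
        rcases h2 with ⟨h1, h2⟩ | ⟨h1, h2⟩
        · exact Or.inl (Prod.ext h1 h2)
        · exact Or.inr (Prod.ext h1 h2))
  exact h

theorem DET_W_sub (G : SimpleGraph V) (E : Finset (Sym2 V)) (W : Finset V) (v : V) :
    DET_W G E W v ⊆ W := by
  classical
  unfold DET_W
  exact Finset.filter_subset _ _

theorem DET_W_mem (G : SimpleGraph V) (E : Finset (Sym2 V)) (W : Finset V) (v y : V) :
    y ∈ DET_W G E W v ↔ y ∈ W ∧ v ≠ y ∧ ¬ G.Adj v y ∧ s(v, y) ∉ E := by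
  classical
  unfold DET_W
  rw [Finset.mem_filter]

theorem DET_W_card (G : SimpleGraph V) (E : Finset (Sym2 V)) (W : Finset V) (v : V) :
    (W.card : ℝ) - 1 - dg G W v - DET_d E W v ≤ (DET_W G E W v).card := by
  classical
  have h : W ⊆ DET_W G E W v ∪ ({v} ∪ (W.filter (fun y => G.Adj v y) ∪
      W.filter (fun y => v ≠ y ∧ s(v, y) ∈ E))) := by
    intro y hy
    rw [Finset.mem_union, Finset.mem_union, Finset.mem_union, DET_W_mem, Finset.mem_singleton,
      Finset.mem_filter, Finset.mem_filter]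
    by_cases h1 : y = v
    · exact Or.inr (Or.inl h1)
    · by_cases h2 : G.Adj v y
      · exact Or.inr (Or.inr (Or.inl ⟨hy, h2⟩))
      · by_cases h3 : s(v, y) ∈ E
        · exact Or.inr (Or.inr (Or.inr ⟨hy, fun h => h1 h.symm, h3⟩))
        · exact Or.inl ⟨hy, fun h => h1 h.symm, h2, h3⟩
  have h2 : W.card ≤ (DET_W G E W v).card + (1 + (dg G W v + DET_d E W v)) := by
    refine (Finset.card_le_card h).trans ((Finset.card_union_le _ _).trans ?_)
    refine Nat.add_le_add_left ((Finset.card_union_le _ _).trans ?_) _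
    rw [Finset.card_singleton]
    refine Nat.add_le_add_left ((Finset.card_union_le _ _).trans ?_) _
    exact le_rfl
  have h3 : (W.card : ℝ) ≤ (DET_W G E W v).card + (1 + (dg G W v + DET_d E W v)) := by
    exact_mod_cast h2
  linarith

/-- number of vertices not adjacent to `x` and `y` -/
theorem DET_incl (G : SimpleGraph V) (W : Finset V) (x y : V) [DecidableRel G.Adj] :
    ∑ v ∈ W, (if ¬ G.Adj v x ∧ ¬ G.Adj v y then (1 : ℝ) else 0) =
      (W.card : ℝ) - dg G W x - dg G W y + cdg G W x y := by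
  classical
  have h1 : (dg G W x : ℝ) = ∑ v ∈ W, (if G.Adj v x then (1 : ℝ) else 0) := by
    unfold dg
    rw [Finset.card_filter]
    push_cast
    refine Finset.sum_congr rfl fun v _ => ?_
    simp only [G.adj_comm x v]
  have h2 : (dg G W y : ℝ) = ∑ v ∈ W, (if G.Adj v y then (1 : ℝ) else 0) := by
    unfold dg
    rw [Finset.card_filter]
    push_cast
    refine Finset.sum_congr rfl fun v _ => ?_
    simp only [G.adj_comm y v]
  have h3 : (cdg G W x y : ℝ) = ∑ v ∈ W, (if G.Adj v x ∧ G.Adj v y then (1 : ℝ) else 0) := by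
    unfold cdg
    rw [Finset.card_filter]
    push_cast
    refine Finset.sum_congr rfl fun v _ => ?_
    simp only [G.adj_comm x v, G.adj_comm y v]
  have h4 : (W.card : ℝ) = ∑ _v ∈ W, (1 : ℝ) := by simp
  rw [h1, h2, h3, h4, ← Finset.sum_sub_distrib, ← Finset.sum_sub_distrib,
    ← Finset.sum_add_distrib]
  refine Finset.sum_congr rfl fun v _ => ?_
  by_cases ha : G.Adj v x <;> by_cases hb : G.Adj v y <;> simp [ha, hb]

/-- (2) of the sketch -/
theorem DET_sumF (G : SimpleGraph V) (E : Finset (Sym2 V)) (S W : Finset V) (hWS : W ⊆ S)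
    (p η w₀ x₀ κ D : ℝ) (hp : 0 < p) (hη : 0 ≤ η) (hη1 : η ≤ 1 / 4)
    (hκ : κ ≤ η * p * w₀) (hw : w₀ ≤ W.card) (hD : ∀ x ∈ W, (DET_d E W x : ℝ) ≤ D) (hD0 : 0 ≤ D)
    (hx0 : 0 ≤ x₀) (u2 : U2 G S p η w₀ x₀) (u3 : U3 G S κ) :
    ∑ v ∈ W, (DET_F E (DET_W G E W v) : ℝ) ≤
      W.card * ((DET_F E W : ℝ) * (1 - (2 - 3 * η) * p) + 2 * p * x₀ * D) := by
  classical
  have h1 : ∀ v ∈ W, (DET_F E (DET_W G E W v) : ℝ) ≤
      ∑ z ∈ DET_E E W, (if ¬ G.Adj v z.1 ∧ ¬ G.Adj v z.2 then (1 : ℝ) else 0) := by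
    intro v _
    rw [← Finset.sum_filter, Finset.sum_const, nsmul_eq_mul, mul_one]
    unfold DET_F
    rw [Nat.cast_le]
    refine Finset.card_le_card fun z hz => ?_
    have h2 := DET_E_mono E (DET_W_sub G E W v) hz
    rw [Finset.mem_filter]
    refine ⟨h2, ?_⟩
    unfold DET_E at hz
    rw [Finset.mem_filter, Finset.mem_product, DET_W_mem, DET_W_mem] at hz
    exact ⟨hz.1.1.2.2.1, hz.1.2.2.2.1⟩
  have hW0 : (0 : ℝ) ≤ W.card := Nat.cast_nonneg _
  have hF0 : (0 : ℝ) ≤ DET_F E W := Nat.cast_nonneg _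
  calc ∑ v ∈ W, (DET_F E (DET_W G E W v) : ℝ)
      ≤ ∑ v ∈ W, ∑ z ∈ DET_E E W, (if ¬ G.Adj v z.1 ∧ ¬ G.Adj v z.2 then (1 : ℝ) else 0) :=
        Finset.sum_le_sum h1
    _ = ∑ z ∈ DET_E E W, ∑ v ∈ W, (if ¬ G.Adj v z.1 ∧ ¬ G.Adj v z.2 then (1 : ℝ) else 0) :=
        Finset.sum_comm
    _ ≤ ∑ z ∈ DET_E E W, ((W.card : ℝ) + κ - dg G W z.1 - dg G W z.2) := by
        refine Finset.sum_le_sum fun z hz => ?_
        rw [DET_incl]
        have hz' := hz
        unfold DET_E at hz'
        rw [Finset.mem_filter, Finset.mem_product] at hz'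
        have h3 := u3 z.1 (hWS hz'.1.1) z.2 (hWS hz'.1.2) hz'.2.1
        have h4 : (cdg G W z.1 z.2 : ℝ) ≤ cdg G S z.1 z.2 := by
          rw [Nat.cast_le]
          unfold cdg
          exact Finset.card_le_card (Finset.filter_subset_filter _ hWS)
        linarith
    _ = (DET_F E W : ℝ) * (W.card + κ) - 2 * ∑ x ∈ W, (DET_d E W x : ℝ) * dg G W x := by
        rw [Finset.sum_sub_distrib, Finset.sum_sub_distrib, Finset.sum_const, nsmul_eq_mul,
          DET_sum_fst E W (fun x => (dg G W x : ℝ)), DET_sum_snd E W (fun x => (dg G W x : ℝ))]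
        unfold DET_F
        ring
    _ ≤ (DET_F E W : ℝ) * (W.card + κ) - 2 * ((1 - η) * p * W.card *
          ((DET_F E W : ℝ) - x₀ * D)) := by
        have key : (1 - η) * p * W.card * ((DET_F E W : ℝ) - x₀ * D) ≤
            ∑ x ∈ W, (DET_d E W x : ℝ) * dg G W x := by
          set L := W.filter (fun x => (dg G W x : ℝ) < (1 - η) * p * W.card) with hL
          have hLc : (L.card : ℝ) ≤ x₀ := by
            have := u2 W hWS hw
            exact (le_of_eq (congrArg (Nat.cast : ℕ → ℝ) (DET_fc W _ _ _))).trans this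
          have h5 : ∑ x ∈ L, (DET_d E W x : ℝ) ≤ x₀ * D := by
            calc ∑ x ∈ L, (DET_d E W x : ℝ) ≤ ∑ x ∈ L, D := by
                  refine Finset.sum_le_sum fun x hx => hD x ?_
                  rw [hL, Finset.mem_filter] at hx
                  exact hx.1
              _ = L.card * D := by rw [Finset.sum_const, nsmul_eq_mul]
              _ ≤ x₀ * D := mul_le_mul_of_nonneg_right hLc hD0
          have h6 : (DET_F E W : ℝ) = ∑ x ∈ L, (DET_d E W x : ℝ) +
              ∑ x ∈ W \ L, (DET_d E W x : ℝ) := by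
            rw [DET_F_eq, add_comm, Finset.sum_sdiff]
            rw [hL]
            exact Finset.filter_subset _ _
          have hc0 : 0 ≤ (1 - η) * p * W.card := by
            have : 0 ≤ 1 - η := by linarith
            positivity
          calc (1 - η) * p * W.card * ((DET_F E W : ℝ) - x₀ * D)
              ≤ (1 - η) * p * W.card * ∑ x ∈ W \ L, (DET_d E W x : ℝ) := by
                refine mul_le_mul_of_nonneg_left ?_ hc0
                linarith
            _ = ∑ x ∈ W \ L, (DET_d E W x : ℝ) * ((1 - η) * p * W.card) := by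
                rw [Finset.mul_sum]
                exact Finset.sum_congr rfl fun x _ => mul_comm _ _
            _ ≤ ∑ x ∈ W \ L, (DET_d E W x : ℝ) * dg G W x := by
                refine Finset.sum_le_sum fun x hx => ?_
                refine mul_le_mul_of_nonneg_left ?_ (Nat.cast_nonneg _)
                rw [Finset.mem_sdiff, hL, Finset.mem_filter] at hx
                by_contra hlt
                exact hx.2 ⟨hx.1, not_le.1 hlt⟩
            _ ≤ ∑ x ∈ W, (DET_d E W x : ℝ) * dg G W x := by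
                refine Finset.sum_le_sum_of_subset_of_nonneg Finset.sdiff_subset ?_
                intro x _ _
                positivity
        linarith
    _ ≤ _ := by
        have h7 : (DET_F E W : ℝ) * κ ≤ DET_F E W * (η * p * W.card) := by
          refine mul_le_mul_of_nonneg_left (hκ.trans ?_) hF0
          refine mul_le_mul_of_nonneg_left hw (by positivity)
        have h8 : 0 ≤ η * (p * (W.card * (x₀ * D))) := by positivity
        nlinarith [h7, h8]

/-- one step of the greedy algorithm -/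
theorem DET_step (G : SimpleGraph V) (E : Finset (Sym2 V)) (S W : Finset V) (hWS : W ⊆ S)
    (p η w₀ x₀ κ D μ μ' : ℝ) (hp : 0 < p) (hη : 0 ≤ η) (hη1 : η ≤ 1 / 4)
    (hκ : κ ≤ η * p * w₀) (hw1 : 1 ≤ w₀) (hw : w₀ ≤ W.card)
    (hD : ∀ x ∈ W, (DET_d E W x : ℝ) ≤ D) (hD0 : 0 ≤ D)
    (hx0 : 0 ≤ x₀) (hμ' : 0 ≤ μ')
    (hμ : μ' * (1 - (2 - 3 * η) * p) + 1 / W.card ≤ μ * (1 - (1 + η) * p))
    (hu : Unif G S p η w₀ x₀ κ) :
    ∃ v ∈ W, (1 - (1 + η) * p) * (W.card - μ * DET_F E W) - (1 + 2 * μ' * p * x₀ * D) ≤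
      ((DET_W G E W v).card : ℝ) - μ' * DET_F E (DET_W G E W v) := by
  classical
  have hwpos : (0 : ℝ) < W.card := by linarith
  have hF0 : (0 : ℝ) ≤ DET_F E W := Nat.cast_nonneg _
  have h1 : ∑ v ∈ W, ((W.card : ℝ) - 1 - dg G W v - DET_d E W v) ≤
      ∑ v ∈ W, ((DET_W G E W v).card : ℝ) := Finset.sum_le_sum fun v _ => DET_W_card G E W v
  rw [Finset.sum_sub_distrib, Finset.sum_sub_distrib, Finset.sum_const, nsmul_eq_mul,
    ← DET_prs_eq, ← DET_F_eq] at h1
  have h2 := hu.u1 W hWS hw
  have h3 := DET_sumF G E S W hWS p η w₀ x₀ κ D hp hη hη1 hκ hw hD hD0 hx0 hu.u2 hu.u3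
  have h4 : ∑ v ∈ W, ((1 - (1 + η) * p) * (W.card - μ * DET_F E W) -
      (1 + 2 * μ' * p * x₀ * D)) ≤
      ∑ v ∈ W, (((DET_W G E W v).card : ℝ) - μ' * DET_F E (DET_W G E W v)) := by
    rw [Finset.sum_const, nsmul_eq_mul, Finset.sum_sub_distrib, ← Finset.mul_sum]
    have h5 : μ' * ∑ v ∈ W, (DET_F E (DET_W G E W v) : ℝ) ≤
        μ' * (W.card * ((DET_F E W : ℝ) * (1 - (2 - 3 * η) * p) + 2 * p * x₀ * D)) :=
      mul_le_mul_of_nonneg_left h3 hμ'
    have h6 : (W.card : ℝ) * (DET_F E W * (μ' * (1 - (2 - 3 * η) * p) + 1 / W.card)) ≤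
        W.card * (DET_F E W * (μ * (1 - (1 + η) * p))) :=
      mul_le_mul_of_nonneg_left (mul_le_mul_of_nonneg_left hμ hF0) hwpos.le
    have h7 : (W.card : ℝ) * (DET_F E W * (μ' * (1 - (2 - 3 * η) * p) + 1 / W.card)) =
        W.card * (DET_F E W * (μ' * (1 - (2 - 3 * η) * p))) + DET_F E W := by
      field_simp
    rw [h7] at h6
    nlinarith [h1, h2, h5, h6]
  obtain ⟨v, hv, hle⟩ := Finset.exists_le_of_sum_le (Finset.card_pos.1 (by exact_mod_cast hwpos)) h4
  exact ⟨v, hv, hle⟩

theorem det : S_DET := by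
  classical
  intro V G S E k h p η w₀ x₀ κ D hE hp hp4 hη hη4 hηk hκ hw1 hw0 hkh hD hhD hx0 hfin hu
  set a : ℝ := (1 + η) * p with ha
  set b : ℝ := (2 - 3 * η) * p with hb
  set N : ℝ := (S.card : ℝ) with hN
  have hηp : 0 ≤ η * p := by positivity
  have hηp4 : η * p ≤ 1 / 16 := by nlinarith
  have ha0 : 0 < a := by rw [ha]; positivity
  have ha1 : a ≤ 5 / 16 := by rw [ha]; nlinarith
  have hb0 : 0 < b := by rw [hb]; apply mul_pos _ hp; linarith
  have hb1 : b ≤ 1 / 2 := by rw [hb]; nlinarith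
  have h1a : 0 < 1 - a := by linarith
  have h1b : 0 < 1 - b := by linarith
  have hpow : ∀ j : ℕ, 0 < (1 - a) ^ j := fun j => pow_pos h1a j
  have hNpos : 0 < N := by
    by_contra hneg
    have hneg' : N ≤ 0 := not_lt.1 hneg
    have : N / 4 * (1 - a) ^ k ≤ 0 :=
      mul_nonpos_of_nonpos_of_nonneg (by linarith) (hpow k).le
    linarith
  set R : ℝ := (1 - a) / (1 - b) with hR
  have hRpos : 0 < R := div_pos h1a h1b
  have hRle : R ≤ Real.exp (2 * p) := by
    have h1 : R ≤ 1 + 2 * p := by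
      rw [hR, div_le_iff₀ h1b]
      have : b - a ≤ p := by rw [hb, ha]; nlinarith
      nlinarith
    have h2 := Real.add_one_le_exp (2 * p)
    linarith
  have hRa : 1 - 5 * (η * p) ≤ R * (1 - a) := by
    rw [hR, div_mul_eq_mul_div, le_div_iff₀ h1b]
    have : 5 * (η * p) = 2 * a - b := by rw [ha, hb]; ring
    rw [this]
    nlinarith [sq_nonneg (a - b)]
  set δ : ℝ := 16 / N with hδ
  have hδpos : 0 < δ := by rw [hδ]; positivity
  set τ : ℝ := 1 + 32 * (k / N) * Real.exp (2 * p * k) * p * x₀ * D with hτ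
  have hτ0 : 0 ≤ τ := by rw [hτ]; positivity
  set μ : ℕ → ℝ := fun j => R ^ j * ((k : ℝ) - j) * δ with hμ
  have hμ0 : ∀ j, j ≤ k → 0 ≤ μ j := by
    intro j hj
    have : (j : ℝ) ≤ k := by exact_mod_cast hj
    have h1 : 0 ≤ (k : ℝ) - j := by linarith
    simp only [hμ]
    positivity
  have hμle : ∀ j, j ≤ k → μ j ≤ 16 * (k / N) * Real.exp (2 * p * k) := by
    intro j hj
    have hjk : (j : ℝ) ≤ k := by exact_mod_cast hj
    have h1 : R ^ j ≤ Real.exp (2 * p * k) := by
      calc R ^ j ≤ Real.exp (2 * p) ^ j := pow_le_pow_left₀ hRpos.le hRle j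
        _ = Real.exp (2 * p * j) := by rw [← Real.exp_nat_mul]; ring_nf
        _ ≤ Real.exp (2 * p * k) := by
            apply Real.exp_le_exp.2
            exact mul_le_mul_of_nonneg_left hjk (by positivity)
    have h2 : (k : ℝ) - j ≤ k := by
      have : (0 : ℝ) ≤ j := Nat.cast_nonneg _
      linarith
    have h3 : 0 ≤ (k : ℝ) - j := by linarith
    calc μ j = R ^ j * ((k : ℝ) - j) * δ := rfl
      _ ≤ Real.exp (2 * p * k) * k * δ := by
          refine mul_le_mul_of_nonneg_right ?_ hδpos.le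
          exact mul_le_mul h1 h2 h3 (Real.exp_pos _).le
      _ = 16 * (k / N) * Real.exp (2 * p * k) := by rw [hδ]; ring
  -- the starting set
  set W₀ : Finset V := S.filter (fun x => (DET_d E S x : ℝ) ≤ D) with hW₀
  have hW₀S : W₀ ⊆ S := Finset.filter_subset _ _
  have hFS : (DET_F E S : ℝ) ≤ 2 * h := by
    have h1 := DET_F_le E S
    have h2 : DET_F E S ≤ 2 * h := h1.trans (Nat.mul_le_mul_left 2 hE)
    exact_mod_cast h2
  have hW₀c : 7 * N / 8 ≤ W₀.card := by
    have h1 : ((S \ W₀).card : ℝ) * D ≤ 2 * h := by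
      calc ((S \ W₀).card : ℝ) * D = ∑ x ∈ S \ W₀, D := by rw [Finset.sum_const, nsmul_eq_mul]
        _ ≤ ∑ x ∈ S \ W₀, (DET_d E S x : ℝ) := by
            refine Finset.sum_le_sum fun x hx => ?_
            rw [Finset.mem_sdiff, hW₀, Finset.mem_filter] at hx
            by_contra hlt
            exact hx.2 ⟨hx.1, (not_le.1 hlt).le⟩
        _ ≤ ∑ x ∈ S, (DET_d E S x : ℝ) := by
            refine Finset.sum_le_sum_of_subset_of_nonneg Finset.sdiff_subset ?_
            intro x _ _
            positivity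
        _ = DET_F E S := (DET_F_eq E S).symm
        _ ≤ 2 * h := hFS
    have h2 : ((S \ W₀).card : ℝ) ≤ N / 8 := by
      have h3 : ((S \ W₀).card : ℝ) * D ≤ N / 8 * D := by linarith
      exact le_of_mul_le_mul_right h3 hD
    have h4 : ((S \ W₀).card : ℝ) = N - W₀.card := by
      rw [Finset.card_sdiff_of_subset hW₀S, Nat.cast_sub (Finset.card_le_card hW₀S)]
    linarith
  -- the induction
  have main : ∀ j, j ≤ k → ∃ I W : Finset V, I ⊆ S ∧ I.card = j ∧ Ind G E I ∧ W ⊆ W₀ ∧
      (∀ x ∈ I, ∀ y ∈ W, x ≠ y ∧ ¬ G.Adj x y ∧ s(x, y) ∉ E) ∧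
      (1 - a) ^ j * (3 * N / 4) - j * τ ≤ (W.card : ℝ) - μ j * DET_F E W := by
    intro j
    induction j with
    | zero =>
      intro _
      refine ⟨∅, W₀, Finset.empty_subset _, Finset.card_empty, ?_, Finset.Subset.refl _, ?_, ?_⟩
      · intro x hx
        exact absurd hx (Finset.notMem_empty x)
      · intro x hx
        exact absurd hx (Finset.notMem_empty x)
      · have h1 : (DET_F E W₀ : ℝ) ≤ 2 * h :=
          le_trans (by exact_mod_cast DET_F_mono E hW₀S) hFS
        have h2 : μ 0 * DET_F E W₀ ≤ N / 8 := by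
          calc μ 0 * DET_F E W₀ ≤ μ 0 * (2 * h) :=
                mul_le_mul_of_nonneg_left h1 (hμ0 0 (Nat.zero_le _))
            _ = 32 * (k * h) / N := by
                simp only [hμ, hδ, pow_zero, Nat.cast_zero, sub_zero, one_mul]
                ring
            _ ≤ N / 8 := by
                rw [div_le_iff₀ hNpos]
                nlinarith
        simp only [pow_zero, one_mul, Nat.cast_zero, zero_mul, sub_zero]
        linarith
    | succ j ih =>
      intro hj
      have hjk : j ≤ k := Nat.le_of_succ_le hj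
      obtain ⟨I, W, hIS, hIc, hInd, hWW₀, hIW, hΛ⟩ := ih hjk
      have hWS : W ⊆ S := hWW₀.trans hW₀S
      have hjR : (j : ℝ) ≤ k := by exact_mod_cast hjk
      have hF0 : (0 : ℝ) ≤ DET_F E W := Nat.cast_nonneg _
      have hpowle : (1 - a) ^ k ≤ (1 - a) ^ j :=
        pow_le_pow_of_le_one h1a.le (by linarith) hjk
      have hkτ : (j : ℝ) * τ ≤ N / 2 * (1 - a) ^ j := by
        calc (j : ℝ) * τ ≤ k * τ := mul_le_mul_of_nonneg_right hjR hτ0
          _ ≤ N / 2 * (1 - a) ^ k := hfin
          _ ≤ N / 2 * (1 - a) ^ j := mul_le_mul_of_nonneg_left hpowle (by linarith)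
      have hwj : N / 4 * (1 - a) ^ j ≤ W.card := by
        have : 0 ≤ μ j * DET_F E W := mul_nonneg (hμ0 j hjk) hF0
        linarith
      have hwj0 : w₀ ≤ W.card := by
        refine le_trans (hw0.trans ?_) hwj
        exact mul_le_mul_of_nonneg_left hpowle (by linarith)
      have hwpos : (0 : ℝ) < W.card := by linarith
      have hDW : ∀ x ∈ W, (DET_d E W x : ℝ) ≤ D := by
        intro x hx
        have h1 := hWW₀ hx
        rw [hW₀, Finset.mem_filter] at h1
        exact le_trans (by exact_mod_cast DET_d_mono E hWS x) h1.2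
      have hRj : 1 / 2 ≤ (R * (1 - a)) ^ j := by
        have h5 : (0 : ℝ) ≤ 1 - 5 * (η * p) := by linarith
        have h1 : (1 - 5 * (η * p)) ^ j ≤ (R * (1 - a)) ^ j := pow_le_pow_left₀ h5 hRa j
        have h2 : 1 + (j : ℝ) * (-(5 * (η * p))) ≤ (1 + -(5 * (η * p))) ^ j :=
          one_add_mul_le_pow (by linarith) j
        have h3 : (j : ℝ) * (5 * (η * p)) ≤ 1 / 2 := by
          have : (j : ℝ) * (5 * (η * p)) ≤ k * (5 * (η * p)) :=
            mul_le_mul_of_nonneg_right hjR (by linarith)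
          nlinarith
        rw [← sub_eq_add_neg] at h2
        linarith
      have hμstep : μ (j + 1) * (1 - b) + 1 / W.card ≤ μ j * (1 - a) := by
        have h1 : μ (j + 1) * (1 - b) = μ j * (1 - a) - R ^ j * (1 - a) * δ := by
          simp only [hμ]
          have : R * (1 - b) = 1 - a := by rw [hR, div_mul_cancel₀ _ h1b.ne']
          rw [pow_succ]
          push_cast
          calc R ^ j * R * ((k : ℝ) - (j + 1)) * δ * (1 - b)
              = R ^ j * (R * (1 - b)) * ((k : ℝ) - (j + 1)) * δ := by ring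
            _ = R ^ j * (1 - a) * ((k : ℝ) - (j + 1)) * δ := by rw [this]
            _ = _ := by ring
        have h2 : 1 / (W.card : ℝ) ≤ R ^ j * (1 - a) * δ := by
          rw [div_le_iff₀ hwpos]
          have h3 : R ^ j * (1 - a) * δ * (N / 4 * (1 - a) ^ j) ≤
              R ^ j * (1 - a) * δ * W.card :=
            mul_le_mul_of_nonneg_left hwj (by positivity)
          have h4 : R ^ j * (1 - a) * δ * (N / 4 * (1 - a) ^ j) =
              4 * (1 - a) * (R * (1 - a)) ^ j := by
            rw [hδ, mul_pow]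
            field_simp
            ring
          rw [h4] at h3
          have h5 : (1 : ℝ) ≤ 4 * (1 - a) * (R * (1 - a)) ^ j := by nlinarith
          linarith
        linarith
      obtain ⟨v, hv, hle⟩ := DET_step G E S W hWS p η w₀ x₀ κ D (μ j) (μ (j + 1)) hp hη hη4 hκ
        hw1 hwj0 hDW hD.le hx0 (hμ0 (j + 1) hj) hμstep hu
      refine ⟨insert v I, DET_W G E W v, ?_, ?_, ?_, (DET_W_sub G E W v).trans hWW₀, ?_, ?_⟩
      · exact Finset.insert_subset (hWS hv) hIS
      · rw [Finset.card_insert_of_notMem, hIc]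
        intro hvI
        exact (hIW v hvI v hv).1 rfl
      · intro x hx y hy hxy
        rw [Finset.mem_insert] at hx hy
        rcases hx with rfl | hx
        · rcases hy with rfl | hy
          · exact absurd rfl hxy
          · have h1 := hIW y hy x hv
            refine ⟨fun hadj => h1.2.1 hadj.symm, fun hmem => h1.2.2 ?_⟩
            rw [Sym2.eq_swap]
            exact hmem
        · rcases hy with rfl | hy
          · exact (hIW x hx y hv).2
          · exact hInd x hx y hy hxy
      · intro x hx y hy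
        rw [DET_W_mem] at hy
        rw [Finset.mem_insert] at hx
        rcases hx with rfl | hx
        · exact ⟨hy.2.1, hy.2.2.1, hy.2.2.2⟩
        · exact hIW x hx y hy.1
      · have h1 : 1 + 2 * μ (j + 1) * p * x₀ * D ≤ τ := by
          have h2 := hμle (j + 1) hj
          have h3 : μ (j + 1) * (p * x₀ * D) ≤
              16 * (k / N) * Real.exp (2 * p * k) * (p * x₀ * D) :=
            mul_le_mul_of_nonneg_right h2 (by positivity)
          rw [hτ]
          nlinarith
        have h4 : (1 - a) * ((1 - a) ^ j * (3 * N / 4) - j * τ) ≤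
            (1 - a) * ((W.card : ℝ) - μ j * DET_F E W) :=
          mul_le_mul_of_nonneg_left hΛ h1a.le
        have h5 : (1 - a) * ((j : ℝ) * τ) ≤ j * τ := by
          have : 0 ≤ (j : ℝ) * τ := by positivity
          nlinarith
        rw [pow_succ]
        push_cast
        nlinarith [hle, h1, h4, h5]
  obtain ⟨I, W, hIS, hIc, hInd, -⟩ := main k le_rfl
  exact ⟨I, hIS, hIc, hInd⟩

end Pool.Agent.LGC
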