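import Pool.Agent.LGC.Basic

set_option autoImplicit false

/-!
# LGC_LOW: iteration of the step `LOW1`
-/

namespace Pool.Agent.LGC

open Finset Filter

/-- the numerical condition of `LOW1` for `R = (3 s / t)^2` -/
theorem low_num (s t : ℕ) (ht : 1 ≤ t) (hts : t ≤ s) :
    (s : ℝ) ^ t < (t.factorial : ℝ) * (((3 * s / t : ℝ)) ^ 2) ^ (t - t / 2) := by
  have ht0 : (0 : ℝ) < t := by exact_mod_cast ht
  have hs0 : (0 : ℝ) < s := by exact_mod_cast (lt_of_lt_of_le ht hts)
  have h1 : (1 : ℝ) ≤ 3 * s / t := by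
    rw [le_div_iff₀ ht0]
    have : (t : ℝ) ≤ s := by exact_mod_cast hts
    linarith
  have hpow : (3 * s / t : ℝ) ^ t ≤ ((3 * s / t : ℝ) ^ 2) ^ (t - t / 2) := by
    rw [← pow_mul]
    apply pow_le_pow_right₀ h1
    omega
  have hexp : (t : ℝ) ^ t / (t.factorial : ℝ) ≤ Real.exp t := by
    have := Real.pow_div_factorial_le_exp (x := (t : ℝ)) ht0.le t
    exact this
  have hfac : (0 : ℝ) < (t.factorial : ℝ) := by exact_mod_cast Nat.factorial_pos t
  have hlt : Real.exp t < (3 : ℝ) ^ t := by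
    have h3 : Real.exp 1 < 3 := by
      have := Real.exp_one_lt_d9
      linarith
    have : Real.exp t = Real.exp 1 ^ t := by
      rw [← Real.exp_nat_mul, mul_one]
    rw [this]
    exact pow_lt_pow_left₀ h3 (Real.exp_pos _).le (by omega)
  have h4 : (t : ℝ) ^ t < (t.factorial : ℝ) * 3 ^ t := by
    rw [div_le_iff₀ hfac] at hexp
    calc (t : ℝ) ^ t ≤ Real.exp t * (t.factorial : ℝ) := hexp
      _ < 3 ^ t * (t.factorial : ℝ) := by
        exact mul_lt_mul_of_pos_right hlt hfac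
      _ = (t.factorial : ℝ) * 3 ^ t := mul_comm _ _
  have h5 : (s : ℝ) ^ t < (t.factorial : ℝ) * (3 * s / t : ℝ) ^ t := by
    rw [div_pow, mul_pow]
    have htt : (0 : ℝ) < (t : ℝ) ^ t := pow_pos ht0 _
    have hst : (0 : ℝ) < (s : ℝ) ^ t := pow_pos hs0 _
    rw [← mul_div_assoc, lt_div_iff₀ htt]
    nlinarith
  exact h5.trans_le (mul_le_mul_of_nonneg_left hpow hfac.le)

open Classical in
/-- iteration -/
theorem low_iter (h : S_LOW1) (V : Type) (G : SimpleGraph V) (s t : ℕ) (R : ℝ) (ht : 1 ≤ t)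
    (hts : t ≤ s) (hR : 1 ≤ R) (hnum : (s : ℝ) ^ t < (t.factorial : ℝ) * R ^ (t - t / 2))
    (hG : ∀ S : Finset V, S.card = s → ∃ T ⊆ S, T.card = t ∧ G.IsClique (T : Set V)) :
    ∀ (m : ℕ) (W : Finset V), (s : ℝ) * R ^ m ≤ W.card →
      ∃ Q ⊆ W, (m + 1) * (t / 2) ≤ Q.card ∧ G.IsClique (Q : Set V) := by
  have hR0 : 0 < R := by linarith
  intro m
  induction m with
  | zero =>
    intro W hW
    have hW' : s ≤ W.card := by
      rw [pow_zero, mul_one] at hW
      exact_mod_cast hW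
    obtain ⟨Q, hQ, hc, hcl, -⟩ := h V G s t W R ht hts hW' (fun S _ hS => hG S hS) hR0 hnum
    exact ⟨Q, hQ, by simpa using hc, hcl⟩
  | succ m ih =>
    intro W hW
    have hs0 : (0 : ℝ) ≤ s := Nat.cast_nonneg s
    have hpow : (1 : ℝ) ≤ R ^ (m + 1) := one_le_pow₀ hR
    have hW' : s ≤ W.card := by
      have : (s : ℝ) ≤ W.card := le_trans (by nlinarith) hW
      exact_mod_cast this
    obtain ⟨Q, hQ, hc, hcl, hcn⟩ := h V G s t W R ht hts hW' (fun S _ hS => hG S hS) hR0 hnum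
    have hW2 : (s : ℝ) * R ^ m ≤ ((W.filter (fun v => ∀ x ∈ Q, G.Adj x v)).card : ℝ) := by
      refine le_trans ?_ hcn
      rw [le_div_iff₀ hR0]
      calc (s : ℝ) * R ^ m * R = (s : ℝ) * R ^ (m + 1) := by ring
        _ ≤ W.card := hW
    obtain ⟨Q', hQ', hc', hcl'⟩ := ih _ hW2
    have hadj : ∀ x ∈ Q, ∀ v ∈ Q', G.Adj x v := by
      intro x hx v hv
      exact (Finset.mem_filter.1 (hQ' hv)).2 x hx
    have hdisj : Disjoint Q Q' := by
      rw [Finset.disjoint_left]
      intro x hx hx'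
      exact (G.irrefl (hadj x hx x hx'))
    refine ⟨Q ∪ Q', ?_, ?_, ?_⟩
    · intro x hx
      rcases Finset.mem_union.1 hx with hx | hx
      · exact hQ hx
      · exact (Finset.mem_filter.1 (hQ' hx)).1
    · rw [Finset.card_union_of_disjoint hdisj]
      have : (m + 1 + 1) * (t / 2) = t / 2 + (m + 1) * (t / 2) := by ring
      omega
    · intro x hx y hy hxy
      rw [Finset.mem_coe, Finset.mem_union] at hx hy
      rcases hx with hx | hx <;> rcases hy with hy | hy
      · exact hcl hx hy hxy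
      · exact hadj x hx y hy
      · exact (hadj y hy x hx).symm
      · exact hcl' hx hy hxy

/-- the numerical conditions hold for large `L` -/
theorem low_ev (a b : ℝ) (ha : 0 < a) (hb : 0 < b) :
    ∀ᶠ L : ℝ in atTop, 2 < b * L ∧ b * L ≤ a * L ^ 2 ∧ a * L ^ 2 + 1 ≤ Real.exp (L / 2) ∧
      3 * (a * L ^ 2 + 1) ≤ L ^ 3 ∧ 1 < L := by
  have h1 : ∀ᶠ L : ℝ in atTop, 2 < b * L := by
    filter_upwards [eventually_gt_atTop (2 / b)] with L hL
    rw [div_lt_iff₀ hb] at hL
    linarith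
  have h2 : ∀ᶠ L : ℝ in atTop, b * L ≤ a * L ^ 2 := by
    filter_upwards [eventually_ge_atTop (b / a), eventually_gt_atTop (0 : ℝ)] with L hL hL0
    rw [div_le_iff₀ ha] at hL
    nlinarith
  have h3 : ∀ᶠ L : ℝ in atTop, a * L ^ 2 + 1 ≤ Real.exp (L / 2) := by
    filter_upwards [eventually_ge_atTop (384 * a), eventually_ge_atTop (2 : ℝ)] with L hL hL2
    have h := Real.pow_div_factorial_le_exp (x := L / 2) (by linarith) 3
    have h' := Real.pow_div_factorial_le_exp (x := L / 2) (by linarith) 1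
    have h6 : ((3 : ℕ).factorial : ℝ) = 6 := by norm_num [Nat.factorial]
    have h1 : ((1 : ℕ).factorial : ℝ) = 1 := by norm_num [Nat.factorial]
    rw [h6] at h
    rw [h1] at h'
    have hL0 : 0 ≤ L ^ 2 := by positivity
    have hq := Real.quadratic_le_exp_of_nonneg (x := L / 2) (by linarith)
    -- a L^2 ≤ L^3 / 384
    have e1 : a * L ^ 2 ≤ L ^ 3 / 384 := by
      nlinarith
    have e2 : L ^ 3 / 48 ≤ Real.exp (L / 2) := by
      calc L ^ 3 / 48 = (L / 2) ^ 3 / 6 := by ring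
        _ ≤ _ := h
    have e3 : L ^ 3 / 384 ≤ Real.exp (L / 2) / 8 := by linarith
    nlinarith
  have h4 : ∀ᶠ L : ℝ in atTop, 3 * (a * L ^ 2 + 1) ≤ L ^ 3 := by
    filter_upwards [eventually_ge_atTop (3 * a + 3), eventually_ge_atTop (1 : ℝ)] with L hL hL2
    have hL0 : 1 ≤ L ^ 2 := by nlinarith
    nlinarith
  filter_upwards [h1, h2, h3, h4, eventually_gt_atTop (1 : ℝ)] with L a1 a2 a3 a4 a5
  exact ⟨a1, a2, a3, a4, a5⟩

theorem low (h : S_LOW1) : S_LOW := by
  intro a b ha hb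
  refine ⟨b / 48, by positivity, ?_⟩
  have hlog : Tendsto (fun n : ℕ => Real.log (n : ℝ)) atTop atTop :=
    Real.tendsto_log_atTop.comp tendsto_natCast_atTop_atTop
  have hev := (hlog.eventually (low_ev a b ha hb)).and (eventually_ge_atTop 1)
  obtain ⟨n₀, hn₀⟩ := eventually_atTop.1 hev
  refine ⟨n₀, fun n hn G hG => ?_⟩
  obtain ⟨⟨c1, c2, c3, c4, c5⟩, hn1⟩ := hn₀ n hn
  set L : ℝ := Real.log n with hL
  set s : ℕ := ⌈a * L ^ 2⌉₊ with hs
  set t : ℕ := ⌈b * L⌉₊ with htdef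
  have hn0 : (0 : ℝ) < n := by exact_mod_cast hn1
  have hbt : b * L ≤ t := Nat.le_ceil _
  have ht2 : 2 < (t : ℝ) := by linarith
  have ht2' : 2 < t := by exact_mod_cast ht2
  have hts : t ≤ s := Nat.ceil_le_ceil c2
  have hs1 : (s : ℝ) ≤ a * L ^ 2 + 1 := (Nat.ceil_lt_add_one (by positivity)).le
  have ht0 : (0 : ℝ) < t := by linarith
  have hs0 : (0 : ℝ) < s := by
    have : (t : ℝ) ≤ s := by exact_mod_cast hts
    linarith
  set R : ℝ := (3 * s / t : ℝ) ^ 2 with hR
  have hR3 : (3 : ℝ) ≤ 3 * s / t := by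
    rw [le_div_iff₀ ht0]
    have : (t : ℝ) ≤ s := by exact_mod_cast hts
    linarith
  have hR1 : 1 < R := by
    rw [hR]
    nlinarith
  have hlogL : 0 < Real.log L := Real.log_pos c5
  have hRle : Real.log R ≤ 6 * Real.log L := by
    rw [hR, Real.log_pow]
    have h1 : (3 * s / t : ℝ) ≤ L ^ 3 := by
      calc (3 * s / t : ℝ) ≤ 3 * s := by
            apply div_le_self (by positivity) (by linarith)
        _ ≤ L ^ 3 := by linarith
    have h2 : Real.log (3 * s / t : ℝ) ≤ Real.log (L ^ 3) :=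
      Real.log_le_log (by positivity) h1
    rw [Real.log_pow] at h2
    push_cast at h2 ⊢
    linarith
  have hlogR : 0 < Real.log R := Real.log_pos hR1
  have hlogs : Real.log s ≤ L / 2 := by
    rw [Real.log_le_iff_le_exp hs0]
    linarith
  set m : ℕ := ⌊(L - Real.log s) / Real.log R⌋₊ with hm
  have hnn : 0 ≤ (L - Real.log s) / Real.log R := by
    apply div_nonneg _ hlogR.le
    linarith
  have hmle : (m : ℝ) * Real.log R ≤ L - Real.log s := by
    have := Nat.floor_le hnn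
    rwa [le_div_iff₀ hlogR] at this
  have hmge : (L - Real.log s) / Real.log R < m + 1 := Nat.lt_floor_add_one _
  have hcard : (s : ℝ) * R ^ m ≤ ((univ : Finset (Fin n)).card : ℝ) := by
    rw [Finset.card_univ, Fintype.card_fin]
    have hpos : 0 < (s : ℝ) * R ^ m := by positivity
    rw [← Real.log_le_log_iff hpos hn0, Real.log_mul hs0.ne' (by positivity), Real.log_pow]
    linarith
  obtain ⟨Q, -, hQ, hcl⟩ := low_iter h (Fin n) G s t R (by omega) hts hR1.le
    (low_num s t (by omega) hts) hG m univ hcard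
  refine ⟨Q, hcl, ?_⟩
  have hQ' : ((m : ℝ) + 1) * ((t / 2 : ℕ) : ℝ) ≤ Q.card := by exact_mod_cast hQ
  have ht4 : b * L / 4 ≤ ((t / 2 : ℕ) : ℝ) := by
    have h1 : (t : ℝ) ≤ 2 * ((t / 2 : ℕ) : ℝ) + 1 := by
      have : t ≤ 2 * (t / 2) + 1 := by omega
      exact_mod_cast this
    linarith
  have hm2 : L / (12 * Real.log L) ≤ (m : ℝ) + 1 := by
    refine le_trans ?_ hmge.le
    rw [div_le_div_iff₀ (by positivity) hlogR]
    nlinarith
  calc b / 48 * (L ^ 2 / Real.log L) = L / (12 * Real.log L) * (b * L / 4) := by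
        field_simp
        ring
    _ ≤ ((m : ℝ) + 1) * ((t / 2 : ℕ) : ℝ) := by
        apply mul_le_mul hm2 ht4 (by positivity) (by positivity)
    _ ≤ Q.card := hQ'

end Pool.Agent.LGC
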