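import Pool.Agent.LGC.Basic

set_option autoImplicit false

/-!
# LGC_LOW1: one step of the lower bound
-/

namespace Pool.Agent.LGC

open Finset

open Classical in
/-- the cliques with `j` vertices in `W` -/
noncomputable def low1Kc {V : Type} (G : SimpleGraph V) (W : Finset V) (j : ℕ) :
    Finset (Finset V) :=
  (W.powersetCard j).filter (fun Q => G.IsClique (Q : Set V))

open Classical in
/-- the common neighbours of `Q` in `W` -/
noncomputable def low1Cn {V : Type} (G : SimpleGraph V) (W Q : Finset V) : Finset V :=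
  W.filter (fun v => ∀ x ∈ Q, G.Adj x v)

theorem low1_mem_Kc {V : Type} {G : SimpleGraph V} {W Q : Finset V} {j : ℕ} :
    Q ∈ low1Kc G W j ↔ Q ⊆ W ∧ Q.card = j ∧ G.IsClique (Q : Set V) := by
  classical
  unfold low1Kc
  rw [Finset.mem_filter, Finset.mem_powersetCard, and_assoc]

theorem low1_mem_Cn {V : Type} {G : SimpleGraph V} {W Q : Finset V} {v : V} :
    v ∈ low1Cn G W Q ↔ v ∈ W ∧ ∀ x ∈ Q, G.Adj x v := by
  classical
  unfold low1Cn
  rw [Finset.mem_filter]

/-- double counting of the pairs (clique, vertex of it) -/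
theorem low1_step {V : Type} (G : SimpleGraph V) (W : Finset V) (j : ℕ) :
    (j + 1) * (low1Kc G W (j + 1)).card ≤ ∑ Q ∈ low1Kc G W j, (low1Cn G W Q).card := by
  classical
  have h1 : ((low1Kc G W (j + 1)).sigma (fun P => P)).card =
      (j + 1) * (low1Kc G W (j + 1)).card := by
    rw [Finset.card_sigma, Finset.sum_congr rfl (fun P hP => (low1_mem_Kc.1 hP).2.1),
      Finset.sum_const, smul_eq_mul, mul_comm]
  have h2 : ((low1Kc G W j).sigma (fun Q => low1Cn G W Q)).card =
      ∑ Q ∈ low1Kc G W j, (low1Cn G W Q).card := Finset.card_sigma _ _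
  rw [← h1, ← h2]
  refine Finset.card_le_card_of_injOn
    (fun z : (Σ _ : Finset V, V) => (⟨z.1.erase z.2, z.2⟩ : Σ _ : Finset V, V)) ?_ ?_
  · rintro ⟨P, v⟩ hz
    rw [Finset.mem_coe, Finset.mem_sigma] at hz
    obtain ⟨hP, hv⟩ := hz
    obtain ⟨hP1, hP2, hP3⟩ := low1_mem_Kc.1 hP
    simp only at hv
    rw [Finset.mem_coe, Finset.mem_sigma]
    refine ⟨low1_mem_Kc.2 ⟨(Finset.erase_subset _ _).trans hP1, ?_, ?_⟩,
      low1_mem_Cn.2 ⟨hP1 hv, ?_⟩⟩
    · simp only
      rw [Finset.card_erase_of_mem hv, hP2]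
      rfl
    · intro x hx y hy hxy
      exact hP3 (Finset.mem_coe.2 (Finset.mem_of_mem_erase (Finset.mem_coe.1 hx)))
        (Finset.mem_coe.2 (Finset.mem_of_mem_erase (Finset.mem_coe.1 hy))) hxy
    · intro x hx
      simp only at hx
      exact hP3 (Finset.mem_coe.2 (Finset.mem_of_mem_erase hx)) (Finset.mem_coe.2 hv)
        (Finset.ne_of_mem_erase hx)
  · rintro ⟨P, v⟩ hz ⟨P', v'⟩ hz' h
    rw [Finset.mem_coe, Finset.mem_sigma] at hz hz'
    simp only [Sigma.mk.injEq, heq_eq_eq] at h
    obtain ⟨h3, rfl⟩ := h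
    have h5 : v ∈ P := hz.2
    have h6 : v ∈ P' := hz'.2
    have h4 : P = P' := by
      rw [← Finset.insert_erase h5, ← Finset.insert_erase h6, h3]
    rw [h4]

/-- the number of sets `S` with `T ⊆ S ⊆ W` and `|S| = s` -/
theorem low1_sup {V : Type} [DecidableEq V] (W T : Finset V) (s : ℕ) (hT : T ⊆ W) :
    ((W.powersetCard s).filter (fun S => T ⊆ S)).card ≤
      (W.card - T.card).choose (s - T.card) := by
  have h1 : ((W \ T).powersetCard (s - T.card)).card =
      (W.card - T.card).choose (s - T.card) := by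
    rw [Finset.card_powersetCard, Finset.card_sdiff_of_subset hT]
  rw [← h1]
  refine Finset.card_le_card_of_injOn (fun S => S \ T) ?_ ?_
  · intro S hS
    rw [Finset.mem_coe, Finset.mem_filter, Finset.mem_powersetCard] at hS
    rw [Finset.mem_coe, Finset.mem_powersetCard]
    refine ⟨Finset.sdiff_subset_sdiff hS.1.1 (Finset.Subset.refl _), ?_⟩
    rw [Finset.card_sdiff_of_subset hS.2, hS.1.2]
  · intro S hS S' hS' h
    rw [Finset.mem_coe, Finset.mem_filter, Finset.mem_powersetCard] at hS hS'
    simp only at h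
    rw [← Finset.sdiff_union_of_subset hS.2, ← Finset.sdiff_union_of_subset hS'.2, h]

theorem low1_double {V : Type} (G : SimpleGraph V) (s t : ℕ) (W : Finset V)
    (h : ∀ S ⊆ W, S.card = s → ∃ T ⊆ S, T.card = t ∧ G.IsClique (T : Set V)) :
    W.card.choose s ≤ (low1Kc G W t).card * (W.card - t).choose (s - t) := by
  classical
  have h1 : W.powersetCard s ⊆
      (low1Kc G W t).biUnion (fun T => (W.powersetCard s).filter (fun S => T ⊆ S)) := by
    intro S hS
    obtain ⟨hS1, hS2⟩ := Finset.mem_powersetCard.1 hS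
    obtain ⟨T, hT1, hT2, hT3⟩ := h S hS1 hS2
    rw [Finset.mem_biUnion]
    exact ⟨T, low1_mem_Kc.2 ⟨hT1.trans hS1, hT2, hT3⟩, Finset.mem_filter.2 ⟨hS, hT1⟩⟩
  rw [← Finset.card_powersetCard]
  refine (Finset.card_le_card h1).trans ?_
  refine Finset.card_biUnion_le_card_mul _ _ _ ?_
  intro T hT
  obtain ⟨hT1, hT2, -⟩ := low1_mem_Kc.1 hT
  have := low1_sup W T s hT1
  rwa [hT2] at this

theorem low1_desc (s w : ℕ) (hsw : s ≤ w) : ∀ t, t ≤ s →
    s.descFactorial t * w ^ t ≤ w.descFactorial t * s ^ t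
  | 0, _ => by simp
  | t + 1, ht => by
    have ih := low1_desc s w hsw t (by omega)
    rw [Nat.descFactorial_succ, Nat.descFactorial_succ, pow_succ, pow_succ]
    have h1 : (s - t) * w ≤ (w - t) * s := by
      zify [(by omega : t ≤ s), (by omega : t ≤ w)]
      have : (s : ℤ) ≤ w := by exact_mod_cast hsw
      have ht0 : (0 : ℤ) ≤ t := by positivity
      nlinarith
    calc (s - t) * s.descFactorial t * (w ^ t * w) =
          ((s - t) * w) * (s.descFactorial t * w ^ t) := by ring
      _ ≤ ((w - t) * s) * (w.descFactorial t * s ^ t) := Nat.mul_le_mul h1 ih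
      _ = (w - t) * w.descFactorial t * (s ^ t * s) := by ring

/-- lower bound for the number of `t`-cliques -/
theorem low1_lower {V : Type} (G : SimpleGraph V) (s t : ℕ) (W : Finset V) (hts : t ≤ s)
    (hsw : s ≤ W.card)
    (h : ∀ S ⊆ W, S.card = s → ∃ T ⊆ S, T.card = t ∧ G.IsClique (T : Set V)) :
    W.card ^ t ≤ (low1Kc G W t).card * s ^ t := by
  have h1 := low1_double G s t W h
  have h2 : W.card.choose s * s.choose t = W.card.choose t * (W.card - t).choose (s - t) :=
    Nat.choose_mul hts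
  have h3 : 0 < (W.card - t).choose (s - t) := Nat.choose_pos (by omega)
  have h4 : W.card.choose t ≤ (low1Kc G W t).card * s.choose t := by
    refine Nat.le_of_mul_le_mul_right ?_ h3
    calc W.card.choose t * (W.card - t).choose (s - t) = W.card.choose s * s.choose t := h2.symm
      _ ≤ ((low1Kc G W t).card * (W.card - t).choose (s - t)) * s.choose t :=
          Nat.mul_le_mul_right _ h1
      _ = _ := by ring
  have h5 := low1_desc s W.card hsw t hts
  rw [Nat.descFactorial_eq_factorial_mul_choose, Nat.descFactorial_eq_factorial_mul_choose] at h5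
  have h6 : s.choose t * W.card ^ t ≤ W.card.choose t * s ^ t := by
    refine Nat.le_of_mul_le_mul_left ?_ (Nat.factorial_pos t)
    calc t.factorial * (s.choose t * W.card ^ t) = t.factorial * s.choose t * W.card ^ t := by ring
      _ ≤ _ := h5
      _ = _ := by ring
  refine Nat.le_of_mul_le_mul_left ?_ (Nat.choose_pos hts)
  calc s.choose t * W.card ^ t ≤ W.card.choose t * s ^ t := h6
    _ ≤ ((low1Kc G W t).card * s.choose t) * s ^ t := Nat.mul_le_mul_right _ h4
    _ = _ := by ring

/-- upper bound for the number of cliques -/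
theorem low1_upper {V : Type} (G : SimpleGraph V) (W : Finset V) (r : ℕ) (R : ℝ) (hR : 0 < R)
    (h : ∀ Q : Finset V, Q ⊆ W → r ≤ Q.card → G.IsClique (Q : Set V) →
      ((low1Cn G W Q).card : ℝ) ≤ (W.card : ℝ) / R) : ∀ i : ℕ,
    ((low1Kc G W (r + i)).card : ℝ) * ((r + i).factorial * R ^ i) ≤ (W.card : ℝ) ^ (r + i)
  | 0 => by
    classical
    rw [Nat.add_zero, pow_zero, mul_one]
    have h1 : (low1Kc G W r).card ≤ W.card.choose r := by
      unfold low1Kc
      refine (Finset.card_filter_le _ _).trans ?_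
      rw [Finset.card_powersetCard]
    have h2 : W.card.choose r * r.factorial ≤ W.card ^ r := by
      rw [mul_comm, ← Nat.descFactorial_eq_factorial_mul_choose]
      exact Nat.descFactorial_le_pow _ _
    calc ((low1Kc G W r).card : ℝ) * r.factorial ≤ (W.card.choose r : ℝ) * r.factorial := by
          gcongr
      _ ≤ _ := by exact_mod_cast h2
  | i + 1 => by
    have ih := low1_upper G W r R hR h i
    have h1 := low1_step G W (r + i)
    have h2 : ((r + i + 1 : ℕ) : ℝ) * ((low1Kc G W (r + i + 1)).card : ℝ) ≤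
        ((low1Kc G W (r + i)).card : ℝ) * ((W.card : ℝ) / R) := by
      calc ((r + i + 1 : ℕ) : ℝ) * ((low1Kc G W (r + i + 1)).card : ℝ) ≤
            ((∑ Q ∈ low1Kc G W (r + i), (low1Cn G W Q).card : ℕ) : ℝ) := by exact_mod_cast h1
        _ = ∑ Q ∈ low1Kc G W (r + i), ((low1Cn G W Q).card : ℝ) := by push_cast; rfl
        _ ≤ ∑ _Q ∈ low1Kc G W (r + i), ((W.card : ℝ) / R) := by
            refine Finset.sum_le_sum fun Q hQ => ?_
            obtain ⟨h3, h4, h5⟩ := low1_mem_Kc.1 hQ
            exact h Q h3 (by omega) h5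
        _ = _ := by rw [Finset.sum_const, nsmul_eq_mul]
    have h3 : r + (i + 1) = r + i + 1 := rfl
    rw [h3, Nat.factorial_succ, pow_succ R i, pow_succ (W.card : ℝ) (r + i)]
    calc ((low1Kc G W (r + i + 1)).card : ℝ) *
          (((r + i + 1) * (r + i).factorial : ℕ) * (R ^ i * R)) =
          (((r + i + 1 : ℕ) : ℝ) * ((low1Kc G W (r + i + 1)).card : ℝ)) *
            ((r + i).factorial * R ^ i * R) := by push_cast; ring
      _ ≤ (((low1Kc G W (r + i)).card : ℝ) * ((W.card : ℝ) / R)) *
            ((r + i).factorial * R ^ i * R) := by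
          refine mul_le_mul_of_nonneg_right h2 ?_
          positivity
      _ = ((low1Kc G W (r + i)).card : ℝ) * ((r + i).factorial * R ^ i) * W.card := by
          field_simp
      _ ≤ (W.card : ℝ) ^ (r + i) * W.card := by
          refine mul_le_mul_of_nonneg_right ih ?_
          positivity

/-- **LGC_LOW1.** -/
theorem low1 : S_LOW1 := by
  intro V G s t W R ht hts hsw h hR hst
  by_contra hcon
  push Not at hcon
  have h1 := low1_lower G s t W hts hsw h
  have h2 := low1_upper G W (t / 2) R hR (fun Q hQ1 hQ2 hQ3 => by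
    have := hcon Q hQ1 hQ2 hQ3
    unfold low1Cn
    exact this.le) (t - t / 2)
  rw [Nat.add_sub_cancel' (Nat.div_le_self t 2)] at h2
  have h3 : (W.card : ℝ) ^ t ≤ (low1Kc G W t).card * (s : ℝ) ^ t := by exact_mod_cast h1
  have hw : 0 < (W.card : ℝ) ^ t := by
    have : 0 < W.card := by omega
    positivity
  have hN : 0 < ((low1Kc G W t).card : ℝ) := by
    rcases Nat.eq_zero_or_pos (low1Kc G W t).card with h0 | h0
    · rw [h0] at h3
      simp only [Nat.cast_zero, zero_mul] at h3
      linarith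
    · exact_mod_cast h0
  have h4 := mul_lt_mul_of_pos_left hst hN
  linarith

end Pool.Agent.LGC
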