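import Pool.Agent.LGC.Basic

set_option autoImplicit false

/-!
# MP_5b54e3_co: the numerical conditions (LGC_NUM)
-/

namespace Pool.Agent.LGC

open Finset Filter

namespace NUM

lemma ev_rpow (a c : ℝ) (ha : 0 < a) : ∀ᶠ k : ℕ in atTop, c ≤ (k : ℝ) ^ a :=
  ((tendsto_rpow_atTop ha).comp tendsto_natCast_atTop_atTop).eventually_ge_atTop c

lemma ev_log (c : ℝ) : ∀ᶠ k : ℕ in atTop, c ≤ Real.log (k : ℝ) :=
  (Real.tendsto_log_atTop.comp tendsto_natCast_atTop_atTop).eventually_ge_atTop c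

lemma ev_logr (a c : ℝ) (ha : 0 < a) (hc : 0 < c) :
    ∀ᶠ k : ℕ in atTop, c * Real.log (k : ℝ) ≤ (k : ℝ) ^ a := by
  have h := (isLittleO_log_rpow_atTop ha).bound (show 0 < 1 / c by positivity)
  have h2 := tendsto_natCast_atTop_atTop (R := ℝ) |>.eventually h
  filter_upwards [h2, eventually_ge_atTop 1] with k hk hk1
  have hk1' : (1 : ℝ) ≤ k := by exact_mod_cast hk1
  rw [Real.norm_of_nonneg (Real.log_nonneg hk1'), Real.norm_of_nonneg (by positivity)] at hk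
  have := mul_le_mul_of_nonneg_left hk hc.le
  rwa [← mul_assoc, mul_one_div_cancel hc.ne', one_mul] at this

/-- lower bound for the power -/
lemma pow_lower {k : ℕ} (hk : 2 ≤ k) (hl : 4 ≤ Real.log k) :
    (k : ℝ) ^ (-(1 / 8) : ℝ) ≤ (1 - (1 + ek k) * pk k) ^ k := by
  have hk0 : (0 : ℝ) < k := by positivity
  have hl0 : 0 < Real.log k := by linarith
  have hlk : Real.log k ≤ k := (Real.log_le_sub_one_of_pos hk0).trans (by linarith)
  have he : ek k ≤ 1 / 4 := by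
    unfold ek
    rw [div_le_div_iff₀ hl0 (by norm_num)]
    linarith
  have he0 : 0 < ek k := by unfold ek; positivity
  have hp0 : 0 < pk k := by unfold pk; positivity
  have hp : pk k * k = Real.log k / 20 := by
    unfold pk
    field_simp
  have hp1 : pk k ≤ 1 / 20 := by
    unfold pk
    rw [div_le_div_iff₀ (by positivity) (by norm_num)]
    linarith
  obtain ⟨x, hx⟩ : ∃ x, x = (1 + ek k) * pk k := ⟨_, rfl⟩
  have hx0 : 0 ≤ x := by rw [hx]; positivity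
  have hx1 : x ≤ 1 / 4 := by
    rw [hx]
    nlinarith
  have h1 : Real.exp (-(2 * x)) ≤ 1 - x := by
    have h2 : Real.exp (2 * x) * (1 - x) ≥ 1 := by
      have h3 := Real.add_one_le_exp (2 * x)
      have h4 : (2 * x + 1) * (1 - x) ≤ Real.exp (2 * x) * (1 - x) :=
        mul_le_mul_of_nonneg_right h3 (by linarith)
      nlinarith
    rw [Real.exp_neg, inv_eq_one_div, div_le_iff₀ (Real.exp_pos _)]
    linarith
  rw [← hx]
  refine le_trans ?_ (pow_le_pow_left₀ (Real.exp_pos _).le h1 k)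
  rw [← Real.exp_nat_mul, Real.rpow_def_of_pos hk0]
  refine Real.exp_le_exp.2 ?_
  have h5 : (k : ℝ) * -(2 * x) = -(2 * (1 + ek k) * (pk k * k)) := by
    rw [hx]; ring
  rw [h5, hp]
  nlinarith

end NUM

open NUM in
theorem num : S_NUM := by
  intro θ T hθ hT
  have hall := (((((((ev_log 4).and (ev_rpow (1 / 5) 20 (by norm_num))).and
    (ev_rpow (7 / 40) (4 / θ) (by norm_num))).and (ev_rpow (1 / 2) (T / 16) (by norm_num))).and
    (ev_rpow (7 / 8) (4 / θ) (by norm_num))).and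
    (ev_logr (7 / 40) (32 / 5 / θ ^ 2) (by norm_num) (by positivity))).and (eventually_ge_atTop 2))
  obtain ⟨k₀, hk₀⟩ := eventually_atTop.1 hall
  refine ⟨k₀, fun k N h hk hN1 hN2 hh => ?_⟩
  obtain ⟨⟨⟨⟨⟨⟨ha, hb⟩, hc⟩, hd⟩, he⟩, hf⟩, h2⟩ := hk₀ k hk
  have hk0 : (0 : ℝ) < k := by positivity
  have hk2 : (2 : ℝ) ≤ k := by exact_mod_cast h2
  have hl0 : 0 < Real.log k := by linarith
  have hlk : Real.log k ≤ k := (Real.log_le_sub_one_of_pos hk0).trans (by linarith)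
  have hlow := pow_lower h2 ha
  have hNpos : (0 : ℝ) < N := lt_of_lt_of_le (by positivity) hN1
  have hadd : ∀ a b : ℝ, (k : ℝ) ^ a * (k : ℝ) ^ b = (k : ℝ) ^ (a + b) := fun a b =>
    (Real.rpow_add hk0 a b).symm
  have hk1 : (k : ℝ) ^ (1 : ℝ) = k := Real.rpow_one _
  have hkk : (k : ℝ) ^ (2 : ℝ) = (k : ℝ) ^ 2 := by
    rw [← Real.rpow_natCast]; norm_num
  have hexp : Real.exp (2 * pk k * k) = (k : ℝ) ^ (1 / 10 : ℝ) := by
    rw [Real.rpow_def_of_pos hk0]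
    congr 1
    unfold pk
    field_simp
    norm_num
  have hNlow : θ / 4 * (k : ℝ) ^ (15 / 8 : ℝ) ≤ (N : ℝ) / 4 * (1 - (1 + ek k) * pk k) ^ k := by
    have h3 : θ / 4 * (k : ℝ) ^ (15 / 8 : ℝ) = θ * (k : ℝ) ^ 2 / 4 * (k : ℝ) ^ (-(1 / 8) : ℝ) := by
      rw [← hkk, show (15 / 8 : ℝ) = 2 + -(1 / 8) by norm_num, ← hadd]
      ring
    rw [h3]
    exact mul_le_mul (by linarith) hlow (by positivity) (by positivity)
  refine ⟨by omega, ?_, ?_, ?_, ?_, ?_, ?_, ?_, ?_, by positivity, ?_, by positivity, ?_⟩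
  · unfold pk; positivity
  · unfold pk
    rw [div_le_div_iff₀ (by positivity) (by norm_num)]
    linarith
  · unfold ek; positivity
  · unfold ek
    rw [div_le_div_iff₀ hl0 (by norm_num)]
    linarith
  · unfold ek pk
    have : 10 * (1 / Real.log k) * (Real.log k / (20 * k)) * k = 1 / 2 := by
      field_simp
      norm_num
    rw [this]
    norm_num
  · have h3 : ek k * pk k * (k : ℝ) ^ (17 / 10 : ℝ) = (k : ℝ) ^ (1 / 5 : ℝ) / 20 * (k : ℝ) ^ (1 / 2 : ℝ) := by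
      have h4 : (k : ℝ) ^ (17 / 10 : ℝ) = (k : ℝ) ^ (1 / 5 : ℝ) * (k : ℝ) ^ (1 / 2 : ℝ) * k := by
        nth_rewrite 4 [← hk1]
        rw [hadd, hadd]
        norm_num
      rw [h4]
      unfold ek pk
      field_simp
    rw [h3]
    have h5 : (0 : ℝ) ≤ (k : ℝ) ^ (1 / 2 : ℝ) := by positivity
    nlinarith
  · exact Real.one_le_rpow (by linarith) (by norm_num)
  · refine le_trans ?_ hNlow
    have h3 : (k : ℝ) ^ (15 / 8 : ℝ) = (k : ℝ) ^ (17 / 10 : ℝ) * (k : ℝ) ^ (7 / 40 : ℝ) := by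
      rw [hadd]; norm_num
    rw [h3]
    have h4 : 1 ≤ θ / 4 * (k : ℝ) ^ (7 / 40 : ℝ) := by
      rw [div_le_iff₀ hθ] at hc
      linarith
    have h5 : (0 : ℝ) ≤ (k : ℝ) ^ (17 / 10 : ℝ) := by positivity
    nlinarith
  · have h3 : 16 * (h : ℝ) ≤ (N : ℝ) * (T * k / 16) := by
      have h4 : 256 * (k : ℝ) * h ≤ (N : ℝ) * (T * (k : ℝ) ^ 2) := by
        calc 256 * (k : ℝ) * h ≤ (N : ℝ) ^ 2 := hh
          _ = N * N := by ring
          _ ≤ N * (T * (k : ℝ) ^ 2) := mul_le_mul_of_nonneg_left hN2 hNpos.le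
      have h5 : (16 * (h : ℝ)) * (16 * k) ≤ ((N : ℝ) * (T * k / 16)) * (16 * k) := by
        linarith
      exact le_of_mul_le_mul_right h5 (by positivity)
    refine h3.trans ?_
    have h4 : (k : ℝ) ^ (3 / 2 : ℝ) = (k : ℝ) ^ (1 / 2 : ℝ) * k := by
      nth_rewrite 3 [← hk1]
      rw [hadd]; norm_num
    rw [h4, mul_comm]
    refine mul_le_mul_of_nonneg_right ?_ hNpos.le
    nlinarith
  · rw [hexp]
    have h3 : (N : ℝ) / 2 * (1 - (1 + ek k) * pk k) ^ k ≥ θ / 2 * (k : ℝ) ^ (15 / 8 : ℝ) := by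
      linarith
    refine le_trans ?_ h3
    have h4 : (k : ℝ) ≤ θ / 4 * (k : ℝ) ^ (15 / 8 : ℝ) := by
      have h5 : (k : ℝ) ^ (15 / 8 : ℝ) = (k : ℝ) ^ (7 / 8 : ℝ) * k := by
        nth_rewrite 3 [← hk1]
        rw [hadd]; norm_num
      rw [h5]
      have h6 : 1 ≤ θ / 4 * (k : ℝ) ^ (7 / 8 : ℝ) := by
        rw [div_le_iff₀ hθ] at he
        linarith
      nlinarith
    have h5 : (k : ℝ) * (32 * (k / N) * (k : ℝ) ^ (1 / 10 : ℝ) * pk k * (k : ℝ) ^ (11 / 10 : ℝ) *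
        (k : ℝ) ^ (3 / 2 : ℝ)) ≤ θ / 4 * (k : ℝ) ^ (15 / 8 : ℝ) := by
      have h6 : (k : ℝ) * (32 * (k / N) * (k : ℝ) ^ (1 / 10 : ℝ) * pk k * (k : ℝ) ^ (11 / 10 : ℝ) *
          (k : ℝ) ^ (3 / 2 : ℝ)) = 8 / 5 * Real.log k * ((k : ℝ) ^ (37 / 10 : ℝ) / N) := by
        have h7 : (k : ℝ) ^ (37 / 10 : ℝ) = k * ((k : ℝ) ^ (1 / 10 : ℝ) * (k : ℝ) ^ (11 / 10 : ℝ) *
            (k : ℝ) ^ (3 / 2 : ℝ)) := by
          nth_rewrite 2 [← hk1]
          rw [hadd, hadd, hadd]; norm_num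
        rw [h7]
        unfold pk
        field_simp
        norm_num
      rw [h6]
      have h7 : (k : ℝ) ^ (37 / 10 : ℝ) / N ≤ (k : ℝ) ^ (17 / 10 : ℝ) / θ := by
        rw [div_le_div_iff₀ hNpos hθ]
        have h8 : (k : ℝ) ^ (37 / 10 : ℝ) = (k : ℝ) ^ (17 / 10 : ℝ) * (k : ℝ) ^ 2 := by
          rw [← hkk, hadd]; norm_num
        rw [h8, mul_assoc]
        refine mul_le_mul_of_nonneg_left ?_ (by positivity)
        linarith
      have h8 : 8 / 5 * Real.log k * ((k : ℝ) ^ (37 / 10 : ℝ) / N) ≤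
          8 / 5 * Real.log k * ((k : ℝ) ^ (17 / 10 : ℝ) / θ) :=
        mul_le_mul_of_nonneg_left h7 (by positivity)
      refine h8.trans ?_
      have h9 : (k : ℝ) ^ (15 / 8 : ℝ) = (k : ℝ) ^ (17 / 10 : ℝ) * (k : ℝ) ^ (7 / 40 : ℝ) := by
        rw [hadd]; norm_num
      rw [h9]
      have h10 : 8 / 5 * Real.log k * ((k : ℝ) ^ (17 / 10 : ℝ) / θ) =
          (k : ℝ) ^ (17 / 10 : ℝ) * (θ / 4 * (32 / 5 / θ ^ 2 * Real.log k)) := by
        field_simp
        ring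
      rw [h10]
      have h11 : (k : ℝ) ^ (17 / 10 : ℝ) * (θ / 4 * (32 / 5 / θ ^ 2 * Real.log k)) ≤
          (k : ℝ) ^ (17 / 10 : ℝ) * (θ / 4 * (k : ℝ) ^ (7 / 40 : ℝ)) := by
        refine mul_le_mul_of_nonneg_left ?_ (by positivity)
        exact mul_le_mul_of_nonneg_left hf (by positivity)
      refine h11.trans (le_of_eq (by ring))
    rw [mul_add, mul_one]
    linarith

end Pool.Agent.LGC
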