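import Pool.Agent.LGC.Basic

set_option autoImplicit false

/-!
# LGC_U1 (MP_5b54e3_co): large sets do not have too many edges
-/

namespace Pool.Agent.LGC

open Finset Filter

open Classical in
/-- the pairs of distinct vertices in `W` -/
noncomputable def U1_T {V : Type} (W : Finset V) : Finset (Sym2 V) :=
  (W.offDiag).image (fun z => s(z.1, z.2))

open Classical in
theorem U1_card_T {V : Type} (W : Finset V) : 2 * (U1_T W).card ≤ W.card ^ 2 := by
  have h0 : U1_T W = W.offDiag.image (Function.uncurry Sym2.mk) := rfl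
  rw [h0, Sym2.card_image_offDiag, Nat.choose_two_right]
  have := Nat.mul_div_le (W.card * (W.card - 1)) 2
  have h2 : W.card * (W.card - 1) ≤ W.card ^ 2 := by
    rw [sq]
    exact Nat.mul_le_mul_left _ (Nat.sub_le _ _)
  omega

open Classical in
theorem U1_prs_le {V : Type} (A : Finset (Sym2 V)) (W : Finset V) :
    prs (gr A) W ≤ 2 * (A ∩ U1_T W).card := by
  unfold prs
  have h1 : (((W ×ˢ W).filter (fun z => (gr A).Adj z.1 z.2)).image
      (fun z => s(z.1, z.2))) ⊆ A ∩ U1_T W := by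
    intro e he
    rw [mem_image] at he
    obtain ⟨⟨x, y⟩, hz, rfl⟩ := he
    rw [mem_filter, mem_product, gr_adj] at hz
    rw [mem_inter]
    refine ⟨hz.2.1, ?_⟩
    unfold U1_T
    rw [mem_image]
    exact ⟨(x, y), mem_offDiag.2 ⟨hz.1.1, hz.1.2, hz.2.2⟩, rfl⟩
  have h2 := Finset.card_le_mul_card_image (f := fun z : V × V => s(z.1, z.2))
    ((W ×ˢ W).filter (fun z => (gr A).Adj z.1 z.2)) 2 (by
      intro e he
      rw [mem_image] at he
      obtain ⟨⟨x, y⟩, hz, rfl⟩ := he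
      have h3 : (((W ×ˢ W).filter (fun z => (gr A).Adj z.1 z.2)).filter
          (fun z => s(z.1, z.2) = s(x, y))) ⊆ {(x, y), (y, x)} := by
        rintro ⟨u, v⟩ huv
        rw [mem_filter] at huv
        have h4 := huv.2
        rw [Sym2.eq_iff] at h4
        rw [mem_insert, mem_singleton, Prod.mk.injEq, Prod.mk.injEq]
        exact h4
      exact (card_le_card h3).trans card_le_two)
  exact h2.trans (Nat.mul_le_mul_left 2 (card_le_card h1))

theorem U1_ic {V : Type} (d1 d2 : DecidableEq (Sym2 V)) (A T : Finset (Sym2 V)) :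
    (@Inter.inter _ (@Finset.instInter _ d1) A T).card =
      (@Inter.inter _ (@Finset.instInter _ d2) A T).card := by
  have := Subsingleton.elim d1 d2
  subst this
  rfl

theorem U1_ev (T : ℝ) : ∃ k₀ : ℕ, ∀ k : ℕ, k₀ ≤ k → 3 ≤ k ∧
    160 * Real.log k ≤ (k : ℝ) ^ (1 / 10 : ℝ) ∧
    T * ((k : ℝ) ^ (6 / 10 : ℝ)) ^ 4 * Real.exp (-(k : ℝ) ^ (6 / 10 : ℝ)) ≤ 1 / 24 := by
  have h1 : ∀ᶠ x : ℝ in atTop, 160 * Real.log x ≤ x ^ (1 / 10 : ℝ) := by
    have h := (isLittleO_log_rpow_atTop (show (0 : ℝ) < 1 / 10 by norm_num)).bound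
      (show (0 : ℝ) < 1 / 160 by norm_num)
    filter_upwards [h, eventually_ge_atTop (1 : ℝ)] with x hx hx1
    rw [Real.norm_of_nonneg (Real.log_nonneg hx1),
      Real.norm_of_nonneg (Real.rpow_nonneg (by linarith) _)] at hx
    linarith
  have h2 : Tendsto (fun x : ℝ => T * (x ^ 4 * Real.exp (-x))) atTop (nhds 0) := by
    have := (Real.tendsto_pow_mul_exp_neg_atTop_nhds_zero 4).const_mul T
    simpa using this
  have h3 : Tendsto (fun x : ℝ => x ^ (6 / 10 : ℝ)) atTop atTop :=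
    tendsto_rpow_atTop (by norm_num)
  have h4 : ∀ᶠ x : ℝ in atTop, T * (x ^ 4 * Real.exp (-x)) ≤ 1 / 24 :=
    (h2.eventually (Iio_mem_nhds (show (0 : ℝ) < 1 / 24 by norm_num))).mono
      fun x hx => le_of_lt hx
  have h5 := h3.eventually h4
  have h6 := (eventually_ge_atTop (3 : ℕ)).and
    (tendsto_natCast_atTop_atTop.eventually (h1.and h5) : ∀ᶠ k : ℕ in atTop, _)
  obtain ⟨k₀, hk⟩ := eventually_atTop.1 h6
  refine ⟨k₀, fun k hk' => ?_⟩
  obtain ⟨e1, e2, e3⟩ := hk k hk'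
  exact ⟨e1, e2, by rw [mul_assoc]; exact e3⟩

theorem u1 (h : S_CH) : S_U1 := by
  intro θ T hθ hT
  obtain ⟨k₀, hk₀⟩ := U1_ev T
  refine ⟨k₀, ?_⟩
  intro k V _ S hk hS1 hS2
  obtain ⟨hk3, hlog, hexp⟩ := hk₀ k hk
  have hkpos : (0 : ℝ) < k := by
    have : 0 < k := by omega
    exact_mod_cast this
  have hk1 : (1 : ℝ) ≤ k := by
    have : 1 ≤ k := by omega
    exact_mod_cast this
  have hl1 : 1 ≤ Real.log k := by
    rw [Real.le_log_iff_exp_le hkpos]
    have h1 := Real.exp_one_lt_d9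
    have h2 : (3 : ℝ) ≤ k := by exact_mod_cast hk3
    linarith
  have hp0 : 0 ≤ pk k := by unfold pk; positivity
  have hp1 : pk k ≤ 1 := by
    unfold pk
    rw [div_le_one (by positivity)]
    have := Real.log_le_self hkpos.le
    linarith
  have he0 : 0 ≤ ek k := by unfold ek; positivity
  have he1 : ek k ≤ 1 := by
    unfold ek
    rw [div_le_one (by linarith)]
    exact hl1
  set x : ℝ := Real.exp (-(k : ℝ) ^ (6 / 10 : ℝ)) with hx
  have hx0 : 0 < x := Real.exp_pos _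
  set w₀ : ℝ := (k : ℝ) ^ (17 / 10 : ℝ) with hw₀
  have hw1 : 1 ≤ w₀ := Real.one_le_rpow hk1 (by norm_num)
  have hCH := (@h (Sym2 V) _ (Classical.decEq _) (pk k) hp0 hp1).2.2.1
  classical
  -- one set
  have hone : ∀ W : Finset V, w₀ ≤ W.card →
      Pr (pk k) (fun A : Finset (Sym2 V) =>
        ¬ ((prs (gr A) W : ℝ) ≤ (1 + ek k) * pk k * (W.card : ℝ) ^ 2)) ≤ x ^ W.card := by
    intro W hW
    have h1 := hCH (U1_T W) (pk k * (W.card : ℝ) ^ 2 / 2) (ek k) he0 he1 (by
      have h2 : (2 : ℝ) * (U1_T W).card ≤ (W.card : ℝ) ^ 2 := by exact_mod_cast U1_card_T W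
      nlinarith)
    refine le_trans (Pr_mono hp0 hp1 ?_) (h1.trans ?_)
    · intro A hA
      push Not at hA
      have h2 : (prs (gr A) W : ℝ) ≤ 2 * ((A ∩ U1_T W).card : ℝ) := by
        exact_mod_cast U1_prs_le A W
      have h3 : (1 + ek k) * (pk k * (W.card : ℝ) ^ 2 / 2) ≤ ((A ∩ U1_T W).card : ℝ) := by
        nlinarith
      exact h3.trans (le_of_eq (congrArg (Nat.cast : ℕ → ℝ) (U1_ic _ _ A (U1_T W))))
    · rw [hx, ← Real.exp_nat_mul]
      apply Real.exp_le_exp.2
      have h4 : (k : ℝ) ^ (6 / 10 : ℝ) ≤ (W.card : ℝ) / (160 * k * Real.log k) := by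
        rw [le_div_iff₀ (by positivity)]
        have h5 : (k : ℝ) ^ (6 / 10 : ℝ) * (k * (k : ℝ) ^ (1 / 10 : ℝ)) = w₀ := by
          rw [hw₀]
          nth_rewrite 2 [← Real.rpow_one (k : ℝ)]
          rw [← Real.rpow_add hkpos, ← Real.rpow_add hkpos]
          norm_num
        calc (k : ℝ) ^ (6 / 10 : ℝ) * (160 * k * Real.log k)
            = (k : ℝ) ^ (6 / 10 : ℝ) * (k * (160 * Real.log k)) := by ring
          _ ≤ (k : ℝ) ^ (6 / 10 : ℝ) * (k * (k : ℝ) ^ (1 / 10 : ℝ)) := by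
              apply mul_le_mul_of_nonneg_left _ (by positivity)
              exact mul_le_mul_of_nonneg_left hlog hkpos.le
          _ = w₀ := h5
          _ ≤ W.card := hW
      have h6 : ek k ^ 2 * (pk k * (W.card : ℝ) ^ 2 / 2) / 4 =
          W.card * ((W.card : ℝ) / (160 * k * Real.log k)) := by
        unfold ek pk
        have : Real.log k ≠ 0 := by linarith
        field_simp
        ring
      have h7 : (W.card : ℝ) * (k : ℝ) ^ (6 / 10 : ℝ) ≤
          W.card * ((W.card : ℝ) / (160 * k * Real.log k)) :=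
        mul_le_mul_of_nonneg_left h4 (by positivity)
      rw [h6]
      linarith
  -- union bound
  have hun : Pr (pk k) (fun A : Finset (Sym2 V) => ¬ U1 (gr A) S (pk k) (ek k) w₀) ≤
      ∑ W ∈ S.powerset.filter (fun W => w₀ ≤ (W.card : ℝ)), x ^ W.card := by
    have hu1 := Pr_exists_le hp0 hp1 (S.powerset.filter (fun W => w₀ ≤ (W.card : ℝ)))
      (fun (W : Finset V) (A : Finset (Sym2 V)) =>
        ¬ ((prs (gr A) W : ℝ) ≤ (1 + ek k) * pk k * (W.card : ℝ) ^ 2))
    have hu2 : Pr (pk k) (fun A : Finset (Sym2 V) => ¬ U1 (gr A) S (pk k) (ek k) w₀) ≤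
        Pr (pk k) (fun A : Finset (Sym2 V) =>
          ∃ W ∈ S.powerset.filter (fun W => w₀ ≤ (W.card : ℝ)),
            ¬ ((prs (gr A) W : ℝ) ≤ (1 + ek k) * pk k * (W.card : ℝ) ^ 2)) := by
      apply Pr_mono hp0 hp1
      intro A hA
      unfold U1 at hA
      push Not at hA
      obtain ⟨W, hWS, hW, hlt⟩ := hA
      exact ⟨W, mem_filter.2 ⟨mem_powerset.2 hWS, hW⟩, not_le.2 hlt⟩
    refine hu2.trans (hu1.trans ?_)
    apply sum_le_sum
    intro W hW
    exact hone W (mem_filter.1 hW).2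
  refine hun.trans ?_
  have h1 : ∑ W ∈ S.powerset.filter (fun W => w₀ ≤ (W.card : ℝ)), x ^ W.card ≤
      ∑ W ∈ S.powerset.erase ∅, x ^ W.card := by
    apply sum_le_sum_of_subset_of_nonneg
    · intro W hW
      rw [mem_filter] at hW
      rw [mem_erase]
      refine ⟨?_, hW.1⟩
      rintro rfl
      have := hW.2
      simp at this
      linarith
    · intro W _ _
      positivity
  have h2 : ∑ W ∈ S.powerset, x ^ W.card = (x + 1) ^ S.card := by
    rw [← Finset.sum_pow_mul_eq_add_pow x 1 S]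
    simp
  have h3 : ∑ W ∈ S.powerset.erase ∅, x ^ W.card = (x + 1) ^ S.card - 1 := by
    have h4 := Finset.add_sum_erase S.powerset (fun W => x ^ W.card)
      (show ∅ ∈ S.powerset by simp)
    simp only [card_empty, pow_zero] at h4
    linarith
  have h4 : (x + 1) ^ S.card ≤ Real.exp (S.card * x) := by
    rw [Real.exp_nat_mul]
    exact pow_le_pow_left₀ (by positivity) (Real.add_one_le_exp x) _
  have h5 : (S.card : ℝ) * x ≤ 1 / 24 := by
    refine le_trans ?_ hexp
    apply mul_le_mul_of_nonneg_right _ hx0.le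
    refine hS2.trans ?_
    apply mul_le_mul_of_nonneg_left _ hT.le
    have h6 : ((k : ℝ) ^ (6 / 10 : ℝ)) ^ 4 = (k : ℝ) ^ (24 / 10 : ℝ) := by
      rw [← Real.rpow_natCast, ← Real.rpow_mul hkpos.le]
      norm_num
    rw [h6, ← Real.rpow_natCast]
    apply Real.rpow_le_rpow_of_exponent_le hk1
    norm_num
  have h6 : Real.exp ((S.card : ℝ) * x) ≤ 1 + 1 / 12 := by
    have h7 : Real.exp ((S.card : ℝ) * x) ≤ Real.exp (1 / 24) := Real.exp_le_exp.2 h5
    have h8 := Real.one_sub_le_exp_neg (1 / 24 : ℝ)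
    rw [Real.exp_neg] at h8
    have h9 : Real.exp (1 / 24) ≤ 24 / 23 := by
      have h10 := Real.exp_pos (1 / 24 : ℝ)
      rw [le_inv_comm₀ (by norm_num) h10] at h8
      linarith [h8, show ((1 : ℝ) - 1 / 24)⁻¹ = 24 / 23 by norm_num]
    linarith
  linarith

end Pool.Agent.LGC
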