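import Pool.Agent.LGC.Basic

set_option autoImplicit false

/-!
# MP_5b54e3_co, module LGC_U2: few vertices of low degree in large sets
-/

namespace Pool.Agent.LGC

open Finset

theorem U2_fc {V : Type} (W : Finset V) (P : V → Prop) (d1 d2 : DecidablePred P) :
    (@Finset.filter V P d1 W).card = (@Finset.filter V P d2 W).card := by
  have := Subsingleton.elim d1 d2
  subst this
  rfl

open Classical in
/-- the pairs between `X` and `W \ X` -/
noncomputable def U2tt {V : Type} (X W : Finset V) : Finset (Sym2 V) :=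
  (X ×ˢ (W \ X)).image (fun z => s(z.1, z.2))

theorem U2_card {V : Type} (X W : Finset V) (hXW : X ⊆ W) :
    (U2tt X W).card = X.card * (W.card - X.card) := by
  classical
  unfold U2tt
  rw [Finset.card_image_of_injOn, Finset.card_product]
  · congr 1
    rw [← Finset.card_sdiff_of_subset hXW]
  · rintro ⟨a, b⟩ hab ⟨c, d⟩ hcd h
    simp only [Finset.coe_product, Set.mem_prod, Finset.mem_coe, Finset.mem_sdiff] at hab hcd
    simp only [Sym2.eq_iff] at h
    rcases h with ⟨h1, h2⟩ | ⟨h1, h2⟩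
    · rw [h1, h2]
    · exact absurd hab.1 (by rw [h1]; exact hcd.2.2)

open Classical in
theorem U2_inter {V : Type} (A : Finset (Sym2 V)) (X W : Finset V) :
    (A ∩ U2tt X W).card ≤ ∑ x ∈ X, dg (gr A) W x := by
  classical
  have h1 : A ∩ U2tt X W ⊆ (X.sigma (fun x => W.filter (fun y => (gr A).Adj x y))).image
      (fun z => s(z.1, z.2)) := by
    intro e he
    obtain ⟨heA, heT⟩ := Finset.mem_inter.1 he
    unfold U2tt at heT
    obtain ⟨⟨x, y⟩, hxy, rfl⟩ := Finset.mem_image.1 heT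
    simp only [Finset.mem_product, Finset.mem_sdiff] at hxy
    refine Finset.mem_image.2 ⟨⟨x, y⟩, ?_, rfl⟩
    simp only [Finset.mem_sigma, Finset.mem_filter]
    refine ⟨hxy.1, hxy.2.1, ?_⟩
    rw [gr_adj]
    refine ⟨heA, ?_⟩
    rintro rfl
    exact hxy.2.2 hxy.1
  refine (Finset.card_le_card h1).trans (Finset.card_image_le.trans ?_)
  rw [Finset.card_sigma]
  refine Finset.sum_le_sum fun x _ => le_of_eq ?_
  unfold dg
  congr 1

/-- one pair `X ⊆ W` -/
theorem U2_one (hCH : S_CH) {V : Type} [Fintype V] (p η : ℝ) (hp0 : 0 ≤ p) (hp1 : p ≤ 1)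
    (hη0 : 0 ≤ η) (hη1 : η ≤ 1) (X W : Finset V) (hXW : X ⊆ W) (hX : 0 < X.card)
    (hXc : (X.card : ℝ) ≤ η * W.card / 2) :
    Pr p (fun A : Finset (Sym2 V) => ∀ x ∈ X, (dg (gr A) W x : ℝ) < (1 - η) * p * W.card) ≤
      Real.exp (-(η ^ 2 * p * X.card / 16 * W.card)) := by
  classical
  obtain ⟨-, -, -, h4⟩ := hCH (Sym2 V) p hp0 hp1
  have h5 := h4 (U2tt X W) (η / 2) (by linarith) (by linarith)
  have hw0 : (0 : ℝ) ≤ W.card := Nat.cast_nonneg _
  have hx0 : (0 : ℝ) ≤ X.card := Nat.cast_nonneg _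
  have hcardle : X.card ≤ W.card := Finset.card_le_card hXW
  have hcT : ((U2tt X W).card : ℝ) = X.card * (W.card - X.card) := by
    rw [U2_card X W hXW, Nat.cast_mul, Nat.cast_sub hcardle]
  have hhalf : (X.card : ℝ) ≤ W.card / 2 := by nlinarith
  refine (Pr_mono hp0 hp1 ?_).trans (h5.trans ?_)
  · intro A hA
    have h6 : ((A ∩ U2tt X W).card : ℝ) ≤ ∑ x ∈ X, (dg (gr A) W x : ℝ) := by
      have := U2_inter A X W
      exact_mod_cast this
    have h7 : ∑ x ∈ X, (dg (gr A) W x : ℝ) ≤ ∑ x ∈ X, ((1 - η) * p * W.card) :=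
      Finset.sum_le_sum fun x hx => (hA x hx).le
    rw [Finset.sum_const, nsmul_eq_mul] at h7
    refine h6.trans (h7.trans ?_)
    rw [hcT]
    have h8 : (1 - η) * W.card ≤ (1 - η / 2) * (W.card - X.card) := by nlinarith
    have h9 : 0 ≤ (X.card : ℝ) * p := mul_nonneg hx0 hp0
    have := mul_le_mul_of_nonneg_left h8 h9
    linarith
  · apply Real.exp_le_exp.2
    rw [hcT]
    have h9 : 0 ≤ η ^ 2 * p * X.card := by positivity
    have h10 : (W.card : ℝ) / 2 ≤ W.card - X.card := by linarith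
    have := mul_le_mul_of_nonneg_left h10 h9
    linarith

/-- the union bound -/
theorem U2_union (hCH : S_CH) {V : Type} [Fintype V] (S : Finset V) (p η w₀ x₀ c : ℝ)
    (hp0 : 0 ≤ p) (hp1 : p ≤ 1) (hη0 : 0 ≤ η) (hη1 : η ≤ 1) (hx₀ : 0 ≤ x₀) (hw₀ : 0 < w₀)
    (hxw : x₀ + 1 ≤ η * w₀ / 2) (hc : c ≤ η ^ 2 * p * x₀ / 16)
    (hN : 48 * (S.card : ℝ) ≤ Real.exp c) :
    Pr p (fun A : Finset (Sym2 V) => ¬ U2 (gr A) S p η w₀ x₀) ≤ 1 / 12 := by
  classical
  set m : ℕ := ⌊x₀⌋₊ + 1 with hm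
  have hmx : x₀ < (m : ℝ) := by rw [hm]; push_cast; exact Nat.lt_floor_add_one x₀
  have hmx1 : (m : ℝ) ≤ x₀ + 1 := by
    rw [hm]; push_cast
    have := Nat.floor_le hx₀
    linarith
  let F : Finset (Σ _ : Finset V, Finset V) :=
    (S.powerset.filter (fun W => w₀ ≤ (W.card : ℝ))).sigma
      (fun W => W.powerset.filter (fun X => X.card = m))
  have h1 : Pr p (fun A : Finset (Sym2 V) => ¬ U2 (gr A) S p η w₀ x₀) ≤
      Pr p (fun A : Finset (Sym2 V) => ∃ z ∈ F,
        (fun (z : Σ _ : Finset V, Finset V) (A : Finset (Sym2 V)) =>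
        ∀ x ∈ z.2, (dg (gr A) z.1 x : ℝ) < (1 - η) * p * z.1.card) z A) := by
    refine Pr_mono hp0 hp1 ?_
    intro A hA
    unfold U2 at hA
    push Not at hA
    obtain ⟨W, hWS, hWw, hWx⟩ := hA
    have h2 : m ≤ (W.filter (fun x => (dg (gr A) W x : ℝ) < (1 - η) * p * W.card)).card := by
      rw [hm]
      have : ⌊x₀⌋₊ < (W.filter (fun x => (dg (gr A) W x : ℝ) < (1 - η) * p * W.card)).card := by
        rw [Nat.floor_lt hx₀]
        exact lt_of_lt_of_eq hWx (congrArg (Nat.cast : ℕ → ℝ) (U2_fc W _ _ _))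
      exact this
    obtain ⟨X, hX1, hX2⟩ := Finset.exists_subset_card_eq h2
    refine ⟨⟨W, X⟩, ?_, ?_⟩
    · simp only [F, Finset.mem_sigma, Finset.mem_filter, Finset.mem_powerset]
      exact ⟨⟨hWS, hWw⟩, hX1.trans (Finset.filter_subset _ _), hX2⟩
    · intro x hx
      exact (Finset.mem_filter.1 (hX1 hx)).2
  refine h1.trans ((Pr_exists_le hp0 hp1 F _).trans ?_)
  have h2 : ∀ z ∈ F, Pr p (fun A : Finset (Sym2 V) =>
      ∀ x ∈ z.2, (dg (gr A) z.1 x : ℝ) < (1 - η) * p * z.1.card) ≤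
      Real.exp (-c) ^ z.1.card := by
    rintro ⟨W, X⟩ hz
    simp only [F, Finset.mem_sigma, Finset.mem_filter, Finset.mem_powerset] at hz
    obtain ⟨⟨hWS, hWw⟩, hXW, hXm⟩ := hz
    have hw0 : (0 : ℝ) ≤ W.card := Nat.cast_nonneg _
    refine (U2_one hCH p η hp0 hp1 hη0 hη1 X W hXW (by rw [hXm, hm]; omega) ?_).trans ?_
    · rw [hXm]
      have : η * w₀ ≤ η * W.card := mul_le_mul_of_nonneg_left hWw hη0
      linarith
    · rw [← Real.exp_nat_mul]
      apply Real.exp_le_exp.2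
      have h3 : c ≤ η ^ 2 * p * X.card / 16 := by
        refine hc.trans ?_
        have : η ^ 2 * p * x₀ ≤ η ^ 2 * p * X.card := by
          apply mul_le_mul_of_nonneg_left _ (by positivity)
          rw [hXm]; exact hmx.le
        linarith
      have := mul_le_mul_of_nonneg_right h3 hw0
      linarith
  refine (Finset.sum_le_sum h2).trans ?_
  have h3 : ∑ z ∈ F, Real.exp (-c) ^ z.1.card =
      ∑ W ∈ S.powerset.filter (fun W => w₀ ≤ (W.card : ℝ)),
        ∑ _X ∈ W.powerset.filter (fun X => X.card = m), Real.exp (-c) ^ W.card :=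
    Finset.sum_sigma _ _ _
  rw [h3]
  have h4 : ∀ W ∈ S.powerset.filter (fun W => w₀ ≤ (W.card : ℝ)),
      ∑ _X ∈ W.powerset.filter (fun X => X.card = m), Real.exp (-c) ^ W.card ≤
      (2 * Real.exp (-c)) ^ W.card := by
    intro W _
    rw [Finset.sum_const, nsmul_eq_mul, mul_pow]
    apply mul_le_mul_of_nonneg_right _ (by positivity)
    have : (W.powerset.filter (fun X => X.card = m)).card ≤ 2 ^ W.card := by
      rw [← Finset.card_powerset]
      exact Finset.card_filter_le _ _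
    exact_mod_cast this
  refine (Finset.sum_le_sum h4).trans ?_
  have h5 : ∑ W ∈ S.powerset.filter (fun W => w₀ ≤ (W.card : ℝ)), (2 * Real.exp (-c)) ^ W.card ≤
      ∑ W ∈ S.powerset.erase ∅, (2 * Real.exp (-c)) ^ W.card := by
    apply Finset.sum_le_sum_of_subset_of_nonneg
    · intro W hW
      rw [Finset.mem_filter] at hW
      rw [Finset.mem_erase]
      refine ⟨?_, hW.1⟩
      rintro rfl
      have := hW.2
      simp at this
      linarith
    · intro _ _ _
      positivity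
  refine h5.trans ?_
  have h6 := Finset.sum_pow_mul_eq_add_pow (2 * Real.exp (-c)) 1 S
  have h7 := Finset.add_sum_erase S.powerset (fun W => (2 * Real.exp (-c)) ^ W.card)
    (Finset.empty_mem_powerset S)
  simp only [one_pow, mul_one] at h6
  rw [h6] at h7
  simp only [Finset.card_empty, pow_zero] at h7
  have h8 : (2 * Real.exp (-c) + 1) ^ S.card ≤ Real.exp (S.card * (2 * Real.exp (-c))) := by
    rw [Real.exp_nat_mul]
    exact pow_le_pow_left₀ (by positivity) (Real.add_one_le_exp _) _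
  have h9 : (S.card : ℝ) * (2 * Real.exp (-c)) ≤ 1 / 24 := by
    rw [Real.exp_neg]
    have he : 0 < Real.exp c := Real.exp_pos c
    have : (S.card : ℝ) * (Real.exp c)⁻¹ ≤ 1 / 48 := by
      rw [← div_eq_mul_inv, div_le_iff₀ he]
      linarith
    linarith
  have h10 : (0 : ℝ) ≤ (S.card : ℝ) * (2 * Real.exp (-c)) := by positivity
  have h11 : Real.exp (S.card * (2 * Real.exp (-c))) ≤ 13 / 12 := by
    refine (Real.exp_le_exp.2 h9).trans ?_
    have h12 := Real.exp_bound_div_one_sub_of_interval (x := (1 : ℝ) / 24) (by norm_num)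
      (by norm_num)
    refine h12.trans (by norm_num)
  linarith

theorem U2_log_ev (ε r : ℝ) (hε : 0 < ε) (hr : 0 < r) : ∃ k₀ : ℕ, ∀ k : ℕ, k₀ ≤ k →
    Real.log k ≤ ε * (k : ℝ) ^ r := by
  have h := (isLittleO_log_rpow_atTop hr).bound hε
  have h2 := tendsto_natCast_atTop_atTop (R := ℝ) |>.eventually h
  obtain ⟨k₀, hk₀⟩ := Filter.eventually_atTop.1 h2
  refine ⟨k₀, fun k hk => ?_⟩
  have h3 := hk₀ k hk
  rw [Real.norm_eq_abs, Real.norm_eq_abs] at h3
  refine (le_abs_self _).trans (h3.trans ?_)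
  rw [abs_of_nonneg (Real.rpow_nonneg (Nat.cast_nonneg k) r)]

theorem u2 (h : S_CH) : S_U2 := by
  intro θ T hθ hT
  set M : ℝ := |Real.log (48 * T)| with hM
  have hM0 : 0 ≤ M := abs_nonneg _
  have hden : 0 < 640 + 320 * M := by positivity
  obtain ⟨k₁, hk₁⟩ := U2_log_ev (1 / (640 + 320 * M)) (1 / 20) (by positivity) (by norm_num)
  obtain ⟨k₂, hk₂⟩ := Filter.eventually_atTop.1
    ((Real.tendsto_log_atTop.comp (tendsto_natCast_atTop_atTop (R := ℝ))).eventually
      (Filter.eventually_ge_atTop (1 : ℝ)))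
  refine ⟨max (max k₁ k₂) 2, fun k V _ S hk hS1 hS2 => ?_⟩
  have hkk1 : k₁ ≤ k := (le_max_left _ _).trans ((le_max_left _ _).trans hk)
  have hkk2 : k₂ ≤ k := (le_max_right _ _).trans ((le_max_left _ _).trans hk)
  have hkk3 : 2 ≤ k := (le_max_right _ _).trans hk
  have hL := hk₁ k hkk1
  have hL1 : 1 ≤ Real.log k := hk₂ k hkk2
  set L := Real.log k with hLdef
  have hk1 : (1 : ℝ) ≤ k := by
    have : (2 : ℝ) ≤ k := by exact_mod_cast hkk3
    linarith
  have hk0 : (0 : ℝ) < k := by linarith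
  set q : ℝ := (k : ℝ) ^ ((1 : ℝ) / 20) with hq
  have hq0 : 0 < q := Real.rpow_pos_of_pos hk0 _
  have hq1 : 1 ≤ q := Real.one_le_rpow hk1 (by norm_num)
  -- powers of q
  have hq2 : q ^ 2 = (k : ℝ) ^ ((1 : ℝ) / 10) := by
    rw [hq, ← Real.rpow_natCast, ← Real.rpow_mul hk0.le]; norm_num
  have hq20 : q ^ 20 = (k : ℝ) := by
    rw [hq, ← Real.rpow_natCast, ← Real.rpow_mul hk0.le]; norm_num
  have hq22 : q ^ 22 = (k : ℝ) ^ ((11 : ℝ) / 10) := by
    rw [hq, ← Real.rpow_natCast, ← Real.rpow_mul hk0.le]; norm_num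
  have hq34 : q ^ 34 = (k : ℝ) ^ ((17 : ℝ) / 10) := by
    rw [hq, ← Real.rpow_natCast, ← Real.rpow_mul hk0.le]; norm_num
  have hL0 : 0 < L := by linarith
  have hLq : (640 + 320 * M) * L ≤ q := by
    have h1 := mul_le_mul_of_nonneg_left hL hden.le
    have h2 : (640 + 320 * M) * (1 / (640 + 320 * M) * q) = q := by
      field_simp
    linarith
  have hLq2 : 640 * L ≤ q := by
    have : 0 ≤ 320 * M * L := by positivity
    nlinarith
  have hlk : L ≤ k := by
    have := Real.log_le_sub_one_of_pos hk0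
    linarith
  refine U2_union h S (pk k) (ek k) _ _ (Real.log (48 * T) + 2 * L) ?_ ?_ ?_ ?_ ?_ ?_ ?_ ?_ ?_
  · unfold pk; positivity
  · unfold pk
    rw [div_le_one (by positivity)]
    rw [← hLdef]; linarith
  · unfold ek; rw [← hLdef]; positivity
  · unfold ek; rw [← hLdef, div_le_one hL0]; exact hL1
  · positivity
  · positivity
  · rw [← hq22, ← hq34]
    unfold ek
    rw [← hLdef]
    have h1 : q ^ 22 + 1 ≤ 2 * q ^ 22 := by
      have := one_le_pow₀ hq1 (n := 22)
      linarith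
    refine h1.trans ?_
    rw [div_mul_eq_mul_div, one_mul, div_div, le_div_iff₀ (by positivity)]
    have h2 : 4 * L ≤ q := by linarith
    have h3 : q ^ 22 * (4 * L) ≤ q ^ 22 * q := mul_le_mul_of_nonneg_left h2 (by positivity)
    have h4 : q ^ 23 ≤ q ^ 34 := pow_le_pow_right₀ hq1 (by norm_num)
    have h5 : q ^ 22 * q = q ^ 23 := by ring
    linarith
  · unfold ek pk
    rw [← hLdef, ← hq22]
    have h1 : (1 / L) ^ 2 * (L / (20 * (k : ℝ))) * q ^ 22 / 16 = q ^ 2 / (320 * L) := by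
      rw [← hq20]
      field_simp
      ring
    rw [h1, le_div_iff₀ (by positivity)]
    have h2 : Real.log (48 * T) ≤ M * L := by
      refine (le_abs_self _).trans ?_
      rw [← hM]
      nlinarith
    have h3 : (Real.log (48 * T) + 2 * L) * (320 * L) ≤ (M * L + 2 * L) * (320 * L) := by
      apply mul_le_mul_of_nonneg_right _ (by positivity)
      linarith
    refine h3.trans ?_
    have h4 : (M * L + 2 * L) * (320 * L) = ((640 + 320 * M) * L) * L := by ring
    rw [h4]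
    have h5 : L ≤ q := by linarith
    have h6 := mul_le_mul hLq h5 hL0.le hq0.le
    rw [sq]
    exact h6
  · rw [Real.exp_add, Real.exp_log (by positivity)]
    have h1 : Real.exp (2 * L) = (k : ℝ) ^ 2 := by
      rw [two_mul, Real.exp_add, hLdef, Real.exp_log hk0]; ring
    rw [h1]
    linarith

end Pool.Agent.LGC
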