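import Pool.Agent.LGC.Basic

set_option autoImplicit false

/-!
# LGC_U3: codegrees in the random graph
-/

namespace Pool.Agent.LGC

open Finset

/-- the pairs between `{x, y}` and `Z` -/
noncomputable def u3_T {V : Type} [DecidableEq V] (x y : V) (Z : Finset V) : Finset (Sym2 V) :=
  Z.image (fun z => s(x, z)) ∪ Z.image (fun z => s(y, z))

theorem u3_card {V : Type} [DecidableEq V] {x y : V} (hxy : x ≠ y) {Z : Finset V} (hx : x ∉ Z) :
    (u3_T x y Z).card = 2 * Z.card := by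
  unfold u3_T
  rw [Finset.card_union_of_disjoint, Finset.card_image_of_injective, Finset.card_image_of_injective]
  · ring
  · intro a b h
    rcases Sym2.eq_iff.1 h with ⟨-, h1⟩ | ⟨h1, h2⟩
    · exact h1
    · exact h2.trans h1
  · intro a b h
    rcases Sym2.eq_iff.1 h with ⟨-, h1⟩ | ⟨h1, h2⟩
    · exact h1
    · exact h2.trans h1
  · rw [Finset.disjoint_left]
    intro e he he'
    obtain ⟨z, hz, rfl⟩ := Finset.mem_image.1 he
    obtain ⟨z', hz', h⟩ := Finset.mem_image.1 he'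
    rw [Sym2.eq_iff] at h
    rcases h with ⟨h1, -⟩ | ⟨-, h2⟩
    · exact hxy h1.symm
    · exact hx (h2 ▸ hz')

/-- the asymptotic conditions -/
theorem u3_asymp (T : ℝ) (hT : 0 < T) : ∃ k₀ : ℕ, ∀ k : ℕ, k₀ ≤ k →
    3 * T * Real.log k ^ 2 / 400 ≤ (k : ℝ) ^ (1 / 4 : ℝ) ∧ 12 * T ^ 2 ≤ (k : ℝ) ∧
      (400 : ℝ) ≤ k := by
  have h1 : ∀ᶠ x : ℝ in Filter.atTop, ‖Real.log x‖ ≤ (1 / (1 + T)) * ‖x ^ (1 / 8 : ℝ)‖ :=
    (isLittleO_log_rpow_atTop (by norm_num : (0 : ℝ) < 1 / 8)).bound (by positivity)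
  have h2 : ∀ᶠ x : ℝ in Filter.atTop, 3 * T * Real.log x ^ 2 / 400 ≤ x ^ (1 / 4 : ℝ) ∧
      12 * T ^ 2 ≤ x ∧ (400 : ℝ) ≤ x := by
    filter_upwards [h1, Filter.eventually_ge_atTop (12 * T ^ 2),
      Filter.eventually_ge_atTop (400 : ℝ)] with x a1 a2 a3
    refine ⟨?_, a2, a3⟩
    have hx0 : 0 ≤ x := by linarith
    have hx1 : 0 ≤ x ^ (1 / 8 : ℝ) := Real.rpow_nonneg hx0 _
    rw [Real.norm_eq_abs, Real.norm_eq_abs, abs_of_nonneg hx1] at a1
    have a4 : Real.log x ^ 2 ≤ ((1 / (1 + T)) * x ^ (1 / 8 : ℝ)) ^ 2 := by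
      rw [← sq_abs (Real.log x)]
      exact pow_le_pow_left₀ (abs_nonneg _) a1 2
    have a5 : (x ^ (1 / 8 : ℝ)) ^ 2 = x ^ (1 / 4 : ℝ) := by
      rw [← Real.rpow_natCast, ← Real.rpow_mul hx0]
      norm_num
    have a6 : 0 ≤ x ^ (1 / 4 : ℝ) := Real.rpow_nonneg hx0 _
    rw [mul_pow, a5] at a4
    have a7 : 3 * T * (1 / (1 + T)) ^ 2 ≤ 400 := by
      have b1 : T * (1 / (1 + T)) ≤ 1 := by
        rw [mul_one_div, div_le_one (by linarith)]
        linarith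
      have b2 : 1 / (1 + T) ≤ 1 := by
        rw [div_le_one (by linarith)]
        linarith
      have b3 : 0 ≤ 1 / (1 + T) := by positivity
      nlinarith
    rw [div_le_iff₀ (by norm_num : (0 : ℝ) < 400)]
    calc 3 * T * Real.log x ^ 2 ≤ 3 * T * ((1 / (1 + T)) ^ 2 * x ^ (1 / 4 : ℝ)) :=
          mul_le_mul_of_nonneg_left a4 (by positivity)
      _ = (3 * T * (1 / (1 + T)) ^ 2) * x ^ (1 / 4 : ℝ) := by ring
      _ ≤ 400 * x ^ (1 / 4 : ℝ) := mul_le_mul_of_nonneg_right a7 a6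
      _ = x ^ (1 / 4 : ℝ) * 400 := by ring
  have h3 := tendsto_natCast_atTop_atTop.eventually h2
  obtain ⟨k₀, hk⟩ := Filter.eventually_atTop.1 h3
  exact ⟨k₀, hk⟩

/-- the numerical part of the union bound -/
theorem u3_num (T : ℝ) (hT : 0 < T) (k N m : ℕ) (hN : (N : ℝ) ≤ T * (k : ℝ) ^ 2)
    (h1 : 3 * T * Real.log k ^ 2 / 400 ≤ (k : ℝ) ^ (1 / 4 : ℝ)) (h2 : 12 * T ^ 2 ≤ (k : ℝ))
    (h3 : (400 : ℝ) ≤ k) (hm : (k : ℝ) ^ (1 / 2 : ℝ) < m) :
    (N : ℝ) * N * (N.choose m) * pk k ^ (2 * m) ≤ 1 / 12 := by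
  have hk0 : (0 : ℝ) < k := by linarith
  have hN0 : (0 : ℝ) ≤ N := Nat.cast_nonneg N
  have hlog : 0 ≤ Real.log k := Real.log_nonneg (by linarith)
  have hp0 : 0 ≤ pk k := by unfold pk; positivity
  have hr0 : 0 < (k : ℝ) ^ (1 / 2 : ℝ) := Real.rpow_pos_of_pos hk0 _
  have hm0 : (0 : ℝ) < m := hr0.trans hm
  have hm20 : 20 ≤ m := by
    have : (20 : ℝ) ≤ (k : ℝ) ^ (1 / 2 : ℝ) := by
      rw [← Real.sqrt_eq_rpow]
      apply Real.le_sqrt_of_sq_le
      linarith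
    have h4 : (20 : ℝ) < m := lt_of_le_of_lt this hm
    exact_mod_cast h4.le
  -- the base
  set q : ℝ := 3 * (N * pk k ^ 2) / m with hq
  have hq0 : 0 ≤ q := by positivity
  have hchoose : (N.choose m : ℝ) * pk k ^ (2 * m) ≤ q ^ m := by
    have a1 : (N.choose m : ℝ) ≤ (N : ℝ) ^ m / (m.factorial : ℝ) := Nat.choose_le_pow_div m N
    have a2 : (m : ℝ) ^ m / (m.factorial : ℝ) ≤ Real.exp m :=
      Real.pow_div_factorial_le_exp (m : ℝ) hm0.le m
    have a3 : Real.exp m ≤ 3 ^ m := by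
      have : Real.exp m = Real.exp 1 ^ m := by
        rw [← Real.exp_nat_mul, mul_one]
      rw [this]
      exact pow_le_pow_left₀ (Real.exp_pos 1).le Real.exp_one_lt_three.le m
    have hf : (0 : ℝ) < m.factorial := by exact_mod_cast m.factorial_pos
    calc (N.choose m : ℝ) * pk k ^ (2 * m)
        ≤ (N : ℝ) ^ m / (m.factorial : ℝ) * pk k ^ (2 * m) :=
          mul_le_mul_of_nonneg_right a1 (pow_nonneg hp0 _)
      _ = (N * pk k ^ 2 / m) ^ m * ((m : ℝ) ^ m / (m.factorial : ℝ)) := by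
          rw [div_pow, mul_pow, ← pow_mul]
          field_simp
      _ ≤ (N * pk k ^ 2 / m) ^ m * 3 ^ m := by
          refine mul_le_mul_of_nonneg_left (a2.trans a3) (pow_nonneg (by positivity) _)
      _ = q ^ m := by
          rw [← mul_pow, hq]
          congr 1
          ring
  have hqk : q ≤ (k : ℝ) ^ (-(1 / 4) : ℝ) := by
    have b1 : (N : ℝ) * pk k ^ 2 ≤ T * Real.log k ^ 2 / 400 := by
      have : (N : ℝ) * pk k ^ 2 ≤ T * (k : ℝ) ^ 2 * pk k ^ 2 :=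
        mul_le_mul_of_nonneg_right hN (sq_nonneg _)
      refine this.trans (le_of_eq ?_)
      unfold pk
      field_simp
      norm_num
    have b2 : 3 * (N * pk k ^ 2) ≤ (k : ℝ) ^ (1 / 4 : ℝ) := by
      refine le_trans ?_ h1
      linarith
    have b3 : (k : ℝ) ^ (-(1 / 4) : ℝ) * (k : ℝ) ^ (1 / 2 : ℝ) = (k : ℝ) ^ (1 / 4 : ℝ) := by
      rw [← Real.rpow_add hk0]
      norm_num
    rw [hq, div_le_iff₀ hm0]
    refine b2.trans ?_
    rw [← b3]
    exact mul_le_mul_of_nonneg_left hm.le (Real.rpow_nonneg hk0.le _)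
  have hk1 : (k : ℝ) ^ (-(1 / 4) : ℝ) ≤ 1 :=
    Real.rpow_le_one_of_one_le_of_nonpos (by linarith) (by norm_num)
  have hqm : q ^ m ≤ 1 / (k : ℝ) ^ 5 := by
    calc q ^ m ≤ q ^ 20 := pow_le_pow_of_le_one hq0 (hqk.trans hk1) hm20
      _ ≤ ((k : ℝ) ^ (-(1 / 4) : ℝ)) ^ 20 := pow_le_pow_left₀ hq0 hqk 20
      _ = 1 / (k : ℝ) ^ 5 := by
          rw [← Real.rpow_natCast, ← Real.rpow_mul hk0.le]
          have : (-(1 / 4) : ℝ) * ((20 : ℕ) : ℝ) = -((5 : ℕ) : ℝ) := by norm_num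
          rw [this, Real.rpow_neg hk0.le, Real.rpow_natCast, one_div]
  calc (N : ℝ) * N * (N.choose m) * pk k ^ (2 * m)
      = (N * N) * ((N.choose m : ℝ) * pk k ^ (2 * m)) := by ring
    _ ≤ (T * (k : ℝ) ^ 2 * (T * (k : ℝ) ^ 2)) * (1 / (k : ℝ) ^ 5) := by
        refine mul_le_mul (mul_le_mul hN hN hN0 (by positivity)) (hchoose.trans hqm)
          (mul_nonneg (Nat.cast_nonneg _) (pow_nonneg hp0 _)) (by positivity)
    _ = T ^ 2 / k := by
        field_simp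
    _ ≤ 1 / 12 := by
        rw [div_le_div_iff₀ hk0 (by norm_num)]
        linarith

theorem u3 (h : S_CH) : S_U3 := by
  intro θ T hθ hT
  obtain ⟨k₀, hk₀⟩ := u3_asymp T hT
  refine ⟨k₀, ?_⟩
  intro k V _ S hk _ hS2
  classical
  obtain ⟨h1, h2, h3⟩ := hk₀ k hk
  have hk0 : (0 : ℝ) < k := by linarith
  have hlog : 0 ≤ Real.log k := Real.log_nonneg (by linarith)
  have hp0 : 0 ≤ pk k := by unfold pk; positivity
  have hp1 : pk k ≤ 1 := by
    unfold pk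
    rw [div_le_one (by positivity)]
    have := Real.log_le_sub_one_of_pos hk0
    linarith
  obtain ⟨m, hm⟩ : ∃ m : ℕ, m = ⌊(k : ℝ) ^ (1 / 2 : ℝ)⌋₊ + 1 := ⟨_, rfl⟩
  have hm1 : (k : ℝ) ^ (1 / 2 : ℝ) < m := by
    rw [hm]
    push_cast
    exact Nat.lt_floor_add_one _
  set F : Finset ((V × V) × Finset V) := ((S ×ˢ S) ×ˢ S.powersetCard m).filter
    (fun t => t.1.1 ≠ t.1.2 ∧ t.1.1 ∉ t.2) with hF
  have hev : ∀ A : Finset (Sym2 V), ¬ U3 (gr A) S ((k : ℝ) ^ (1 / 2 : ℝ)) →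
      ∃ t ∈ F, u3_T t.1.1 t.1.2 t.2 ⊆ A := by
    intro A hA
    unfold U3 at hA
    push Not at hA
    obtain ⟨x, hx, y, hy, hxy, hc⟩ := hA
    unfold cdg at hc
    have hmc : m ≤ (S.filter (fun z => (gr A).Adj x z ∧ (gr A).Adj y z)).card := by
      rw [hm, Nat.add_one_le_iff]
      exact (Nat.floor_lt (Real.rpow_nonneg hk0.le _)).2 hc
    obtain ⟨Z, hZ, hZc⟩ := Finset.exists_subset_card_eq hmc
    have hmem : ∀ z ∈ Z, z ∈ S ∧ (gr A).Adj x z ∧ (gr A).Adj y z := by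
      intro z hz
      have := Finset.mem_filter.1 (hZ hz)
      exact ⟨this.1, this.2.1, this.2.2⟩
    refine ⟨((x, y), Z), ?_, ?_⟩
    · rw [hF, Finset.mem_filter]
      refine ⟨?_, hxy, ?_⟩
      · simp only [Finset.mem_product, Finset.mem_powersetCard]
        exact ⟨⟨hx, hy⟩, fun z hz => (hmem z hz).1, hZc⟩
      · intro hxZ
        have := (hmem x hxZ).2.1
        exact this.ne rfl
    · intro e he
      unfold u3_T at he
      rcases Finset.mem_union.1 he with he | he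
      · obtain ⟨z, hz, rfl⟩ := Finset.mem_image.1 he
        exact ((gr_adj A x z).1 (hmem z hz).2.1).1
      · obtain ⟨z, hz, rfl⟩ := Finset.mem_image.1 he
        exact ((gr_adj A y z).1 (hmem z hz).2.2).1
  have hcard : ∀ t ∈ F, Pr (pk k) (fun A : Finset (Sym2 V) => u3_T t.1.1 t.1.2 t.2 ⊆ A) =
      pk k ^ (2 * m) := by
    intro t ht
    rw [hF, Finset.mem_filter] at ht
    obtain ⟨ht1, ht2, ht3⟩ := ht
    simp only [Finset.mem_product, Finset.mem_powersetCard] at ht1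
    rw [(h (Sym2 V) (pk k) hp0 hp1).1, u3_card ht2 ht3, ht1.2.2]
  have hFc : (F.card : ℝ) ≤ (S.card : ℝ) * S.card * (S.card.choose m) := by
    have : F.card ≤ S.card * S.card * S.card.choose m := by
      refine (Finset.card_filter_le _ _).trans (le_of_eq ?_)
      rw [Finset.card_product, Finset.card_product, Finset.card_powersetCard]
    exact_mod_cast this
  calc Pr (pk k) (fun A : Finset (Sym2 V) => ¬ U3 (gr A) S ((k : ℝ) ^ (1 / 2 : ℝ)))
      ≤ Pr (pk k) (fun A : Finset (Sym2 V) => ∃ t ∈ F, u3_T t.1.1 t.1.2 t.2 ⊆ A) :=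
        Pr_mono hp0 hp1 hev
    _ ≤ ∑ t ∈ F, Pr (pk k) (fun A : Finset (Sym2 V) => u3_T t.1.1 t.1.2 t.2 ⊆ A) :=
        Pr_exists_le hp0 hp1 F (fun t A => u3_T t.1.1 t.1.2 t.2 ⊆ A)
    _ = F.card * pk k ^ (2 * m) := by
        rw [Finset.sum_congr rfl hcard, Finset.sum_const, nsmul_eq_mul]
    _ ≤ (S.card : ℝ) * S.card * (S.card.choose m) * pk k ^ (2 * m) :=
        mul_le_mul_of_nonneg_right hFc (pow_nonneg hp0 _)
    _ ≤ 1 / 12 := u3_num T hT k S.card m hS2 h1 h2 h3 hm1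

end Pool.Agent.LGC
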