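import Pool.Agent.LGC.Basic

set_option autoImplicit false

/-!
# LGC_UP: the upper bound
-/

namespace Pool.Agent.LGC

open Finset

theorem up_choose_le {n : ℕ} (hn : 1 ≤ n) (r : ℕ) :
    (n.choose r : ℝ) ≤ Real.exp (r * Real.log n) := by
  have h1 : (n.choose r : ℝ) ≤ (n : ℝ) ^ r := by exact_mod_cast Nat.choose_le_pow n r
  have h2 : Real.exp (r * Real.log n) = (n : ℝ) ^ r := by
    rw [Real.exp_nat_mul, Real.exp_log (by exact_mod_cast hn)]
  rw [h2]
  exact h1

theorem up_ind_disj {n : ℕ} (A : Finset (Sym2 (Fin n))) (I : Finset (Fin n))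
    (h : Ind (gr A) ∅ I) : Disjoint A (I.offDiag.image Sym2.mk.uncurry) := by
  rw [Finset.disjoint_left]
  intro e he hT
  rw [Finset.mem_image] at hT
  obtain ⟨⟨x, y⟩, hxy, rfl⟩ := hT
  rw [Finset.mem_offDiag] at hxy
  obtain ⟨hx, hy, hne⟩ := hxy
  exact (h x hx y hy hne).1 ((gr_adj A x y).2 ⟨he, hne⟩)

theorem up_indep (h1 : S_CH) {n : ℕ} (hn : 1 ≤ n) (q : ℕ) (p : ℝ) (hp0 : 0 ≤ p) (hp1 : p ≤ 1) :
    Pr p (fun A : Finset (Sym2 (Fin n)) =>
      ∃ I ∈ (univ : Finset (Fin n)).powersetCard q, Ind (gr A) ∅ I) ≤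
      Real.exp (q * (Real.log n - p * (q - 1) / 2)) := by
  refine (Pr_exists_le hp0 hp1 _ _).trans ?_
  have hI : ∀ I ∈ (univ : Finset (Fin n)).powersetCard q,
      Pr p (fun A : Finset (Sym2 (Fin n)) => Ind (gr A) ∅ I) ≤
        Real.exp (-(q * (p * (q - 1) / 2))) := by
    intro I hI
    rw [Finset.mem_powersetCard] at hI
    refine (Pr_mono hp0 hp1 (fun A hA => up_ind_disj A I hA)).trans ?_
    rw [(h1 (Sym2 (Fin n)) p hp0 hp1).2.1, Sym2.card_image_offDiag, hI.2]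
    calc (1 - p) ^ (q.choose 2) ≤ (Real.exp (-p)) ^ (q.choose 2) :=
          pow_le_pow_left₀ (by linarith) (Real.one_sub_le_exp_neg p) _
      _ = Real.exp (-(q * (p * (q - 1) / 2))) := by
          rw [← Real.exp_nat_mul, Nat.cast_choose_two]
          congr 1
          ring
  refine (Finset.sum_le_sum hI).trans ?_
  rw [Finset.sum_const, Finset.card_powersetCard, Finset.card_univ, Fintype.card_fin, nsmul_eq_mul]
  calc (n.choose q : ℝ) * Real.exp (-(q * (p * (q - 1) / 2)))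
      ≤ Real.exp (q * Real.log n) * Real.exp (-(q * (p * (q - 1) / 2))) :=
        mul_le_mul_of_nonneg_right (up_choose_le hn q) (Real.exp_pos _).le
    _ = Real.exp (q * (Real.log n - p * (q - 1) / 2)) := by
        rw [← Real.exp_add]
        congr 1
        ring

theorem up_exp : Real.exp (-2) ≤ 3 / 16 := by
  have h := Real.exp_one_gt_d9
  have h2 : Real.exp 2 = Real.exp 1 * Real.exp 1 := by
    rw [← Real.exp_add]
    norm_num
  rw [Real.exp_neg]
  have h3 : (16 / 3 : ℝ) ≤ Real.exp 2 := by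
    rw [h2]
    nlinarith
  calc (Real.exp 2)⁻¹ ≤ (16 / 3 : ℝ)⁻¹ := inv_anti₀ (by norm_num) h3
    _ = 3 / 16 := by norm_num

/-- The probability that some set of `s` vertices has no independent `k`-subset. -/
theorem up_bad {n s k : ℕ} (hn : 1 ≤ n) (p κ a b : ℝ) (hp0 : 0 ≤ p) (hp1 : p ≤ 1)
    (hb : 0 < b) (ha : 0 < a) (hκ : κ = 1024 * b / a) (hk : 0 < k)
    (hs : a * Real.log n ^ 2 ≤ s) (hkb : (k : ℝ) ≤ 2 * b * Real.log n) (hL : 1 ≤ Real.log n)
    (haL : κ + 2 ≤ a * Real.log n)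
    (hP : ∀ S : Finset (Fin n), S.card = s →
      Pr p (fun A : Finset (Sym2 (Fin n)) => ¬ ∃ I ⊆ S, I.card = k ∧ Ind (gr A) ∅ I) *
        Real.exp κ ^ (s ^ 2 / (256 * k)) ≤ 4 / 3) :
    Pr p (fun A : Finset (Sym2 (Fin n)) => ∃ S ∈ (univ : Finset (Fin n)).powersetCard s,
      ¬ ∃ I ⊆ S, I.card = k ∧ Ind (gr A) ∅ I) ≤ 1 / 4 := by
  set L := Real.log n with hLdef
  have hκ0 : 0 < κ := by rw [hκ]; positivity
  have hk' : (0 : ℝ) < k := by exact_mod_cast hk
  have hL0 : 0 < L := by linarith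
  have hs0 : (0 : ℝ) < s := lt_of_lt_of_le (by positivity) hs
  -- the exponent
  have hh : (s : ℝ) ^ 2 / (256 * k) - 1 ≤ ((s ^ 2 / (256 * k) : ℕ) : ℝ) := by
    have h1 : s ^ 2 < 256 * k * (s ^ 2 / (256 * k) + 1) := Nat.lt_mul_div_succ _ (by positivity)
    have h2 : ((s ^ 2 : ℕ) : ℝ) < ((256 * k * (s ^ 2 / (256 * k) + 1) : ℕ) : ℝ) := by
      exact_mod_cast h1
    push_cast at h2
    rw [sub_le_iff_le_add, div_le_iff₀ (by positivity)]
    push_cast
    nlinarith
  have hsk : a * L / (2 * b) ≤ (s : ℝ) / k := by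
    rw [div_le_div_iff₀ (by positivity) hk']
    have : a * L * k ≤ a * L * (2 * b * L) := mul_le_mul_of_nonneg_left hkb (by positivity)
    have h3 : a * L ^ 2 * (2 * b) ≤ s * (2 * b) := mul_le_mul_of_nonneg_right hs (by positivity)
    nlinarith
  have hexp : 2 * s * L - κ ≤ ((s ^ 2 / (256 * k) : ℕ) : ℝ) * κ := by
    have h1 : (s : ℝ) ^ 2 / (256 * k) = s / 256 * (s / k) := by field_simp
    have h2 : s / 256 * (a * L / (2 * b)) ≤ (s : ℝ) ^ 2 / (256 * k) := by
      rw [h1]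
      exact mul_le_mul_of_nonneg_left hsk (by positivity)
    have h3 : (s / 256 * (a * L / (2 * b))) * κ = 2 * s * L := by
      rw [hκ]
      field_simp
      ring
    have h4 : (s / 256 * (a * L / (2 * b)) - 1) * κ ≤ ((s ^ 2 / (256 * k) : ℕ) : ℝ) * κ :=
      mul_le_mul_of_nonneg_right (by linarith) hκ0.le
    nlinarith
  refine (Pr_exists_le hp0 hp1 _ _).trans ?_
  have hS : ∀ S ∈ (univ : Finset (Fin n)).powersetCard s,
      Pr p (fun A : Finset (Sym2 (Fin n)) => ¬ ∃ I ⊆ S, I.card = k ∧ Ind (gr A) ∅ I) ≤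
        4 / 3 * Real.exp (-(2 * s * L - κ)) := by
    intro S hS
    have h1 := hP S (Finset.mem_powersetCard.1 hS).2
    rw [← Real.exp_nat_mul] at h1
    have h2 : 0 ≤ Pr p (fun A : Finset (Sym2 (Fin n)) =>
        ¬ ∃ I ⊆ S, I.card = k ∧ Ind (gr A) ∅ I) := Pr_nonneg hp0 hp1 _
    have h3 : Real.exp (2 * s * L - κ) ≤ Real.exp (((s ^ 2 / (256 * k) : ℕ) : ℝ) * κ) :=
      Real.exp_le_exp.2 hexp
    rw [Real.exp_neg, ← div_eq_mul_inv, le_div_iff₀ (Real.exp_pos _)]
    exact (mul_le_mul_of_nonneg_left h3 h2).trans h1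
  refine (Finset.sum_le_sum hS).trans ?_
  rw [Finset.sum_const, Finset.card_powersetCard, Finset.card_univ, Fintype.card_fin, nsmul_eq_mul]
  have hsL : κ + 2 ≤ s * L := by
    have h1 : a * L ^ 2 * L ≤ s * L := mul_le_mul_of_nonneg_right hs hL0.le
    have h2 : a * L * 1 ≤ a * L * (L * L) := by
      apply mul_le_mul_of_nonneg_left _ (by positivity)
      nlinarith
    nlinarith
  calc (n.choose s : ℝ) * (4 / 3 * Real.exp (-(2 * s * L - κ)))
      ≤ Real.exp (s * L) * (4 / 3 * Real.exp (-(2 * s * L - κ))) :=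
        mul_le_mul_of_nonneg_right (up_choose_le hn s) (by positivity)
    _ = 4 / 3 * Real.exp (κ - s * L) := by
        have : Real.exp (κ - s * L) = Real.exp (s * L) * Real.exp (-(2 * s * L - κ)) := by
          rw [← Real.exp_add]
          congr 1
          ring
        rw [this]
        ring
    _ ≤ 4 / 3 * Real.exp (-2) := by
        apply mul_le_mul_of_nonneg_left _ (by norm_num)
        exact Real.exp_le_exp.2 (by linarith)
    _ ≤ 1 / 4 := by
        have := up_exp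
        linarith

/-- LGC_UP -/
theorem up (h1 : S_CH) (h2 : S_BAD) : S_UP := by
  intro a b ha hb
  obtain ⟨k₀, hk₀⟩ := h2 (a / (4 * b ^ 2)) (2 * a / b ^ 2) (by positivity) (by positivity)
  obtain ⟨κ, hκ⟩ : ∃ κ : ℝ, κ = 1024 * b / a := ⟨_, rfl⟩
  have hκ0 : 0 < κ := by rw [hκ]; positivity
  have hK1 : 1 ≤ Real.exp κ := Real.one_le_exp hκ0.le
  refine ⟨320 * Real.exp κ * b + 3, by positivity,
    ⌈Real.exp (3 + k₀ / b + 2 / b + 1 / b ^ 2 + (κ + 2) / a + 1 / a)⌉₊, fun n hn => ?_⟩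
  have hn' : Real.exp (3 + k₀ / b + 2 / b + 1 / b ^ 2 + (κ + 2) / a + 1 / a) ≤ n :=
    (Nat.le_ceil _).trans (by exact_mod_cast hn)
  have hn0 : (0 : ℝ) < n := lt_of_lt_of_le (Real.exp_pos _) hn'
  have hn1 : 1 ≤ n := by exact_mod_cast hn0
  have hL : 3 + k₀ / b + 2 / b + 1 / b ^ 2 + (κ + 2) / a + 1 / a ≤ Real.log n := by
    rw [Real.le_log_iff_exp_le hn0]
    exact hn'
  have p1 : 0 ≤ (k₀ : ℝ) / b := by positivity
  have p2 : 0 < 2 / b := by positivity
  have p3 : 0 < 1 / b ^ 2 := by positivity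
  have p4 : 0 < (κ + 2) / a := by positivity
  have p5 : 0 < 1 / a := by positivity
  obtain ⟨L, hLdef⟩ : ∃ L : ℝ, L = Real.log n := ⟨_, rfl⟩
  rw [← hLdef] at hL
  have hL3 : 3 ≤ L := by linarith
  have hL0 : 0 < L := by linarith
  have c1 : (k₀ : ℝ) ≤ b * L := by
    have : (k₀ : ℝ) / b ≤ L := by linarith
    rwa [div_le_iff₀ hb, mul_comm] at this
  have c2 : 2 ≤ b * L := by
    have : 2 / b ≤ L := by linarith
    rwa [div_le_iff₀ hb, mul_comm] at this
  have c3 : 1 ≤ b ^ 2 * L := by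
    have : 1 / b ^ 2 ≤ L := by linarith
    rwa [div_le_iff₀ (by positivity), mul_comm] at this
  have c4 : κ + 2 ≤ a * L := by
    have : (κ + 2) / a ≤ L := by linarith
    rwa [div_le_iff₀ ha, mul_comm] at this
  have c5 : 1 ≤ a * L := by
    have : 1 / a ≤ L := by linarith
    rwa [div_le_iff₀ ha, mul_comm] at this
  -- the sizes
  obtain ⟨k, hk⟩ : ∃ k : ℕ, k = ⌈b * L⌉₊ := ⟨_, rfl⟩
  obtain ⟨s, hs⟩ : ∃ s : ℕ, s = ⌈a * L ^ 2⌉₊ := ⟨_, rfl⟩
  have hk1 : b * L ≤ k := by rw [hk]; exact Nat.le_ceil _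
  have hk2 : (k : ℝ) ≤ 2 * b * L := by
    have : (k : ℝ) < b * L + 1 := by rw [hk]; exact Nat.ceil_lt_add_one (by positivity)
    linarith
  have hs1 : a * L ^ 2 ≤ s := by rw [hs]; exact Nat.le_ceil _
  have hs2 : (s : ℝ) ≤ 2 * a * L ^ 2 := by
    have : (s : ℝ) < a * L ^ 2 + 1 := by rw [hs]; exact Nat.ceil_lt_add_one (by positivity)
    nlinarith
  have hkk : k₀ ≤ k := by
    have : (k₀ : ℝ) ≤ k := c1.trans hk1
    exact_mod_cast this
  have hk2' : (2 : ℝ) ≤ k := c2.trans hk1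
  have hkpos : 0 < k := by
    have : (0 : ℝ) < k := by linarith
    exact_mod_cast this
  have hkr : (0 : ℝ) < k := by linarith
  have hθ : a / (4 * b ^ 2) * (k : ℝ) ^ 2 ≤ s := by
    have h3 : (k : ℝ) ^ 2 ≤ (2 * b * L) ^ 2 := pow_le_pow_left₀ hkr.le hk2 2
    calc a / (4 * b ^ 2) * (k : ℝ) ^ 2 ≤ a / (4 * b ^ 2) * (2 * b * L) ^ 2 :=
          mul_le_mul_of_nonneg_left h3 (by positivity)
      _ = a * L ^ 2 := by field_simp; ring
      _ ≤ s := hs1
  have hT : (s : ℝ) ≤ 2 * a / b ^ 2 * (k : ℝ) ^ 2 := by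
    have h3 : (b * L) ^ 2 ≤ (k : ℝ) ^ 2 := pow_le_pow_left₀ (by positivity) hk1 2
    calc (s : ℝ) ≤ 2 * a * L ^ 2 := hs2
      _ = 2 * a / b ^ 2 * (b * L) ^ 2 := by field_simp
      _ ≤ 2 * a / b ^ 2 * (k : ℝ) ^ 2 := mul_le_mul_of_nonneg_left h3 (by positivity)
  -- the density
  have hlogk : 0 < Real.log k := Real.log_pos (by linarith)
  have hlogk2 : Real.log L / 2 ≤ Real.log k := by
    have h3 : Real.log L ≤ 2 * Real.log k := by
      have h4 : L ≤ (k : ℝ) ^ 2 := by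
        have h5 : (b * L) ^ 2 ≤ (k : ℝ) ^ 2 := pow_le_pow_left₀ (by positivity) hk1 2
        nlinarith
      have h6 := Real.log_le_log hL0 h4
      rw [Real.log_pow] at h6
      exact_mod_cast h6
    linarith
  have hlogL : 1 ≤ Real.log L := by
    rw [Real.le_log_iff_exp_le hL0]
    have := Real.exp_one_lt_d9
    linarith
  have hlogL2 : Real.log L ≤ L := by
    have := Real.log_le_sub_one_of_pos hL0
    linarith
  obtain ⟨p, hp⟩ : ∃ p : ℝ, p = pk k / Real.exp κ := ⟨_, rfl⟩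
  have hpk : 0 < pk k := by unfold pk; positivity
  have hpk1 : pk k ≤ 1 := by
    unfold pk
    rw [div_le_one (by positivity)]
    have := Real.log_le_sub_one_of_pos hkr
    linarith
  have hp0 : 0 < p := by rw [hp]; positivity
  have hp1 : p ≤ 1 := by
    rw [hp, div_le_one (Real.exp_pos _)]
    linarith
  -- the first event
  have hbad := up_bad (n := n) (s := s) (k := k) hn1 p κ a b hp0.le hp1 hb ha hκ hkpos
    (by rw [← hLdef]; exact hs1) (by rw [← hLdef]; exact hk2) (by rw [← hLdef]; linarith)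
    (by rw [← hLdef]; exact c4) (by
      intro S hS
      have h3 := hk₀ k (Fin n) S (Real.exp κ) hkk hK1 (by rw [hS]; exact hθ) (by rw [hS]; exact hT)
      rw [← hp, hS] at h3
      exact h3)
  -- the second event
  obtain ⟨q, hq⟩ : ∃ q : ℕ, q = ⌈4 * L / p⌉₊ + 2 := ⟨_, rfl⟩
  have hq1 : 4 * L / p + 2 ≤ q := by
    rw [hq]
    push_cast
    linarith [Nat.le_ceil (4 * L / p)]
  have hq2 : (q : ℝ) ≤ 4 * L / p + 3 := by
    rw [hq]
    push_cast
    linarith [Nat.ceil_lt_add_one (show 0 ≤ 4 * L / p by positivity)]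
  have hpq : 2 * L ≤ p * (q - 1) / 2 := by
    have h3 : 4 * L / p ≤ q - 1 := by linarith
    rw [div_le_iff₀ hp0] at h3
    linarith
  have hq0 : (1 : ℝ) ≤ q := by
    have : 0 < 4 * L / p := by positivity
    linarith
  have hind := up_indep h1 (n := n) hn1 q p hp0.le hp1
  rw [← hLdef] at hind
  have hind2 : Real.exp (q * (L - p * (q - 1) / 2)) ≤ 1 / 4 := by
    have h3 : (q : ℝ) * (L - p * (q - 1) / 2) ≤ -2 := by
      have h4 : (q : ℝ) * (L - p * (q - 1) / 2) ≤ q * (-L) :=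
        mul_le_mul_of_nonneg_left (by linarith) (by linarith)
      nlinarith
    have h5 := Real.exp_le_exp.2 h3
    have := up_exp
    linarith
  -- a good graph
  have hor := Pr_or_le (ι := Sym2 (Fin n)) hp0.le hp1
    (fun A => ∃ S ∈ (univ : Finset (Fin n)).powersetCard s,
      ¬ ∃ I ⊆ S, I.card = k ∧ Ind (gr A) ∅ I)
    (fun A => ∃ I ∈ (univ : Finset (Fin n)).powersetCard q, Ind (gr A) ∅ I)
  obtain ⟨A, hA⟩ : ∃ A : Finset (Sym2 (Fin n)),
      ¬ ((∃ S ∈ (univ : Finset (Fin n)).powersetCard s,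
        ¬ ∃ I ⊆ S, I.card = k ∧ Ind (gr A) ∅ I) ∨
        ∃ I ∈ (univ : Finset (Fin n)).powersetCard q, Ind (gr A) ∅ I) := by
    by_contra hcon
    push Not at hcon
    have h3 := Pr_mono (ι := Sym2 (Fin n)) hp0.le hp1 (Q := fun _ => True)
      (Q' := fun A => (∃ S ∈ (univ : Finset (Fin n)).powersetCard s,
        ¬ ∃ I ⊆ S, I.card = k ∧ Ind (gr A) ∅ I) ∨
        ∃ I ∈ (univ : Finset (Fin n)).powersetCard q, Ind (gr A) ∅ I) (fun A _ => by
          rcases hcon A with h | h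
          · left
            obtain ⟨S, hS, h⟩ := h
            exact ⟨S, hS, fun ⟨I, h4, h5, h6⟩ => h I h4 h5 h6⟩
          · right
            exact h)
    rw [Pr_true] at h3
    linarith
  rw [not_or] at hA
  obtain ⟨hA1, hA2⟩ := hA
  refine ⟨(gr A)ᶜ, ?_, ?_⟩
  · intro S hS
    rw [← hLdef, ← hs] at hS
    by_contra hcon
    apply hA1
    refine ⟨S, Finset.mem_powersetCard.2 ⟨Finset.subset_univ _, hS⟩, ?_⟩
    rintro ⟨I, hIS, hIk, hI⟩
    apply hcon
    refine ⟨I, hIS, ?_, ?_⟩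
    · rw [hIk, hk, hLdef]
    · intro x hx y hy hne
      rw [SimpleGraph.compl_adj]
      exact ⟨hne, (hI x (Finset.mem_coe.1 hx) y (Finset.mem_coe.1 hy) hne).1⟩
  · intro Q hQ
    rw [← hLdef]
    have hQq : Q.card < q := by
      by_contra hcon
      rw [not_lt] at hcon
      obtain ⟨I, hIQ, hIq⟩ := Finset.exists_subset_card_eq hcon
      apply hA2
      refine ⟨I, Finset.mem_powersetCard.2 ⟨Finset.subset_univ _, hIq⟩, ?_⟩
      intro x hx y hy hne
      have h3 := hQ (Finset.mem_coe.2 (hIQ hx)) (Finset.mem_coe.2 (hIQ hy)) hne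
      rw [SimpleGraph.compl_adj] at h3
      exact ⟨h3.2, Finset.notMem_empty _⟩
    have hQr : (Q.card : ℝ) ≤ q := by exact_mod_cast hQq.le
    have hdiv : 1 ≤ L ^ 2 / Real.log L := by
      rw [le_div_iff₀ (by linarith)]
      nlinarith
    have hp4 : 4 * L / p ≤ 320 * Real.exp κ * b * (L ^ 2 / Real.log L) := by
      rw [hp]
      unfold pk
      have h3 : 4 * L / (Real.log k / (20 * k) / Real.exp κ) =
          80 * Real.exp κ * L * k / Real.log k := by
        field_simp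
        ring
      rw [h3, div_le_iff₀ hlogk]
      have h4 : 320 * Real.exp κ * b * (L ^ 2 / Real.log L) * (Real.log L / 2) =
          160 * Real.exp κ * b * L ^ 2 := by
        have : Real.log L ≠ 0 := by linarith
        field_simp
        ring
      have h5 : 320 * Real.exp κ * b * (L ^ 2 / Real.log L) * (Real.log L / 2) ≤
          320 * Real.exp κ * b * (L ^ 2 / Real.log L) * Real.log k :=
        mul_le_mul_of_nonneg_left hlogk2 (by positivity)
      have h6 : 80 * Real.exp κ * L * k ≤ 80 * Real.exp κ * L * (2 * b * L) :=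
        mul_le_mul_of_nonneg_left hk2 (by positivity)
      nlinarith
    calc (Q.card : ℝ) ≤ q := hQr
      _ ≤ 4 * L / p + 3 := hq2
      _ ≤ 320 * Real.exp κ * b * (L ^ 2 / Real.log L) + 3 * (L ^ 2 / Real.log L) := by
          linarith
      _ = (320 * Real.exp κ * b + 3) * (L ^ 2 / Real.log L) := by ring

end Pool.Agent.LGC
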