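import Pool.Agent.LGC.Iso
import Pool.Agent.LGC.Ch
import Pool.Agent.LGC.Det
import Pool.Agent.LGC.U1
import Pool.Agent.LGC.U2
import Pool.Agent.LGC.U3
import Pool.Agent.LGC.Num
import Pool.Agent.LGC.Bad
import Pool.Agent.LGC.Up
import Pool.Agent.LGC.Low1
import Pool.Agent.LGC.Low

set_option autoImplicit false

/-!
# Assembly
-/

namespace Pool.Agent.LGC

theorem bad_all : S_BAD := bad iso det (u1 ch) (u2 ch) (u3 ch) num

theorem up_all : S_UP := up ch bad_all

theorem low_all : S_LOW := low low1

end Pool.Agent.LGC
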