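import Pool.Agent.LGC.Stmts

set_option autoImplicit false

/-!
# Basic properties of the product measures
-/

namespace Pool.Agent.LGC

open Finset

variable {ι : Type} [Fintype ι]

theorem wt_nonneg {p : ℝ} (h0 : 0 ≤ p) (h1 : p ≤ 1) (A : Finset ι) : 0 ≤ wt p A :=
  mul_nonneg (pow_nonneg h0 _) (pow_nonneg (by linarith) _)

theorem Pr_nonneg {p : ℝ} (h0 : 0 ≤ p) (h1 : p ≤ 1) (Q : Finset ι → Prop) : 0 ≤ Pr p Q :=
  Finset.sum_nonneg fun _ _ => wt_nonneg h0 h1 _

theorem Pr_mono {p : ℝ} (h0 : 0 ≤ p) (h1 : p ≤ 1) {Q Q' : Finset ι → Prop}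
    (h : ∀ A, Q A → Q' A) : Pr p Q ≤ Pr p Q' := by
  classical
  unfold Pr
  apply Finset.sum_le_sum_of_subset_of_nonneg
  · intro A hA
    simp only [Finset.mem_filter, Finset.mem_univ, true_and] at hA ⊢
    exact h A hA
  · exact fun _ _ _ => wt_nonneg h0 h1 _

/-- the probability as a sum of indicators, for every choice of the decidability instance -/
theorem Pr_eq (p : ℝ) (Q : Finset ι → Prop) [DecidablePred Q] :
    Pr p Q = ∑ A : Finset ι, if Q A then wt p A else 0 := by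
  unfold Pr
  rw [Finset.sum_filter]
  refine Finset.sum_congr rfl fun A _ => ?_
  by_cases h : Q A
  · rw [if_pos h, if_pos h]
  · rw [if_neg h, if_neg h]

/-- total mass -/
theorem sum_wt (p : ℝ) : ∑ A : Finset ι, wt p A = 1 := by
  classical
  have h := Finset.prod_add (fun _ : ι => p) (fun _ : ι => 1 - p) (Finset.univ : Finset ι)
  have h2 : ∏ _i : ι, (p + (1 - p)) = 1 := by simp
  rw [h2] at h
  rw [h, Finset.powerset_univ]
  refine Finset.sum_congr rfl fun A _ => ?_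
  rw [Finset.prod_const, Finset.prod_const]
  unfold wt
  congr 2
  rw [Finset.card_sdiff_of_subset (Finset.subset_univ A), Finset.card_univ]

theorem Pr_true (p : ℝ) : Pr p (fun _ : Finset ι => True) = 1 := by
  classical
  rw [Pr_eq]
  simp [sum_wt]

theorem Pr_le_one {p : ℝ} (h0 : 0 ≤ p) (h1 : p ≤ 1) (Q : Finset ι → Prop) : Pr p Q ≤ 1 :=
  (Pr_mono h0 h1 fun _ _ => trivial).trans (Pr_true p).le

theorem Pr_not (p : ℝ) (Q : Finset ι → Prop) : Pr p (fun A => ¬ Q A) = 1 - Pr p Q := by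
  classical
  rw [Pr_eq, Pr_eq, ← sum_wt (ι := ι) p, ← Finset.sum_sub_distrib]
  refine Finset.sum_congr rfl fun A _ => ?_
  by_cases h : Q A <;> simp [h]

theorem Pr_or_le {p : ℝ} (h0 : 0 ≤ p) (h1 : p ≤ 1) (Q Q' : Finset ι → Prop) :
    Pr p (fun A => Q A ∨ Q' A) ≤ Pr p Q + Pr p Q' := by
  classical
  rw [Pr_eq, Pr_eq, Pr_eq, ← Finset.sum_add_distrib]
  refine Finset.sum_le_sum fun A _ => ?_
  have := wt_nonneg h0 h1 A
  by_cases h : Q A <;> by_cases h' : Q' A <;> simp [h, h', this]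

/-- union bound over a finite family -/
theorem Pr_exists_le {p : ℝ} (h0 : 0 ≤ p) (h1 : p ≤ 1) {κ : Type*} (s : Finset κ)
    (Q : κ → Finset ι → Prop) :
    Pr p (fun A => ∃ i ∈ s, Q i A) ≤ ∑ i ∈ s, Pr p (Q i) := by
  classical
  induction s using Finset.induction_on with
  | empty =>
    simp [Pr]
  | insert a s ha ih =>
    rw [Finset.sum_insert ha]
    refine le_trans (Pr_mono h0 h1 (Q' := fun A => Q a A ∨ ∃ i ∈ s, Q i A) ?_)
      ((Pr_or_le h0 h1 _ _).trans (by linarith))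
    rintro A ⟨i, hi, hq⟩
    rcases Finset.mem_insert.1 hi with rfl | hi
    · exact Or.inl hq
    · exact Or.inr ⟨i, hi, hq⟩

theorem gr_adj {V : Type} (A : Finset (Sym2 V)) (x y : V) :
    (gr A).Adj x y ↔ s(x, y) ∈ A ∧ x ≠ y := by
  unfold gr
  rw [SimpleGraph.fromEdgeSet_adj]
  simp

end Pool.Agent.LGC
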