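import Mathlib

set_option autoImplicit false

/-!
# MP_5b54e3_co: cliques forced by cliques in every set of about `(log n)^2` vertices

Definitions.
-/

namespace Pool.Agent.LGC

open Finset

/-- Every set of `⌈a (log n)^2⌉` vertices contains a clique of size `⌈b log n⌉`
(`a = b = 1` is the condition of the problem). -/
def Star (a b : ℝ) (n : ℕ) (G : SimpleGraph (Fin n)) : Prop :=
  ∀ S : Finset (Fin n), S.card = ⌈a * Real.log n ^ 2⌉₊ →
    ∃ T ⊆ S, T.card = ⌈b * Real.log n⌉₊ ∧ G.IsClique (T : Set (Fin n))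

/-! ### product measures on the subsets of a finite type -/

/-- Bernoulli weight of the subset `A` -/
noncomputable def wt {ι : Type} [Fintype ι] (p : ℝ) (A : Finset ι) : ℝ :=
  p ^ A.card * (1 - p) ^ (Fintype.card ι - A.card)

open Classical in
/-- probability of the event `Q` for a random subset with density `p` -/
noncomputable def Pr {ι : Type} [Fintype ι] (p : ℝ) (Q : Finset ι → Prop) : ℝ :=
  ∑ A ∈ (univ : Finset (Finset ι)).filter Q, wt p A

/-- the graph with edge set `A` -/
def gr {V : Type} (A : Finset (Sym2 V)) : SimpleGraph V := SimpleGraph.fromEdgeSet (A : Set (Sym2 V))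

/-- `I` is independent in `G` and contains no pair of `E` -/
def Ind {V : Type} (G : SimpleGraph V) (E : Finset (Sym2 V)) (I : Finset V) : Prop :=
  ∀ x ∈ I, ∀ y ∈ I, x ≠ y → ¬ G.Adj x y ∧ s(x, y) ∉ E

open Classical in
/-- number of ordered pairs of adjacent vertices in `W` -/
noncomputable def prs {V : Type} (G : SimpleGraph V) (W : Finset V) : ℕ :=
  ((W ×ˢ W).filter (fun z => G.Adj z.1 z.2)).card

open Classical in
/-- number of neighbours of `x` in `W` -/
noncomputable def dg {V : Type} (G : SimpleGraph V) (W : Finset V) (x : V) : ℕ :=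
  (W.filter (fun y => G.Adj x y)).card

open Classical in
/-- number of common neighbours of `x` and `y` in `W` -/
noncomputable def cdg {V : Type} (G : SimpleGraph V) (W : Finset V) (x y : V) : ℕ :=
  (W.filter (fun z => G.Adj x z ∧ G.Adj y z)).card

/-- large sets do not have too many edges -/
def U1 {V : Type} (G : SimpleGraph V) (S : Finset V) (p η w₀ : ℝ) : Prop :=
  ∀ W ⊆ S, w₀ ≤ W.card → (prs G W : ℝ) ≤ (1 + η) * p * (W.card : ℝ) ^ 2

open Classical in
/-- at most `x₀` vertices of a large set have a low degree in it -/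
def U2 {V : Type} (G : SimpleGraph V) (S : Finset V) (p η w₀ x₀ : ℝ) : Prop :=
  ∀ W ⊆ S, w₀ ≤ W.card →
    ((W.filter (fun x => (dg G W x : ℝ) < (1 - η) * p * W.card)).card : ℝ) ≤ x₀

/-- codegrees are at most `κ` -/
def U3 {V : Type} (G : SimpleGraph V) (S : Finset V) (κ : ℝ) : Prop :=
  ∀ x ∈ S, ∀ y ∈ S, x ≠ y → (cdg G S x y : ℝ) ≤ κ

/-- the three uniformity conditions -/
structure Unif {V : Type} (G : SimpleGraph V) (S : Finset V) (p η w₀ x₀ κ : ℝ) : Prop where
  u1 : U1 G S p η w₀
  u2 : U2 G S p η w₀ x₀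
  u3 : U3 G S κ

/-- density -/
noncomputable def pk (k : ℕ) : ℝ := Real.log k / (20 * k)

/-- precision -/
noncomputable def ek (k : ℕ) : ℝ := 1 / Real.log k

end Pool.Agent.LGC
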