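import Pool.Agent.LGC.All

set_option autoImplicit false

/-!
# MP_5b54e3_co: general set sizes. Union bounds with crude counting.
-/

namespace Pool.Agent.LGD

open Finset Pool.Agent.LGC

open Classical in
/-- union bound for `U1` -/
theorem g_u1 (hCH : S_CH) {V : Type} [Fintype V] (S : Finset V) (p η w₀ : ℝ)
    (hp0 : 0 ≤ p) (hp1 : p ≤ 1) (hη0 : 0 ≤ η) (hη1 : η ≤ 1) (hw₀ : 0 ≤ w₀)
    (hc : (S.card : ℝ) + 4 ≤ η ^ 2 * p * w₀ ^ 2 / 8) :
    Pr p (fun A : Finset (Sym2 V) => ¬ U1 (gr A) S p η w₀) ≤ 1 / 12 := by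
  have hCH' := (@hCH (Sym2 V) _ (Classical.decEq _) p hp0 hp1).2.2.1
  have hone : ∀ W ∈ S.powerset.filter (fun W => w₀ ≤ (W.card : ℝ)),
      Pr p (fun A : Finset (Sym2 V) =>
        ¬ ((prs (gr A) W : ℝ) ≤ (1 + η) * p * (W.card : ℝ) ^ 2)) ≤
          Real.exp (-((S.card : ℝ) + 4)) := by
    intro W hW
    have hW2 := (mem_filter.1 hW).2
    have h1 := hCH' (U1_T W) (p * (W.card : ℝ) ^ 2 / 2) η hη0 hη1 (by
      have h2 : (2 : ℝ) * (U1_T W).card ≤ (W.card : ℝ) ^ 2 := by exact_mod_cast U1_card_T W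
      nlinarith)
    refine le_trans (Pr_mono hp0 hp1 ?_) (h1.trans ?_)
    · intro A hA
      push Not at hA
      have h2 : (prs (gr A) W : ℝ) ≤ 2 * ((A ∩ U1_T W).card : ℝ) := by
        exact_mod_cast U1_prs_le A W
      have h3 : (1 + η) * (p * (W.card : ℝ) ^ 2 / 2) ≤ ((A ∩ U1_T W).card : ℝ) := by
        nlinarith
      exact h3.trans (le_of_eq (congrArg (Nat.cast : ℕ → ℝ) (U1_ic _ _ A (U1_T W))))
    · apply Real.exp_le_exp.2
      have h4 : w₀ ^ 2 ≤ (W.card : ℝ) ^ 2 := pow_le_pow_left₀ hw₀ hW2 2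
      have h5 : η ^ 2 * p * w₀ ^ 2 ≤ η ^ 2 * p * (W.card : ℝ) ^ 2 :=
        mul_le_mul_of_nonneg_left h4 (by positivity)
      have h6 : η ^ 2 * (p * (W.card : ℝ) ^ 2 / 2) / 4 = η ^ 2 * p * (W.card : ℝ) ^ 2 / 8 := by
        ring
      rw [h6]
      linarith
  have hu1 := Pr_exists_le hp0 hp1 (S.powerset.filter (fun W => w₀ ≤ (W.card : ℝ)))
    (fun (W : Finset V) (A : Finset (Sym2 V)) =>
      ¬ ((prs (gr A) W : ℝ) ≤ (1 + η) * p * (W.card : ℝ) ^ 2))
  have hu2 : Pr p (fun A : Finset (Sym2 V) => ¬ U1 (gr A) S p η w₀) ≤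
      Pr p (fun A : Finset (Sym2 V) =>
        ∃ W ∈ S.powerset.filter (fun W => w₀ ≤ (W.card : ℝ)),
          ¬ ((prs (gr A) W : ℝ) ≤ (1 + η) * p * (W.card : ℝ) ^ 2)) := by
    apply Pr_mono hp0 hp1
    intro A hA
    unfold U1 at hA
    push Not at hA
    obtain ⟨W, hWS, hW, hlt⟩ := hA
    exact ⟨W, mem_filter.2 ⟨mem_powerset.2 hWS, hW⟩, not_le.2 hlt⟩
  refine hu2.trans (hu1.trans ((sum_le_sum hone).trans ?_))
  rw [sum_const, nsmul_eq_mul]
  have hc2 : ((S.powerset.filter (fun W => w₀ ≤ (W.card : ℝ))).card : ℝ) ≤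
      Real.exp (S.card : ℝ) := by
    have h1 : (S.powerset.filter (fun W => w₀ ≤ (W.card : ℝ))).card ≤ 2 ^ S.card := by
      rw [← Finset.card_powerset]
      exact Finset.card_filter_le _ _
    have h2 : ((2 : ℝ)) ^ S.card ≤ Real.exp (S.card : ℝ) := by
      have h3 : Real.exp (S.card : ℝ) = Real.exp 1 ^ S.card := by
        rw [← Real.exp_nat_mul, mul_one]
      rw [h3]
      exact pow_le_pow_left₀ (by norm_num) (by linarith [Real.add_one_le_exp (1 : ℝ)]) _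
    refine le_trans ?_ h2
    exact_mod_cast h1
  refine (mul_le_mul_of_nonneg_right hc2 (Real.exp_pos _).le).trans ?_
  rw [← Real.exp_add]
  have h5 : (S.card : ℝ) + -((S.card : ℝ) + 4) = (-2) + (-2) := by ring
  rw [h5, Real.exp_add]
  have h6 := up_exp
  have h7 := Real.exp_pos (-2 : ℝ)
  nlinarith

open Classical in
/-- union bound for `U2` -/
theorem g_u2 (hCH : S_CH) {V : Type} [Fintype V] (S : Finset V) (p η w₀ x₀ : ℝ)
    (hp0 : 0 ≤ p) (hp1 : p ≤ 1) (hη0 : 0 ≤ η) (hη1 : η ≤ 1) (hx₀ : 0 ≤ x₀) (hw₀ : 0 < w₀)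
    (hxw : x₀ + 1 ≤ η * w₀ / 2) (hc : 2 * (S.card : ℝ) + 4 ≤ η ^ 2 * p * x₀ / 16 * w₀) :
    Pr p (fun A : Finset (Sym2 V) => ¬ U2 (gr A) S p η w₀ x₀) ≤ 1 / 12 := by
  set m : ℕ := ⌊x₀⌋₊ + 1 with hm
  have hmx : x₀ < (m : ℝ) := by rw [hm]; push_cast; exact Nat.lt_floor_add_one x₀
  have hmx1 : (m : ℝ) ≤ x₀ + 1 := by
    rw [hm]; push_cast
    have := Nat.floor_le hx₀
    linarith
  let F : Finset (Finset V × Finset V) :=
    (S.powerset ×ˢ S.powerset).filter (fun z => w₀ ≤ (z.1.card : ℝ) ∧ z.2 ⊆ z.1 ∧ z.2.card = m)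
  have h1 : Pr p (fun A : Finset (Sym2 V) => ¬ U2 (gr A) S p η w₀ x₀) ≤
      Pr p (fun A : Finset (Sym2 V) => ∃ z ∈ F,
        (fun (z : Finset V × Finset V) (A : Finset (Sym2 V)) =>
        ∀ x ∈ z.2, (dg (gr A) z.1 x : ℝ) < (1 - η) * p * z.1.card) z A) := by
    refine Pr_mono hp0 hp1 ?_
    intro A hA
    unfold U2 at hA
    push Not at hA
    obtain ⟨W, hWS, hWw, hWx⟩ := hA
    have h2 : m ≤ (W.filter (fun x => (dg (gr A) W x : ℝ) < (1 - η) * p * W.card)).card := by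
      rw [hm]
      have : ⌊x₀⌋₊ < (W.filter (fun x => (dg (gr A) W x : ℝ) < (1 - η) * p * W.card)).card := by
        rw [Nat.floor_lt hx₀]
        exact lt_of_lt_of_eq hWx (congrArg (Nat.cast : ℕ → ℝ) (U2_fc W _ _ _))
      exact this
    obtain ⟨X, hX1, hX2⟩ := Finset.exists_subset_card_eq h2
    have hXW : X ⊆ W := hX1.trans (Finset.filter_subset _ _)
    refine ⟨(W, X), ?_, ?_⟩
    · simp only [F, Finset.mem_product, Finset.mem_filter, Finset.mem_powerset]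
      exact ⟨⟨hWS, hXW.trans hWS⟩, hWw, hXW, hX2⟩
    · intro x hx
      exact (Finset.mem_filter.1 (hX1 hx)).2
  refine h1.trans ((Pr_exists_le hp0 hp1 F _).trans ?_)
  have h2 : ∀ z ∈ F, Pr p (fun A : Finset (Sym2 V) =>
      ∀ x ∈ z.2, (dg (gr A) z.1 x : ℝ) < (1 - η) * p * z.1.card) ≤
      Real.exp (-(2 * (S.card : ℝ) + 4)) := by
    rintro ⟨W, X⟩ hz
    simp only [F, Finset.mem_product, Finset.mem_filter, Finset.mem_powerset] at hz
    obtain ⟨⟨hWS, hXS⟩, hWw, hXW, hXm⟩ := hz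
    have hw0 : (0 : ℝ) ≤ W.card := Nat.cast_nonneg _
    refine (U2_one hCH p η hp0 hp1 hη0 hη1 X W hXW (by rw [hXm, hm]; omega) ?_).trans ?_
    · rw [hXm]
      have : η * w₀ ≤ η * W.card := mul_le_mul_of_nonneg_left hWw hη0
      linarith
    · apply Real.exp_le_exp.2
      have h3 : η ^ 2 * p * x₀ / 16 ≤ η ^ 2 * p * X.card / 16 := by
        have : η ^ 2 * p * x₀ ≤ η ^ 2 * p * X.card := by
          apply mul_le_mul_of_nonneg_left _ (by positivity)
          rw [hXm]; exact hmx.le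
        linarith
      have h4 : η ^ 2 * p * x₀ / 16 * w₀ ≤ η ^ 2 * p * X.card / 16 * W.card :=
        mul_le_mul h3 hWw hw₀.le (by positivity)
      linarith
  refine (Finset.sum_le_sum h2).trans ?_
  rw [sum_const, nsmul_eq_mul]
  have hc2 : (F.card : ℝ) ≤ Real.exp (2 * (S.card : ℝ)) := by
    have h1 : F.card ≤ 2 ^ S.card * 2 ^ S.card := by
      rw [← Finset.card_powerset, ← Finset.card_product]
      exact Finset.card_filter_le _ _
    have h2 : ((2 : ℝ)) ^ S.card ≤ Real.exp (S.card : ℝ) := by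
      have h3 : Real.exp (S.card : ℝ) = Real.exp 1 ^ S.card := by
        rw [← Real.exp_nat_mul, mul_one]
      rw [h3]
      exact pow_le_pow_left₀ (by norm_num) (by linarith [Real.add_one_le_exp (1 : ℝ)]) _
    have h3 : (F.card : ℝ) ≤ (2 : ℝ) ^ S.card * 2 ^ S.card := by exact_mod_cast h1
    refine h3.trans ?_
    rw [two_mul, Real.exp_add]
    exact mul_le_mul h2 h2 (by positivity) (by positivity)
  refine (mul_le_mul_of_nonneg_right hc2 (Real.exp_pos _).le).trans ?_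
  rw [← Real.exp_add]
  have h5 : 2 * (S.card : ℝ) + -(2 * (S.card : ℝ) + 4) = (-2) + (-2) := by ring
  rw [h5, Real.exp_add]
  have h6 := up_exp
  have h7 := Real.exp_pos (-2 : ℝ)
  nlinarith

/-- union bound for `U3` -/
theorem g_u3 (hCH : S_CH) {V : Type} [Fintype V] (S : Finset V) (p κ : ℝ) (m : ℕ)
    (hp0 : 0 ≤ p) (hp1 : p ≤ 1) (hκ : 0 ≤ κ) (hm : m = ⌊κ⌋₊ + 1)
    (hc : 12 * ((S.card : ℝ) * S.card * (3 * (S.card * p ^ 2) / m) ^ m) ≤ 1) :
    Pr p (fun A : Finset (Sym2 V) => ¬ U3 (gr A) S κ) ≤ 1 / 12 := by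
  classical
  have hm0 : (0 : ℝ) < m := by
    rw [hm]
    positivity
  set F : Finset ((V × V) × Finset V) := ((S ×ˢ S) ×ˢ S.powersetCard m).filter
    (fun t => t.1.1 ≠ t.1.2 ∧ t.1.1 ∉ t.2) with hF
  have hev : ∀ A : Finset (Sym2 V), ¬ U3 (gr A) S κ →
      ∃ t ∈ F, u3_T t.1.1 t.1.2 t.2 ⊆ A := by
    intro A hA
    unfold U3 at hA
    push Not at hA
    obtain ⟨x, hx, y, hy, hxy, hc⟩ := hA
    unfold cdg at hc
    have hmc : m ≤ (S.filter (fun z => (gr A).Adj x z ∧ (gr A).Adj y z)).card := by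
      rw [hm, Nat.add_one_le_iff]
      exact (Nat.floor_lt hκ).2 hc
    obtain ⟨Z, hZ, hZc⟩ := Finset.exists_subset_card_eq hmc
    have hmem : ∀ z ∈ Z, z ∈ S ∧ (gr A).Adj x z ∧ (gr A).Adj y z := by
      intro z hz
      have := Finset.mem_filter.1 (hZ hz)
      exact ⟨this.1, this.2.1, this.2.2⟩
    refine ⟨((x, y), Z), ?_, ?_⟩
    · rw [hF, Finset.mem_filter]
      refine ⟨?_, hxy, ?_⟩
      · simp only [Finset.mem_product, Finset.mem_powersetCard]
        exact ⟨⟨hx, hy⟩, fun z hz => (hmem z hz).1, hZc⟩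
      · intro hxZ
        have := (hmem x hxZ).2.1
        exact this.ne rfl
    · intro e he
      unfold u3_T at he
      rcases Finset.mem_union.1 he with he | he
      · obtain ⟨z, hz, rfl⟩ := Finset.mem_image.1 he
        exact ((gr_adj A x z).1 (hmem z hz).2.1).1
      · obtain ⟨z, hz, rfl⟩ := Finset.mem_image.1 he
        exact ((gr_adj A y z).1 (hmem z hz).2.2).1
  have hcard : ∀ t ∈ F, Pr p (fun A : Finset (Sym2 V) => u3_T t.1.1 t.1.2 t.2 ⊆ A) =
      p ^ (2 * m) := by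
    intro t ht
    rw [hF, Finset.mem_filter] at ht
    obtain ⟨ht1, ht2, ht3⟩ := ht
    simp only [Finset.mem_product, Finset.mem_powersetCard] at ht1
    rw [(hCH (Sym2 V) p hp0 hp1).1, u3_card ht2 ht3, ht1.2.2]
  have hFc : (F.card : ℝ) ≤ (S.card : ℝ) * S.card * (S.card.choose m) := by
    have : F.card ≤ S.card * S.card * S.card.choose m := by
      refine (Finset.card_filter_le _ _).trans (le_of_eq ?_)
      rw [Finset.card_product, Finset.card_product, Finset.card_powersetCard]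
    exact_mod_cast this
  have hchoose : (S.card.choose m : ℝ) * p ^ (2 * m) ≤ (3 * (S.card * p ^ 2) / m) ^ m := by
    have a1 : (S.card.choose m : ℝ) ≤ (S.card : ℝ) ^ m / (m.factorial : ℝ) :=
      Nat.choose_le_pow_div m S.card
    have a2 : (m : ℝ) ^ m / (m.factorial : ℝ) ≤ Real.exp m :=
      Real.pow_div_factorial_le_exp (m : ℝ) hm0.le m
    have a3 : Real.exp m ≤ 3 ^ m := by
      have : Real.exp m = Real.exp 1 ^ m := by
        rw [← Real.exp_nat_mul, mul_one]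
      rw [this]
      exact pow_le_pow_left₀ (Real.exp_pos 1).le Real.exp_one_lt_three.le m
    have hf : (0 : ℝ) < m.factorial := by exact_mod_cast m.factorial_pos
    calc (S.card.choose m : ℝ) * p ^ (2 * m)
        ≤ (S.card : ℝ) ^ m / (m.factorial : ℝ) * p ^ (2 * m) :=
          mul_le_mul_of_nonneg_right a1 (pow_nonneg hp0 _)
      _ = (S.card * p ^ 2 / m) ^ m * ((m : ℝ) ^ m / (m.factorial : ℝ)) := by
          rw [div_pow, mul_pow, ← pow_mul]
          field_simp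
      _ ≤ (S.card * p ^ 2 / m) ^ m * 3 ^ m := by
          refine mul_le_mul_of_nonneg_left (a2.trans a3) (pow_nonneg (by positivity) _)
      _ = (3 * (S.card * p ^ 2) / m) ^ m := by
          rw [← mul_pow]
          congr 1
          ring
  calc Pr p (fun A : Finset (Sym2 V) => ¬ U3 (gr A) S κ)
      ≤ Pr p (fun A : Finset (Sym2 V) => ∃ t ∈ F, u3_T t.1.1 t.1.2 t.2 ⊆ A) :=
        Pr_mono hp0 hp1 hev
    _ ≤ ∑ t ∈ F, Pr p (fun A : Finset (Sym2 V) => u3_T t.1.1 t.1.2 t.2 ⊆ A) :=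
        Pr_exists_le hp0 hp1 F (fun t A => u3_T t.1.1 t.1.2 t.2 ⊆ A)
    _ = F.card * p ^ (2 * m) := by
        rw [Finset.sum_congr rfl hcard, Finset.sum_const, nsmul_eq_mul]
    _ ≤ (S.card : ℝ) * S.card * (S.card.choose m) * p ^ (2 * m) :=
        mul_le_mul_of_nonneg_right hFc (pow_nonneg hp0 _)
    _ = (S.card : ℝ) * S.card * ((S.card.choose m) * p ^ (2 * m)) := by ring
    _ ≤ (S.card : ℝ) * S.card * (3 * (S.card * p ^ 2) / m) ^ m :=
        mul_le_mul_of_nonneg_left hchoose (by positivity)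
    _ ≤ 1 / 12 := by linarith

end Pool.Agent.LGD
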