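import Pool.Agent.LGC.Basic

set_option autoImplicit false

/-!
# LGC_ISO: an isoperimetric inequality for increasing events
-/

namespace Pool.Agent.LGC

open Finset

section

variable {ι : Type}

/-- weight of a subset `A` of the ground set `U` -/
noncomputable def isoW (p : ℝ) (U A : Finset ι) : ℝ :=
  p ^ A.card * (1 - p) ^ (U.card - A.card)

open Classical in
/-- probability of `Q` on the ground set `U` -/
noncomputable def isoP (p : ℝ) (U : Finset ι) (Q : Finset ι → Prop) : ℝ :=
  ∑ A ∈ U.powerset, if Q A then isoW p U A else 0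

/-- truncated distance from `Q` on the ground set `U` -/
noncomputable def isoD (h : ℕ) (U : Finset ι) (Q : Finset ι → Prop) (A : Finset ι) : ℕ :=
  sInf {j | h ≤ j ∨ ∃ B, A ⊆ B ∧ B ⊆ U ∧ B.card ≤ A.card + j ∧ Q B}

/-- the exponential moment of the distance -/
noncomputable def isoE (p K : ℝ) (h : ℕ) (U : Finset ι) (Q : Finset ι → Prop) : ℝ :=
  ∑ A ∈ U.powerset, K ^ isoD h U Q A * isoW p U A

theorem isoD_mem (h : ℕ) (U : Finset ι) (Q : Finset ι → Prop) (A : Finset ι) :
    h ≤ isoD h U Q A ∨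
      ∃ B, A ⊆ B ∧ B ⊆ U ∧ B.card ≤ A.card + isoD h U Q A ∧ Q B :=
  Nat.sInf_mem (s := {j | h ≤ j ∨ ∃ B, A ⊆ B ∧ B ⊆ U ∧ B.card ≤ A.card + j ∧ Q B})
    ⟨h, Or.inl le_rfl⟩

theorem isoD_le {h : ℕ} {U : Finset ι} {Q : Finset ι → Prop} {A : Finset ι} {j : ℕ}
    (hj : h ≤ j ∨ ∃ B, A ⊆ B ∧ B ⊆ U ∧ B.card ≤ A.card + j ∧ Q B) : isoD h U Q A ≤ j :=
  Nat.sInf_le hj

theorem isoW_nonneg {p : ℝ} (h0 : 0 ≤ p) (h1 : p ≤ 1) (U A : Finset ι) : 0 ≤ isoW p U A :=
  mul_nonneg (pow_nonneg h0 _) (pow_nonneg (by linarith) _)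

/-- the two point inequality -/
theorem iso_key {p p' u Z Y : ℝ} (hp : 0 < p) (hpp : p ≤ p') (hp' : p' < 1) (hu0 : 0 ≤ u)
    (hu1 : u ≤ 1) (hY0 : 0 ≤ Y) (hY1 : Y ≤ 1) (hZ0 : 0 ≤ Z) (hZ : p * Z ≤ p') (huZ : u * Z ≤ 1) :
    p' * p * Y + p' * (1 - p) * (u * Y) + (1 - p') * p * Z + (1 - p') * (1 - p) * (u * Z) ≤ 1 := by
  have h1 : 0 < p' := hp.trans_le hpp
  have h2 : 0 < 1 - p' := by linarith
  have h3 : 0 < 1 - p := by linarith
  have a1 : p' * p * Y ≤ p' * p := mul_le_of_le_one_right (by positivity) hY1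
  have a2 : (1 - p') * (1 - p) * (u * Z) ≤ (1 - p') * (1 - p) :=
    mul_le_of_le_one_right (by positivity) huZ
  have a3 : u * Y ≤ u := mul_le_of_le_one_right hu0 hY1
  have a4 : p' * (1 - p) * (u * Y) ≤ p' * (1 - p) * u :=
    mul_le_mul_of_nonneg_left a3 (by positivity)
  by_cases hZ1 : Z ≤ 1
  · have a5 : p' * (1 - p) * u ≤ p' * (1 - p) := mul_le_of_le_one_right (by positivity) hu1
    have a6 : (1 - p') * p * Z ≤ (1 - p') * p := mul_le_of_le_one_right (by positivity) hZ1
    have e : p' * p + p' * (1 - p) + (1 - p') * p + (1 - p') * (1 - p) = 1 := by ring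
    linarith
  · push Not at hZ1
    have hZp : 0 < Z := by linarith
    obtain ⟨t, ht⟩ : ∃ t : ℝ, t = 1 / Z := ⟨_, rfl⟩
    have htZ : t * Z = 1 := by rw [ht]; field_simp
    have hut : u ≤ t := by
      rw [ht, le_div_iff₀ hZp]; exact huZ
    have ht0 : 0 < t := by rw [ht]; positivity
    have a5 : p' * (1 - p) * u ≤ p' * (1 - p) * t :=
      mul_le_mul_of_nonneg_left hut (by positivity)
    have b1 : (1 - p') * p * Z ≤ p' * (1 - p) := by
      have c1 : (1 - p') * (p * Z) ≤ (1 - p') * p' := mul_le_mul_of_nonneg_left hZ h2.le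
      have c2 : (1 - p') * p' ≤ (1 - p) * p' := mul_le_mul_of_nonneg_right (by linarith) h1.le
      linarith
    have b2 : (1 - p') * p ≤ p' * (1 - p) * t := by
      have := mul_le_mul_of_nonneg_right b1 ht0.le
      have e : (1 - p') * p * Z * t = (1 - p') * p := by rw [mul_assoc, mul_comm Z t, htZ, mul_one]
      linarith
    have b3 : (Z - 1) * ((1 - p') * p - p' * (1 - p) * t) ≤ 0 :=
      mul_nonpos_of_nonneg_of_nonpos (by linarith) (by linarith)
    have b4 : (Z - 1) * ((1 - p') * p - p' * (1 - p) * t) =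
        (1 - p') * p * Z - (1 - p') * p - p' * (1 - p) * (t * Z) + p' * (1 - p) * t := by ring
    rw [b4, htZ] at b3
    have e : p' * p + p' * (1 - p) + (1 - p') * p + (1 - p') * (1 - p) = 1 := by ring
    linarith

theorem iso_step {p p' b₀ b₁ x y z : ℝ} (hp : 0 < p) (hpp : p ≤ p') (hp' : p' < 1)
    (hb0 : 0 ≤ b₀) (hb : b₀ ≤ b₁) (hy0 : 0 ≤ y) (hz0 : 0 ≤ z) (hzx : z ≤ x)
    (hzy : p * z ≤ p' * y) (h0 : x * b₀ ≤ 1) (h1 : y * b₁ ≤ 1) :
    ((1 - p') * z + p' * y) * ((1 - p) * b₀ + p * b₁) ≤ 1 := by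
  rcases (hb0.trans hb).eq_or_lt with h | h
  · have hb0' : b₀ = 0 := by linarith
    rw [← h, hb0']
    norm_num
  · have hu : b₀ / b₁ * b₁ = b₀ := div_mul_cancel₀ _ h.ne'
    have hu1 : b₀ / b₁ ≤ 1 := by rw [div_le_one h]; exact hb
    have k := iso_key (p := p) (p' := p') (u := b₀ / b₁) (Z := z * b₁) (Y := y * b₁) hp hpp hp'
      (by positivity) hu1 (by positivity) h1 (by positivity) (by
        calc p * (z * b₁) = (p * z) * b₁ := by ring
          _ ≤ (p' * y) * b₁ := mul_le_mul_of_nonneg_right hzy h.le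
          _ = p' * (y * b₁) := by ring
          _ ≤ p' * 1 := mul_le_mul_of_nonneg_left h1 (hp.le.trans hpp)
          _ = p' := mul_one _) (by
        calc b₀ / b₁ * (z * b₁) = z * (b₀ / b₁ * b₁) := by ring
          _ = z * b₀ := by rw [hu]
          _ ≤ x * b₀ := mul_le_mul_of_nonneg_right hzx hb0
          _ ≤ 1 := h0)
    calc ((1 - p') * z + p' * y) * ((1 - p) * b₀ + p * b₁)
        = ((1 - p') * z + p' * y) * ((1 - p) * (b₀ / b₁ * b₁) + p * b₁) := by rw [hu]
      _ = p' * p * (y * b₁) + p' * (1 - p) * (b₀ / b₁ * (y * b₁)) + (1 - p') * p * (z * b₁) +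
          (1 - p') * (1 - p) * (b₀ / b₁ * (z * b₁)) := by ring
      _ ≤ 1 := k

variable [DecidableEq ι]

theorem isoW_of_subset (p : ℝ) {U A : Finset ι} {e : ι} (he : e ∉ U) (hA : A ⊆ U) :
    isoW p (insert e U) A = (1 - p) * isoW p U A := by
  unfold isoW
  have h1 : A.card ≤ U.card := card_le_card hA
  rw [card_insert_of_notMem he, show U.card + 1 - A.card = (U.card - A.card) + 1 by omega, pow_succ]
  ring

theorem isoW_insert (p : ℝ) {U A : Finset ι} {e : ι} (he : e ∉ U) (hA : A ⊆ U) :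
    isoW p (insert e U) (insert e A) = p * isoW p U A := by
  unfold isoW
  have h2 : e ∉ A := fun h => he (hA h)
  rw [card_insert_of_notMem he, card_insert_of_notMem h2,
    show U.card + 1 - (A.card + 1) = U.card - A.card by omega, pow_succ]
  ring

theorem isoP_insert (p : ℝ) {U : Finset ι} {e : ι} (he : e ∉ U) (Q : Finset ι → Prop) :
    isoP p (insert e U) Q = (1 - p) * isoP p U Q + p * isoP p U (fun A => Q (insert e A)) := by
  classical
  unfold isoP
  rw [sum_powerset_insert he, mul_sum, mul_sum]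
  congr 1
  · refine sum_congr rfl fun A hA => ?_
    rw [isoW_of_subset p he (mem_powerset.1 hA)]
    split_ifs <;> simp
  · refine sum_congr rfl fun A hA => ?_
    rw [isoW_insert p he (mem_powerset.1 hA)]
    split_ifs <;> simp

theorem iso_main {p p' : ℝ} (hp : 0 < p) (hpp : p ≤ p') (hp' : p' < 1) (h : ℕ) (U : Finset ι) :
    ∀ Q : Finset ι → Prop, (∀ A B, A ⊆ B → Q A → Q B) →
      isoE p' (p' / p) h U Q * isoP p U Q ≤ 1 := by
  classical
  have hp1 : p ≤ 1 := by linarith
  have hp0' : 0 < p' := hp.trans_le hpp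
  have hK : 1 ≤ p' / p := by rw [le_div_iff₀ hp]; linarith
  have hK0 : 0 ≤ p' / p := by linarith
  induction U using Finset.induction_on with
  | empty =>
    intro Q _
    unfold isoE isoP
    rw [powerset_empty, sum_singleton, sum_singleton]
    have hw : ∀ q : ℝ, isoW q (∅ : Finset ι) ∅ = 1 := by
      intro q; simp [isoW]
    rw [hw, hw, mul_one]
    by_cases hQ : Q ∅
    · rw [if_pos hQ]
      have : isoD h (∅ : Finset ι) Q ∅ = 0 :=
        Nat.le_zero.1 (isoD_le (Or.inr ⟨∅, subset_rfl, subset_rfl, by simp, hQ⟩))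
      rw [this, pow_zero, mul_one]
    · rw [if_neg hQ, mul_zero]
      exact zero_le_one
  | insert e U he ih =>
    intro Q hQ
    have hQ1 : ∀ A B, A ⊆ B → Q (insert e A) → Q (insert e B) :=
      fun A B hAB => hQ _ _ (insert_subset_insert e hAB)
    have i0 := ih Q hQ
    have i1 := ih (fun A => Q (insert e A)) hQ1
    have hPnn : ∀ R : Finset ι → Prop, 0 ≤ isoP p U R := by
      intro R
      unfold isoP
      refine sum_nonneg fun A _ => ?_
      split_ifs
      · exact isoW_nonneg hp.le hp1 _ _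
      · exact le_rfl
    have hEnn : ∀ R : Finset ι → Prop, 0 ≤ isoE p' (p' / p) h U R := by
      intro R
      exact sum_nonneg fun A _ => mul_nonneg (pow_nonneg hK0 _) (isoW_nonneg hp0'.le hp'.le _ _)
    have hb : isoP p U Q ≤ isoP p U (fun A => Q (insert e A)) := by
      unfold isoP
      refine sum_le_sum fun A _ => ?_
      have hw := isoW_nonneg hp.le hp1 U A
      by_cases h1 : Q A
      · rw [if_pos h1, if_pos (hQ _ _ (subset_insert e A) h1)]
      · rw [if_neg h1]
        split_ifs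
        · exact hw
        · exact le_rfl
    obtain ⟨z, hz⟩ : ∃ z : ℝ, z = ∑ A ∈ U.powerset,
        (p' / p) ^ isoD h (insert e U) Q A * isoW p' U A := ⟨_, rfl⟩
    have hz0 : 0 ≤ z := by
      rw [hz]
      exact sum_nonneg fun A _ => mul_nonneg (pow_nonneg hK0 _) (isoW_nonneg hp0'.le hp'.le _ _)
    have hzx : z ≤ isoE p' (p' / p) h U Q := by
      rw [hz]
      unfold isoE
      refine sum_le_sum fun A _ => mul_le_mul_of_nonneg_right ?_ (isoW_nonneg hp0'.le hp'.le _ _)
      refine pow_le_pow_right₀ hK (isoD_le ?_)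
      rcases isoD_mem h U Q A with h1 | ⟨B, h1, h2, h3, h4⟩
      · exact Or.inl h1
      · exact Or.inr ⟨B, h1, h2.trans (subset_insert e U), h3, h4⟩
    have hzy : p * z ≤ p' * isoE p' (p' / p) h U (fun A => Q (insert e A)) := by
      have h5 : z ≤ p' / p * isoE p' (p' / p) h U (fun A => Q (insert e A)) := by
        rw [hz]
        unfold isoE
        rw [mul_sum]
        refine sum_le_sum fun A _ => ?_
        rw [← mul_assoc, ← pow_succ']
        refine mul_le_mul_of_nonneg_right ?_ (isoW_nonneg hp0'.le hp'.le _ _)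
        refine pow_le_pow_right₀ hK (isoD_le ?_)
        rcases isoD_mem h U (fun A => Q (insert e A)) A with h1 | ⟨B, h1, h2, h3, h4⟩
        · exact Or.inl (by omega)
        · refine Or.inr ⟨insert e B, h1.trans (subset_insert e B), insert_subset_insert e h2, ?_,
            h4⟩
          have := card_insert_le e B
          omega
      calc p * z ≤ p * (p' / p * isoE p' (p' / p) h U (fun A => Q (insert e A))) :=
            mul_le_mul_of_nonneg_left h5 hp.le
        _ = _ := by rw [← mul_assoc, mul_div_cancel₀ _ hp.ne']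
    have hE : isoE p' (p' / p) h (insert e U) Q ≤
        (1 - p') * z + p' * isoE p' (p' / p) h U (fun A => Q (insert e A)) := by
      unfold isoE
      rw [sum_powerset_insert he, hz, mul_sum, mul_sum]
      refine add_le_add (le_of_eq ?_) ?_
      · refine sum_congr rfl fun A hA => ?_
        rw [isoW_of_subset p' he (mem_powerset.1 hA)]
        ring
      · refine sum_le_sum fun A hA => ?_
        rw [isoW_insert p' he (mem_powerset.1 hA), mul_left_comm]
        refine mul_le_mul_of_nonneg_left ?_ hp0'.le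
        refine mul_le_mul_of_nonneg_right ?_ (isoW_nonneg hp0'.le hp'.le _ _)
        refine pow_le_pow_right₀ hK (isoD_le ?_)
        rcases isoD_mem h U (fun A => Q (insert e A)) A with h1 | ⟨B, h1, h2, h3, h4⟩
        · exact Or.inl h1
        · refine Or.inr ⟨insert e B, insert_subset_insert e h1, insert_subset_insert e h2, ?_, h4⟩
          have h6 := card_insert_le e B
          have h7 : (insert e A).card = A.card + 1 :=
            card_insert_of_notMem fun h => he (mem_powerset.1 hA h)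
          omega
    have hst := iso_step hp hpp hp' (hPnn Q) hb (hEnn (fun A => Q (insert e A))) hz0 hzx hzy i0 i1
    rw [isoP_insert p he Q]
    refine le_trans (mul_le_mul_of_nonneg_right hE ?_) hst
    have := hPnn Q
    have := hPnn (fun A => Q (insert e A))
    have h8 : 0 ≤ 1 - p := by linarith
    positivity

end

/-- LGC_ISO -/
theorem iso : S_ISO := by
  intro ι _ p p' hp hpp hp' Q hQ h
  classical
  have hp0' : 0 < p' := hp.trans_le hpp
  have hK : 1 ≤ p' / p := by rw [le_div_iff₀ hp]; linarith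
  have hK0 : 0 ≤ p' / p := by linarith
  have hm := iso_main hp hpp hp' h (univ : Finset ι) Q hQ
  have hw : ∀ (q : ℝ) (A : Finset ι), isoW q univ A = wt q A := by
    intro q A
    unfold isoW wt
    rw [card_univ]
  have hP : isoP p univ Q = Pr p Q := by
    rw [Pr_eq]
    unfold isoP
    rw [powerset_univ]
    refine sum_congr rfl fun A _ => ?_
    rw [hw]
  have hE : (p' / p) ^ h * Pr p' (fun A => ∀ B, A ⊆ B → B.card ≤ A.card + h → ¬ Q B) ≤
      isoE p' (p' / p) h univ Q := by
    rw [Pr_eq, mul_sum]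
    unfold isoE
    rw [powerset_univ]
    refine sum_le_sum fun A _ => ?_
    rw [hw]
    have hwn := wt_nonneg hp0'.le hp'.le A
    split_ifs with hA
    · refine mul_le_mul_of_nonneg_right (pow_le_pow_right₀ hK ?_) hwn
      rcases isoD_mem h univ Q A with h1 | ⟨B, h1, h2, h3, h4⟩
      · exact h1
      · by_contra hlt
        exact hA B h1 (by omega) h4
    · rw [mul_zero]
      exact mul_nonneg (pow_nonneg hK0 _) hwn
  have hPn : 0 ≤ Pr p Q := Pr_nonneg hp.le (by linarith) Q
  calc Pr p Q * ((p' / p) ^ h *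
        Pr p' (fun A => ∀ B, A ⊆ B → B.card ≤ A.card + h → ¬ Q B))
      ≤ Pr p Q * isoE p' (p' / p) h univ Q := mul_le_mul_of_nonneg_left hE hPn
    _ = isoE p' (p' / p) h univ Q * isoP p univ Q := by rw [hP, mul_comm]
    _ ≤ 1 := hm

end Pool.Agent.LGC
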