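import Pool.Agent.LGC.Defs

set_option autoImplicit false

/-!
# MP_5b54e3_co: statements of the modules (proofs in PAPER.md)
-/

namespace Pool.Agent.LGC

open Finset

/-- LGC_ISO: an isoperimetric inequality for increasing events, with two densities `p ≤ p'`. -/
def S_ISO : Prop :=
  ∀ (ι : Type) [Fintype ι] (p p' : ℝ), 0 < p → p ≤ p' → p' < 1 →
    ∀ Q : Finset ι → Prop, (∀ A B, A ⊆ B → Q A → Q B) → ∀ h : ℕ,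
      Pr p Q * ((p' / p) ^ h *
        Pr p' (fun A => ∀ B, A ⊆ B → B.card ≤ A.card + h → ¬ Q B)) ≤ 1

/-- LGC_CH: product measure and Chernoff bounds. -/
def S_CH : Prop :=
  ∀ (ι : Type) [Fintype ι] [DecidableEq ι] (p : ℝ), 0 ≤ p → p ≤ 1 →
    (∀ T : Finset ι, Pr p (fun A => T ⊆ A) = p ^ T.card) ∧
    (∀ T : Finset ι, Pr p (fun A => Disjoint A T) = (1 - p) ^ T.card) ∧
    (∀ (T : Finset ι) (m η : ℝ), 0 ≤ η → η ≤ 1 → p * T.card ≤ m →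
      Pr p (fun A => (1 + η) * m ≤ ((A ∩ T).card : ℝ)) ≤ Real.exp (-(η ^ 2 * m / 4))) ∧
    (∀ (T : Finset ι) (η : ℝ), 0 ≤ η → η ≤ 1 →
      Pr p (fun A => ((A ∩ T).card : ℝ) ≤ (1 - η) * (p * T.card)) ≤
        Real.exp (-(η ^ 2 * (p * T.card) / 2)))

/-- LGC_DET: greedy algorithm in a uniform graph with few extra edges. -/
def S_DET : Prop :=
  ∀ (V : Type) (G : SimpleGraph V) (S : Finset V) (E : Finset (Sym2 V)) (k h : ℕ)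
    (p η w₀ x₀ κ D : ℝ), E.card ≤ h → 0 < p → p ≤ 1 / 4 → 0 ≤ η → η ≤ 1 / 4 →
    10 * η * p * k ≤ 1 → κ ≤ η * p * w₀ → 1 ≤ w₀ →
    w₀ ≤ (S.card : ℝ) / 4 * (1 - (1 + η) * p) ^ k → 256 * (k : ℝ) * h ≤ (S.card : ℝ) ^ 2 →
    0 < D → 16 * (h : ℝ) ≤ D * S.card → 0 ≤ x₀ →
    (k : ℝ) * (1 + 32 * (k / S.card) * Real.exp (2 * p * k) * p * x₀ * D) ≤
      (S.card : ℝ) / 2 * (1 - (1 + η) * p) ^ k →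
    Unif G S p η w₀ x₀ κ → ∃ I ⊆ S, I.card = k ∧ Ind G E I

/-- LGC_U1 -/
def S_U1 : Prop :=
  ∀ θ T : ℝ, 0 < θ → 0 < T → ∃ k₀ : ℕ, ∀ (k : ℕ) (V : Type) [Fintype V] (S : Finset V), k₀ ≤ k →
    θ * (k : ℝ) ^ 2 ≤ S.card → (S.card : ℝ) ≤ T * (k : ℝ) ^ 2 →
    Pr (pk k) (fun A : Finset (Sym2 V) => ¬ U1 (gr A) S (pk k) (ek k) ((k : ℝ) ^ (17 / 10 : ℝ))) ≤
      1 / 12

/-- LGC_U2 -/
def S_U2 : Prop :=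
  ∀ θ T : ℝ, 0 < θ → 0 < T → ∃ k₀ : ℕ, ∀ (k : ℕ) (V : Type) [Fintype V] (S : Finset V), k₀ ≤ k →
    θ * (k : ℝ) ^ 2 ≤ S.card → (S.card : ℝ) ≤ T * (k : ℝ) ^ 2 →
    Pr (pk k) (fun A : Finset (Sym2 V) => ¬ U2 (gr A) S (pk k) (ek k) ((k : ℝ) ^ (17 / 10 : ℝ))
      ((k : ℝ) ^ (11 / 10 : ℝ))) ≤ 1 / 12

/-- LGC_U3 -/
def S_U3 : Prop :=
  ∀ θ T : ℝ, 0 < θ → 0 < T → ∃ k₀ : ℕ, ∀ (k : ℕ) (V : Type) [Fintype V] (S : Finset V), k₀ ≤ k →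
    θ * (k : ℝ) ^ 2 ≤ S.card → (S.card : ℝ) ≤ T * (k : ℝ) ^ 2 →
    Pr (pk k) (fun A : Finset (Sym2 V) => ¬ U3 (gr A) S ((k : ℝ) ^ (1 / 2 : ℝ))) ≤ 1 / 12

/-- LGC_NUM: the numerical conditions of `S_DET` hold for large `k`. -/
def S_NUM : Prop :=
  ∀ θ T : ℝ, 0 < θ → 0 < T → ∃ k₀ : ℕ, ∀ (k N h : ℕ), k₀ ≤ k →
    θ * (k : ℝ) ^ 2 ≤ N → (N : ℝ) ≤ T * (k : ℝ) ^ 2 → 256 * (k : ℝ) * h ≤ (N : ℝ) ^ 2 →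
    1 ≤ k ∧ 0 < pk k ∧ pk k ≤ 1 / 4 ∧ 0 < ek k ∧ ek k ≤ 1 / 4 ∧ 10 * ek k * pk k * k ≤ 1 ∧
    (k : ℝ) ^ (1 / 2 : ℝ) ≤ ek k * pk k * (k : ℝ) ^ (17 / 10 : ℝ) ∧
    1 ≤ (k : ℝ) ^ (17 / 10 : ℝ) ∧
    (k : ℝ) ^ (17 / 10 : ℝ) ≤ (N : ℝ) / 4 * (1 - (1 + ek k) * pk k) ^ k ∧
    0 < (k : ℝ) ^ (3 / 2 : ℝ) ∧ 16 * (h : ℝ) ≤ (k : ℝ) ^ (3 / 2 : ℝ) * N ∧
    0 ≤ (k : ℝ) ^ (11 / 10 : ℝ) ∧
    (k : ℝ) * (1 + 32 * (k / N) * Real.exp (2 * pk k * k) * pk k * (k : ℝ) ^ (11 / 10 : ℝ) *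
      (k : ℝ) ^ (3 / 2 : ℝ)) ≤ (N : ℝ) / 2 * (1 - (1 + ek k) * pk k) ^ k

/-- LGC_BAD (from ISO, DET, U1, U2, U3, NUM): in the random graph of density `pk k / K` on about
`k^2` vertices the independence number is below `k` with probability at most `K^(-c k^3)`. -/
def S_BAD : Prop :=
  ∀ θ T : ℝ, 0 < θ → 0 < T → ∃ k₀ : ℕ, ∀ (k : ℕ) (V : Type) [Fintype V] (S : Finset V) (K : ℝ),
    k₀ ≤ k → 1 ≤ K → θ * (k : ℝ) ^ 2 ≤ S.card → (S.card : ℝ) ≤ T * (k : ℝ) ^ 2 →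
    Pr (pk k / K) (fun A : Finset (Sym2 V) => ¬ ∃ I ⊆ S, I.card = k ∧ Ind (gr A) ∅ I) *
      K ^ (S.card ^ 2 / (256 * k)) ≤ 4 / 3

/-- LGC_UP (from CH, BAD) -/
def S_UP : Prop :=
  ∀ a b : ℝ, 0 < a → 0 < b → ∃ C : ℝ, 0 < C ∧ ∃ n₀ : ℕ, ∀ n : ℕ, n₀ ≤ n →
    ∃ G : SimpleGraph (Fin n), Star a b n G ∧ ∀ Q : Finset (Fin n), G.IsClique (Q : Set (Fin n)) →
      (Q.card : ℝ) ≤ C * (Real.log n ^ 2 / Real.log (Real.log n))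

open Classical in
/-- LGC_LOW1: one step of the lower bound. -/
def S_LOW1 : Prop :=
  ∀ (V : Type) (G : SimpleGraph V) (s t : ℕ) (W : Finset V) (R : ℝ), 1 ≤ t → t ≤ s →
    s ≤ W.card → (∀ S ⊆ W, S.card = s → ∃ T ⊆ S, T.card = t ∧ G.IsClique (T : Set V)) →
    0 < R → (s : ℝ) ^ t < (t.factorial : ℝ) * R ^ (t - t / 2) →
    ∃ Q ⊆ W, t / 2 ≤ Q.card ∧ G.IsClique (Q : Set V) ∧
      (W.card : ℝ) / R ≤ ((W.filter (fun v => ∀ x ∈ Q, G.Adj x v)).card : ℝ)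

/-- LGC_LOW (from LOW1) -/
def S_LOW : Prop :=
  ∀ a b : ℝ, 0 < a → 0 < b → ∃ c : ℝ, 0 < c ∧ ∃ n₀ : ℕ, ∀ n : ℕ, n₀ ≤ n →
    ∀ G : SimpleGraph (Fin n), Star a b n G → ∃ Q : Finset (Fin n), G.IsClique (Q : Set (Fin n)) ∧
      c * (Real.log n ^ 2 / Real.log (Real.log n)) ≤ (Q.card : ℝ)

end Pool.Agent.LGC
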